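import Pool.Agent.H238.HK.Defs

/-!
# The upper part of the complement of the regular hexagon is simply connected
-/

set_option autoImplicit false

open Topology Set Filter

namespace Pool.Agent.H238.HK

open Pool.Agent.Helper22.LC (core isCov lab lab_inj mono_chart Pers pers_ev ite_ev ite_ev')

private def rasMk (p : ℝ × ℝ × ℝ) (h : 0 < p.2.2 ∨ ff p.1 p.2.1 ≠ √3) : RA :=
  ⟨⟨p, fun hp => by
    rcases h with h | h
    · exact h.ne' hp.1
    · exact h hp.2⟩, h⟩

private theorem rasMk_cont {Z : Type} [TopologicalSpace Z] (F : Z → ℝ × ℝ × ℝ) (hF : Continuous F)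
    (h : ∀ z, 0 < (F z).2.2 ∨ ff (F z).1 (F z).2.1 ≠ √3) :
    Continuous fun z => rasMk (F z) (h z) :=
  Continuous.subtype_mk (Continuous.subtype_mk hF _) _

private theorem ras_ext {p q : RA} (h : p.1.1 = q.1.1) : p = q :=
  Subtype.ext (Subtype.ext h)

private noncomputable def rasF (s : ℝ) (p : ℝ × ℝ × ℝ) : ℝ × ℝ × ℝ :=
  (p.1, p.2.1, p.2.2 + s * (1 + |p.2.2|))

private noncomputable def rasG (s : ℝ) (p : ℝ × ℝ × ℝ) : ℝ × ℝ × ℝ :=
  ((1 - s) * p.1, (1 - s) * p.2.1, (1 - s) * (p.2.2 + 1 * (1 + |p.2.2|)) + s)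

private theorem rasF_good (s : ℝ) (hs : 0 ≤ s) (p : RA) :
    0 < (rasF s p.1.1).2.2 ∨ ff (rasF s p.1.1).1 (rasF s p.1.1).2.1 ≠ √3 := by
  rcases p.2 with h | h
  · left
    have h1 : 0 ≤ s * (1 + |p.1.1.2.2|) := by positivity
    have h2 : (0 : ℝ) < p.1.1.2.2 := h
    show 0 < p.1.1.2.2 + s * (1 + |p.1.1.2.2|)
    linarith
  · right
    exact h

private theorem rasG_good (s : ℝ) (hs : 0 ≤ s) (hs1 : s ≤ 1) (p : RA) :
    0 < (rasG s p.1.1).2.2 ∨ ff (rasG s p.1.1).1 (rasG s p.1.1).2.1 ≠ √3 := by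
  left
  have h1 := neg_abs_le p.1.1.2.2
  have h2 : 1 ≤ p.1.1.2.2 + 1 * (1 + |p.1.1.2.2|) := by linarith
  show 0 < (1 - s) * (p.1.1.2.2 + 1 * (1 + |p.1.1.2.2|)) + s
  nlinarith

private noncomputable def rasMid : C(RA, RA) :=
  ⟨fun p => rasMk (rasF 1 p.1.1) (rasF_good 1 zero_le_one p),
    rasMk_cont _ (by unfold rasF; fun_prop) _⟩

private noncomputable def rasPt : RA := rasMk (0, 0, 1) (Or.inl one_pos)

private noncomputable def rasH1 : ContinuousMap.Homotopy (ContinuousMap.id RA) rasMid where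
  toFun q := rasMk (rasF (q.1 : ℝ) q.2.1.1) (rasF_good _ q.1.2.1 q.2)
  continuous_toFun := rasMk_cont _ (by unfold rasF; fun_prop) _
  map_zero_left p := by
    apply ras_ext
    show rasF ((0 : unitInterval) : ℝ) p.1.1 = p.1.1
    unfold rasF
    simp
  map_one_left p := by
    apply ras_ext
    show rasF ((1 : unitInterval) : ℝ) p.1.1 = rasF 1 p.1.1
    simp

private noncomputable def rasH2 : ContinuousMap.Homotopy rasMid (ContinuousMap.const RA rasPt) where
  toFun q := rasMk (rasG (q.1 : ℝ) q.2.1.1) (rasG_good _ q.1.2.1 q.1.2.2 q.2)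
  continuous_toFun := rasMk_cont _ (by unfold rasG; fun_prop) _
  map_zero_left p := by
    apply ras_ext
    show rasG ((0 : unitInterval) : ℝ) p.1.1 = rasF 1 p.1.1
    unfold rasF rasG
    simp
  map_one_left p := by
    apply ras_ext
    show rasG ((1 : unitInterval) : ℝ) p.1.1 = ((0 : ℝ), (0 : ℝ), (1 : ℝ))
    unfold rasG
    simp

theorem pRAS : RAS := by
  have h1 : ContractibleSpace RA := by
    rw [contractible_iff_id_nullhomotopic]
    exact ⟨rasPt, ⟨rasH1.trans rasH2⟩⟩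
  show SimplyConnectedSpace RA
  infer_instance

end Pool.Agent.H238.HK
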