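import Pool.Agent.H238.HK.Defs

/-!
# RIO: the inner part `RI` is path connected (helper878)
-/

set_option autoImplicit false

open Topology Set Filter

namespace Pool.Agent.H238.HK

private theorem ff_mul (t : ℝ) (ht : 0 ≤ t) (x y : ℝ) : ff (t * x) (t * y) = t * ff x y := by
  unfold ff
  have e1 : √3 * (t * x) + t * y = t * (√3 * x + y) := by ring
  have e2 : √3 * (t * x) - t * y = t * (√3 * x - y) := by ring
  rw [e1, e2, abs_mul, abs_mul, abs_mul, abs_of_nonneg ht, mul_max_of_nonneg _ _ ht, mul_max_of_nonneg _ _ ht]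
  congr 1
  ring

private theorem ff_nonneg (x y : ℝ) : 0 ≤ ff x y :=
  le_max_of_le_right (by positivity)

private theorem ff_lt {t x y : ℝ} (ht : 0 ≤ t) (ht1 : t ≤ 1) (h : ff x y < √3) : ff (t * x) (t * y) < √3 := by
  rw [ff_mul t ht]
  have := ff_nonneg x y
  nlinarith

theorem pRIO : RIO := by
  have hs : (0 : ℝ) < √3 := Real.sqrt_pos.2 (by norm_num)
  have h0 : ((0, 0, 0) : ℝ × ℝ × ℝ) ∉ RK := by
    rintro ⟨_, h⟩
    have : ff 0 0 = 0 := by simp [ff]
    simp only [this] at h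
    linarith
  refine ⟨⟨(0, 0, 0), h0⟩, ?_, ?_⟩
  · show ff 0 0 < √3
    have : ff 0 0 = 0 := by simp [ff]
    rw [this]; exact hs
  · intro y hy
    obtain ⟨⟨a, b, c⟩, hp⟩ := y
    have hy' : ff a b < √3 := hy
    have key : ∀ t : unitInterval, ff ((t : ℝ) * a) ((t : ℝ) * b) < √3 := fun t => ff_lt t.2.1 t.2.2 hy'
    have hm : ∀ t : unitInterval, (((t : ℝ) * a, (t : ℝ) * b, (t : ℝ) * c) : ℝ × ℝ × ℝ) ∉ RK := by
      rintro t ⟨_, h⟩
      exact absurd h (key t).ne
    refine ⟨{ toFun := fun t => ⟨((t : ℝ) * a, (t : ℝ) * b, (t : ℝ) * c), hm t⟩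
              continuous_toFun := by fun_prop
              source' := by simp
              target' := by simp }, ?_⟩
    intro t
    exact key t
end Pool.Agent.H238.HK
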