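import Pool.Agent.H238.HK.Defs

set_option autoImplicit false

open Topology Set Filter

namespace Pool.Agent.H238.HK

theorem pCOV : COV := by
  rintro ⟨⟨x, y, z⟩, hp⟩
  have hp0 := hp
  simp only [TK, mem_setOf_eq, not_or, not_and] at hp0
  obtain ⟨p1, p2, p3, p4, p5, p6⟩ := hp0
  by_cases hU : (⟨(x, y, z), hp⟩ : TC) ∈ BU
  · exact ⟨0, hU⟩
  by_cases hV : (⟨(x, y, z), hp⟩ : TC) ∈ BV
  · exact ⟨1, hV⟩
  have hU' : (y = 0 ∧ -1 ≤ x ∧ x ≤ 2 ∧ z < 1 - 2 * x) ∨ (x + y = 2 ∧ 0 ≤ x ∧ 0 ≤ y ∧ z < 3 * y - 3) ∨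
      (x = 0 ∧ -1 ≤ y ∧ y ≤ 2 ∧ z < 2 * y - 1) ∨ (y = -1 ∧ 0 ≤ x ∧ x ≤ 2 ∧ z < 3 * x - 3) ∨
      (x + y = 1 ∧ -1 ≤ x ∧ x ≤ 2 ∧ z < 2 * x - 1) ∨ (x = -1 ∧ 0 ≤ y ∧ y ≤ 2 ∧ z < 3 - 3 * y) := by
    by_contra hcon
    apply hU
    simp only [not_or, not_and, not_lt] at hcon
    obtain ⟨q1, q2, q3, q4, q5, q6⟩ := hcon
    refine ⟨?_, ?_, ?_, ?_, ?_, ?_⟩ <;> by_contra hc <;>
      simp only [not_or, not_not, not_lt, ne_eq] at hc <;> obtain ⟨c1, c2, c3, c4⟩ := hc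
    · exact p1 c1 c2 c3 (le_antisymm c4 (q1 c1 c2 c3))
    · exact p2 c1 c2 c3 (le_antisymm c4 (q2 c1 c2 c3))
    · exact p3 c1 c2 c3 (le_antisymm c4 (q3 c1 c2 c3))
    · exact p4 c1 c2 c3 (le_antisymm c4 (q4 c1 c2 c3))
    · exact p5 c1 c2 c3 (le_antisymm c4 (q5 c1 c2 c3))
    · exact p6 c1 c2 c3 (le_antisymm c4 (q6 c1 c2 c3))
  have hV' : (y = 0 ∧ -1 ≤ x ∧ x ≤ 2 ∧ 1 - 2 * x < z) ∨ (x + y = 2 ∧ 0 ≤ x ∧ 0 ≤ y ∧ 3 * y - 3 < z) ∨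
      (x = 0 ∧ -1 ≤ y ∧ y ≤ 2 ∧ 2 * y - 1 < z) ∨ (y = -1 ∧ 0 ≤ x ∧ x ≤ 2 ∧ 3 * x - 3 < z) ∨
      (x + y = 1 ∧ -1 ≤ x ∧ x ≤ 2 ∧ 2 * x - 1 < z) ∨ (x = -1 ∧ 0 ≤ y ∧ y ≤ 2 ∧ 3 - 3 * y < z) := by
    by_contra hcon
    apply hV
    simp only [not_or, not_and, not_lt] at hcon
    obtain ⟨q1, q2, q3, q4, q5, q6⟩ := hcon
    refine ⟨?_, ?_, ?_, ?_, ?_, ?_⟩ <;> by_contra hc <;>
      simp only [not_or, not_not, not_lt, ne_eq] at hc <;> obtain ⟨c1, c2, c3, c4⟩ := hc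
    · exact p1 c1 c2 c3 (le_antisymm (q1 c1 c2 c3) c4)
    · exact p2 c1 c2 c3 (le_antisymm (q2 c1 c2 c3) c4)
    · exact p3 c1 c2 c3 (le_antisymm (q3 c1 c2 c3) c4)
    · exact p4 c1 c2 c3 (le_antisymm (q4 c1 c2 c3) c4)
    · exact p5 c1 c2 c3 (le_antisymm (q5 c1 c2 c3) c4)
    · exact p6 c1 c2 c3 (le_antisymm (q6 c1 c2 c3) c4)
  clear hU hV p1 p2 p3 p4 p5 p6
  rcases hU' with ⟨h1, h2, h3, h4⟩ | ⟨h1, h2, h3, h4⟩ | ⟨h1, h2, h3, h4⟩ | ⟨h1, h2, h3, h4⟩ |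
    ⟨h1, h2, h3, h4⟩ | ⟨h1, h2, h3, h4⟩ <;>
  rcases hV' with ⟨k1, k2, k3, k4⟩ | ⟨k1, k2, k3, k4⟩ | ⟨k1, k2, k3, k4⟩ | ⟨k1, k2, k3, k4⟩ |
    ⟨k1, k2, k3, k4⟩ | ⟨k1, k2, k3, k4⟩ <;>
  first
    | (exfalso; linarith)
    | exact ⟨2, ⟨by change _ < x; linarith, by change x < _; linarith, by change _ < y; linarith,
        by change y < _; linarith, by change 2 * y - 1 < z; linarith, by change z < 1 - 2 * x; linarith⟩⟩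
    | exact ⟨3, ⟨by change _ < x; linarith, by change x < _; linarith, by change _ < y; linarith,
        by change y < _; linarith, by change 1 - 2 * x < z; linarith, by change z < 2 * x - 1; linarith⟩⟩
    | exact ⟨4, ⟨by change _ < x; linarith, by change x < _; linarith, by change _ < y; linarith,
        by change y < _; linarith, by change 2 * x - 1 < z; linarith, by change z < 2 * y - 1; linarith⟩⟩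

end Pool.Agent.H238.HK
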