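import Pool.Agent.H238.HK.Defs

/-!
# A hexagonal trefoil: the group of the complement of the regular hexagon is commutative
-/

set_option autoImplicit false

open Topology Set Filter

namespace Pool.Agent.H238.HK

open Pool.Agent.Helper22.LC (core isCov lab lab_inj mono_chart Pers pers_ev ite_ev ite_ev')

private theorem ff_cont : Continuous (fun p : RC => ff p.1.1 p.1.2.1) := by
  unfold ff
  fun_prop

theorem pCRC (hG : GEN) (hb : BAS) (h1 : RAS) (h2 : RBS) (h3 : RIO) (h4 : ROO) : CRC := by
  have hc := ff_cont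
  have hz : Continuous (fun p : RC => p.1.2.2) := by fun_prop
  have hA : IsOpen RA :=
    (isOpen_lt continuous_const hz).union (isOpen_ne_fun hc continuous_const)
  have hB : IsOpen RB :=
    (isOpen_lt hz continuous_const).union (isOpen_ne_fun hc continuous_const)
  have hU : RA ∪ RB = univ := by
    rw [eq_univ_iff_forall]
    intro p
    by_cases hf : ff p.1.1 p.1.2.1 = √3
    · have hp : p.1.2.2 ≠ 0 := fun h0 => p.2 ⟨h0, hf⟩
      rcases lt_or_gt_of_ne hp with h | h
      · exact Or.inr (Or.inl h)
      · exact Or.inl (Or.inl h)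
    · exact Or.inl (Or.inr hf)
  have hI : RA ∩ RB = RI ∪ RO := by
    ext p
    constructor
    · rintro ⟨ha, hb'⟩
      by_cases hf : ff p.1.1 p.1.2.1 = √3
      · have h5 : 0 < p.1.2.2 := ha.resolve_right (fun h => h hf)
        have h6 : p.1.2.2 < 0 := hb'.resolve_right (fun h => h hf)
        exact absurd h5 (not_lt.2 h6.le)
      · rcases lt_or_gt_of_ne hf with h | h
        · exact Or.inl h
        · exact Or.inr h
    · rintro (h | h)
      · have h' : ff p.1.1 p.1.2.1 < √3 := h
        exact ⟨Or.inr h'.ne, Or.inr h'.ne⟩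
      · have h' : √3 < ff p.1.1 p.1.2.1 := h
        exact ⟨Or.inr h'.ne', Or.inr h'.ne'⟩
  have h1' : SimplyConnectedSpace RA := h1
  have h2' : SimplyConnectedSpace RB := h2
  have h4' : IsPathConnected RO := h4
  obtain ⟨x0, hx0⟩ := h4'.nonempty
  have hpc : PathConnectedSpace RC := by
    rw [pathConnectedSpace_iff_univ, ← hU]
    have ha : IsPathConnected RA := isPathConnected_iff_pathConnectedSpace.2 inferInstance
    have hb' : IsPathConnected RB := isPathConnected_iff_pathConnectedSpace.2 inferInstance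
    refine ha.union hb' ⟨x0, ?_⟩
    rw [hI]
    exact Or.inr hx0
  obtain ⟨g, hg⟩ := hG RC RA RB RI RO hA hB hU hI h3 h4 h1' h2' x0 hx0
  refine fun x => hb RC x0 (fun α β => ?_) x
  obtain ⟨m, hm⟩ := Subgroup.mem_zpowers_iff.1 (hg α)
  obtain ⟨n, hn⟩ := Subgroup.mem_zpowers_iff.1 (hg β)
  rw [← hm, ← hn, ← zpow_add, ← zpow_add, add_comm]

end Pool.Agent.H238.HK
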