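import Pool.Agent.H238.HK.Defs

/-!
# Two simply connected open sets whose intersection is the union of two path connected sets:
the fundamental group is cyclic.
-/

set_option autoImplicit false

open Topology Set Filter

namespace Pool.Agent.H238.HK

open Pool.Agent.Helper22.LC (core isCov lab lab_inj mono_chart Pers pers_ev ite_ev ite_ev')

open CategoryTheory

private theorem homA {X : Type} [TopologicalSpace X] (A : Set X) (hA : SimplyConnectedSpace A)
    {y z : X} (p q : Path y z) (hp : ∀ t, p t ∈ A) (hq : ∀ t, q t ∈ A) : p.Homotopic q := by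
  have hy : y ∈ A := by simpa using hp 0
  have hz : z ∈ A := by simpa using hp 1
  let p' : Path (⟨y, hy⟩ : A) ⟨z, hz⟩ :=
    { toFun := fun t => ⟨p t, hp t⟩
      continuous_toFun := p.continuous.subtype_mk hp
      source' := by simp
      target' := by simp }
  let q' : Path (⟨y, hy⟩ : A) ⟨z, hz⟩ :=
    { toFun := fun t => ⟨q t, hq t⟩
      continuous_toFun := q.continuous.subtype_mk hq
      source' := by simp
      target' := by simp }
  have h := SimplyConnectedSpace.paths_homotopic p' q'
  exact h.map ⟨Subtype.val, continuous_subtype_val⟩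

private def cl {X : Type} [TopologicalSpace X] {a b : X} (p : Path a b) :
    FundamentalGroupoid.mk a ⟶ FundamentalGroupoid.mk b := Path.Homotopic.Quotient.mk p

private theorem cl_trans {X : Type} [TopologicalSpace X] {a b c : X} (p : Path a b) (q : Path b c) :
    cl (p.trans q) = cl p ≫ cl q := rfl

private theorem cl_eq {X : Type} [TopologicalSpace X] {a b : X} {p q : Path a b}
    (h : p.Homotopic q) : cl p = cl q := Path.Homotopic.Quotient.eq.2 h

private def fg {X : Type} [TopologicalSpace X] {x : X}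
    (q : FundamentalGroupoid.mk x ⟶ FundamentalGroupoid.mk x) : FundamentalGroup X x := q

private theorem fg_comp {X : Type} [TopologicalSpace X] {x : X}
    (q r : FundamentalGroupoid.mk x ⟶ FundamentalGroupoid.mk x) : fg (q ≫ r) = fg r * fg q := rfl

private theorem fg_id {X : Type} [TopologicalSpace X] {x : X} :
    fg (𝟙 (FundamentalGroupoid.mk x)) = 1 := rfl

private theorem trans_mem {X : Type} [TopologicalSpace X] {A : Set X} {a b c : X} (p : Path a b)
    (q : Path b c) (hp : ∀ t, p t ∈ A) (hq : ∀ t, q t ∈ A) : ∀ t, p.trans q t ∈ A := by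
  intro t
  have h : p.trans q t ∈ range (p.trans q) := ⟨t, rfl⟩
  rw [Path.trans_range] at h
  rcases h with ⟨s, hs⟩ | ⟨s, hs⟩
  · rw [← hs]; exact hp s
  · rw [← hs]; exact hq s

theorem pGEN : GEN := by
  intro X _ A B I O hA hB hAB hIO hI hO sA sB x hx
  have hIA : I ⊆ A := fun y hy => (hIO.ge (Or.inl hy)).1
  have hIB : I ⊆ B := fun y hy => (hIO.ge (Or.inl hy)).2
  have hOA : O ⊆ A := fun y hy => (hIO.ge (Or.inr hy)).1
  have hOB : O ⊆ B := fun y hy => (hIO.ge (Or.inr hy)).2
  obtain ⟨y0, hy0⟩ : I.Nonempty := hI.nonempty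
  have pA : IsPathConnected A := IsSimplyConnected.isPathConnected sA
  have pB : IsPathConnected B := IsSimplyConnected.isPathConnected sB
  have eA : ∀ y, y ∈ A → ∃ p : Path y x, ∀ t, p t ∈ A := fun y hy => pA.joinedIn y hy x (hOA hx)
  have eB : ∀ y, y ∈ B → ∃ p : Path y x, ∀ t, p t ∈ B := fun y hy => pB.joinedIn y hy x (hOB hx)
  choose ga hga using eA
  choose gb hgb using eB
  -- paths in `A` and `B`
  have kA : ∀ (y z : X) (hy : y ∈ A) (hz : z ∈ A) (r : Path y z), (∀ t, r t ∈ A) →
      cl (ga y hy) = cl r ≫ cl (ga z hz) := by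
    intro y z hy hz r hr
    rw [← cl_trans]
    exact cl_eq (homA A sA _ _ (hga y hy) (trans_mem _ _ hr (hga z hz)))
  have kB : ∀ (y z : X) (hy : y ∈ B) (hz : z ∈ B) (r : Path y z), (∀ t, r t ∈ B) →
      cl (gb y hy) = cl r ≫ cl (gb z hz) := by
    intro y z hy hz r hr
    rw [← cl_trans]
    exact cl_eq (homA B sB _ _ (hgb y hy) (trans_mem _ _ hr (hgb z hz)))
  let g : FundamentalGroup X x := fg (inv (cl (ga y0 (hIA hy0))) ≫ cl (gb y0 (hIB hy0)))
  have sw : ∀ (z : X) (hzA : z ∈ A) (hzB : z ∈ B)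
      (q : FundamentalGroupoid.mk x ⟶ FundamentalGroupoid.mk z),
      (fg (q ≫ cl (ga z hzA)) ∈ Subgroup.zpowers g ↔
        fg (q ≫ cl (gb z hzB)) ∈ Subgroup.zpowers g) := by
    intro z hzA hzB q
    rcases hIO.le ⟨hzA, hzB⟩ with hz | hz
    · obtain ⟨r, hr⟩ := hI.joinedIn z hz y0 hy0
      have h1 := kA z y0 hzA (hIA hy0) r (fun t => hIA (hr t))
      have h2 := kB z y0 hzB (hIB hy0) r (fun t => hIB (hr t))
      have h3 : fg (q ≫ cl (gb z hzB)) = g * fg (q ≫ cl (ga z hzA)) := by
        rw [← fg_comp, h1, h2]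
        congr 1
        simp only [Category.assoc, IsIso.hom_inv_id_assoc]
      rw [h3]
      exact (Subgroup.mul_mem_cancel_left _ (Subgroup.mem_zpowers g)).symm
    · obtain ⟨r, hr⟩ := hO.joinedIn z hz x hx
      have h1 : cl (ga z hzA) = cl r := cl_eq (homA A sA _ _ (hga z hzA) (fun t => hOA (hr t)))
      have h2 : cl (gb z hzB) = cl r := cl_eq (homA B sB _ _ (hgb z hzB) (fun t => hOB (hr t)))
      rw [h1, h2]
  refine ⟨g, ?_⟩
  intro α
  obtain ⟨γ, rfl⟩ := Path.Homotopic.Quotient.mk_surjective α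
  let P : (z : X) → (FundamentalGroupoid.mk x ⟶ FundamentalGroupoid.mk z) → Prop := fun z q =>
    (∀ h : z ∈ A, fg (q ≫ cl (ga z h)) ∈ Subgroup.zpowers g) ∧
    (∀ h : z ∈ B, fg (q ≫ cl (gb z h)) ∈ Subgroup.zpowers g)
  have hone : cl (ga x (hOA hx)) = 𝟙 (FundamentalGroupoid.mk x) :=
    cl_eq (homA A sA _ (Path.refl x) (hga x (hOA hx)) (fun t => hOA hx))
  have base : P x (𝟙 _) := by
    have h0 : fg (𝟙 (FundamentalGroupoid.mk x) ≫ cl (ga x (hOA hx))) ∈ Subgroup.zpowers g := by
      rw [Category.id_comp, hone, fg_id]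
      exact Subgroup.one_mem _
    exact ⟨fun h => h0, fun h => (sw x (hOA hx) h _).1 h0⟩
  have stepA : ∀ (y z : X) (q : FundamentalGroupoid.mk x ⟶ FundamentalGroupoid.mk y) (r : Path y z),
      (∀ t, r t ∈ A) → P y q → P z (q ≫ cl r) := by
    intro y z q r hr hP
    have hy : y ∈ A := by simpa using hr 0
    have hz : z ∈ A := by simpa using hr 1
    have h0 : fg ((q ≫ cl r) ≫ cl (ga z hz)) ∈ Subgroup.zpowers g := by
      rw [Category.assoc, ← kA y z hy hz r hr]
      exact hP.1 hy
    exact ⟨fun h => h0, fun h => (sw z hz h _).1 h0⟩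
  have stepB : ∀ (y z : X) (q : FundamentalGroupoid.mk x ⟶ FundamentalGroupoid.mk y) (r : Path y z),
      (∀ t, r t ∈ B) → P y q → P z (q ≫ cl r) := by
    intro y z q r hr hP
    have hy : y ∈ B := by simpa using hr 0
    have hz : z ∈ B := by simpa using hr 1
    have h0 : fg ((q ≫ cl r) ≫ cl (gb z hz)) ∈ Subgroup.zpowers g := by
      rw [Category.assoc, ← kB y z hy hz r hr]
      exact hP.2 hy
    exact ⟨fun h => (sw z h hz _).2 h0, fun h => h0⟩
  let c : Bool → Set unitInterval := fun b => γ ⁻¹' (if b then A else B)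
  have hc1 : ∀ b, IsOpen (c b) := by
    intro b
    cases b
    · exact hB.preimage γ.continuous
    · exact hA.preimage γ.continuous
  have hc2 : univ ⊆ ⋃ b, c b := by
    intro t _
    have h : γ t ∈ A ∪ B := hAB ▸ mem_univ _
    rcases h with h | h
    · exact mem_iUnion.2 ⟨true, h⟩
    · exact mem_iUnion.2 ⟨false, h⟩
  obtain ⟨t, ht0, htm, ⟨n, hn⟩, ht⟩ := exists_monotone_Icc_subset_open_cover_unitInterval hc1 hc2
  have key : ∀ m : ℕ, P (γ (t m)) (cl ((γ.subpath 0 (t m)).cast γ.source.symm rfl)) := by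
    intro m
    induction m with
    | zero =>
      have : ∀ s : unitInterval, s = 0 → P (γ s) (cl ((γ.subpath 0 s).cast γ.source.symm rfl)) := by
        rintro s rfl
        have aux : ∀ (z : X) (p : Path z z) (hz : x = z), p = Path.refl z →
            P z (cl (p.cast hz rfl)) := by
          rintro z p rfl rfl
          exact base
        exact aux _ _ γ.source.symm (Path.subpath_self γ 0)
      exact this _ ht0
    | succ m ih =>
      have h1 : cl ((γ.subpath 0 (t (m + 1))).cast γ.source.symm rfl) =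
          cl ((γ.subpath 0 (t m)).cast γ.source.symm rfl) ≫ cl (γ.subpath (t m) (t (m + 1))) := by
        rw [← cl_trans]
        have h2 : (γ.subpath 0 (t (m + 1))).Homotopic
            ((γ.subpath 0 (t m)).trans (γ.subpath (t m) (t (m + 1)))) :=
          ⟨(Path.Homotopy.subpathTransSubpath γ 0 (t m) (t (m + 1))).symm⟩
        exact cl_eq (h2.pathCast γ.source.symm rfl)
      rw [h1]
      obtain ⟨b, hb⟩ := ht m
      have hr : ∀ s, γ.subpath (t m) (t (m + 1)) s ∈ (if b then A else B) := by
        intro s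
        have hs : γ.subpath (t m) (t (m + 1)) s ∈ range (γ.subpath (t m) (t (m + 1))) := ⟨s, rfl⟩
        rw [Path.range_subpath_of_le _ _ _ (htm (Nat.le_succ m))] at hs
        obtain ⟨u, hu, hu'⟩ := hs
        rw [← hu']
        exact hb hu
      cases b
      · exact stepB _ _ _ _ hr ih
      · exact stepA _ _ _ _ hr ih
  have hend : ∀ s : unitInterval, s = 1 → P (γ s) (cl ((γ.subpath 0 s).cast γ.source.symm rfl)) →
      P x (cl γ) := by
    rintro s rfl h
    have aux : ∀ (z : X) (hz : z = x) (p : Path x z), P z (cl p) → P x (cl (p.cast rfl hz.symm)) := by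
      rintro z rfl p h
      exact h
    have h2 := aux _ γ.target _ h
    have h3 : (((γ.subpath 0 1).cast γ.source.symm rfl).cast rfl γ.target.symm) = γ := by
      rw [Path.subpath_zero_one]
      rfl
    rwa [h3] at h2
  have hfin := (hend _ (hn n le_rfl) (key n)).1 (hOA hx)
  rw [hone, Category.comp_id] at hfin
  exact hfin

end Pool.Agent.H238.HK
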