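import Pool.Agent.H238.HK.Defs

set_option autoImplicit false

open Topology Set Filter

namespace Pool.Agent.H238.HK

open Pool.Agent.Helper22.LC (core isCov lab lab_inj mono_chart Pers pers_ev ite_ev ite_ev')

private theorem plt {w a a' : ℝ} (h : Pers w a a') (h1 : a < w) : a' < w := by
  rcases h with h | h | h
  · exact h.2
  · linarith
  · linarith [h.1]

private theorem pgt {w a a' : ℝ} (h : Pers w a a') (h1 : w < a) : w < a' := by
  rcases h with h | h | h
  · linarith [h.1]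
  · linarith
  · exact h.2

/-- The face labels are locally constant off the diagram. -/
theorem pGUV : GUV := by
  intro x y x' y' hS hx1 hx0 hy1 hy0 hs1 hs2
  have e1 : y = 0 → -1 ≤ x → x ≤ 2 → False := fun a b c => hS (Or.inl ⟨a, b, c⟩)
  have e2 : x + y = 2 → 0 ≤ x → 0 ≤ y → False := fun a b c => hS (Or.inr (Or.inl ⟨a, b, c⟩))
  have e3 : x = 0 → -1 ≤ y → y ≤ 2 → False := fun a b c => hS (Or.inr (Or.inr (Or.inl ⟨a, b, c⟩)))
  have e4 : y = -1 → 0 ≤ x → x ≤ 2 → False :=
    fun a b c => hS (Or.inr (Or.inr (Or.inr (Or.inl ⟨a, b, c⟩))))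
  have e5 : x + y = 1 → -1 ≤ x → x ≤ 2 → False :=
    fun a b c => hS (Or.inr (Or.inr (Or.inr (Or.inr (Or.inl ⟨a, b, c⟩)))))
  have e6 : x = -1 → 0 ≤ y → y ≤ 2 → False :=
    fun a b c => hS (Or.inr (Or.inr (Or.inr (Or.inr (Or.inr ⟨a, b, c⟩)))))
  have X1 : x < -1 → x' < -1 := plt hx1
  have X1' : -1 < x → -1 < x' := pgt hx1
  have X0 : x < 0 → x' < 0 := plt hx0
  have X0' : 0 < x → 0 < x' := pgt hx0
  have Y1 : y < -1 → y' < -1 := plt hy1
  have Y1' : -1 < y → -1 < y' := pgt hy1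
  have Y0 : y < 0 → y' < 0 := plt hy0
  have Y0' : 0 < y → 0 < y' := pgt hy0
  have S1 : x + y < 1 → x' + y' < 1 := plt hs1
  have S1' : 1 < x + y → 1 < x' + y' := pgt hs1
  have S2 : x + y < 2 → x' + y' < 2 := plt hs2
  have S2' : 2 < x + y → 2 < x' + y' := pgt hs2
  have hA : (0 ≤ x' ∧ 0 ≤ y' ∧ x' + y' ≤ 1) ↔ (0 ≤ x ∧ 0 ≤ y ∧ x + y ≤ 1) := by
    constructor
    · rintro ⟨a, b, c⟩
      refine ⟨?_, ?_, ?_⟩
      · by_contra h; have := X0 (not_le.1 h); linarith
      · by_contra h; have := Y0 (not_le.1 h); linarith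
      · by_contra h; have := S1' (not_le.1 h); linarith
    · rintro ⟨a, b, c⟩
      have x0 : 0 < x := lt_of_le_of_ne a fun e => e3 e.symm (by linarith) (by linarith)
      have y0 : 0 < y := lt_of_le_of_ne b fun e => e1 e.symm (by linarith) (by linarith)
      have s1 : x + y < 1 := lt_of_le_of_ne c fun e => e5 e (by linarith) (by linarith)
      exact ⟨(X0' x0).le, (Y0' y0).le, (S1 s1).le⟩
  have hB : (0 ≤ x' ∧ 0 ≤ y' ∧ x' + y' < 2) ↔ (0 ≤ x ∧ 0 ≤ y ∧ x + y < 2) := by
    constructor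
    · rintro ⟨a, b, c⟩
      have hx : 0 ≤ x := by by_contra h; have := X0 (not_le.1 h); linarith
      have hy : 0 ≤ y := by by_contra h; have := Y0 (not_le.1 h); linarith
      have hs : x + y ≤ 2 := by by_contra h; have := S2' (not_le.1 h); linarith
      exact ⟨hx, hy, lt_of_le_of_ne hs fun e => e2 e hx hy⟩
    · rintro ⟨a, b, c⟩
      have x0 : 0 < x := lt_of_le_of_ne a fun e => e3 e.symm (by linarith) (by linarith)
      have y0 : 0 < y := lt_of_le_of_ne b fun e => e1 e.symm (by linarith) (by linarith)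
      exact ⟨(X0' x0).le, (Y0' y0).le, S2 c⟩
  have hC : (-1 < y' ∧ y' < 0 ∧ 0 < x' ∧ x' + y' ≤ 1) ↔ (-1 < y ∧ y < 0 ∧ 0 < x ∧ x + y ≤ 1) := by
    constructor
    · rintro ⟨a, b, c, d⟩
      have h1 : -1 ≤ y := by by_contra h; have := Y1 (not_le.1 h); linarith
      have h2 : y ≤ 0 := by by_contra h; have := Y0' (not_le.1 h); linarith
      have h3 : 0 ≤ x := by by_contra h; have := X0 (not_le.1 h); linarith
      have h4 : x + y ≤ 1 := by by_contra h; have := S1' (not_le.1 h); linarith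
      refine ⟨lt_of_le_of_ne h1 fun e => e4 e.symm (by linarith) (by linarith),
        lt_of_le_of_ne h2 fun e => e1 e (by linarith) (by linarith),
        lt_of_le_of_ne h3 fun e => e3 e.symm (by linarith) (by linarith), h4⟩
    · rintro ⟨a, b, c, d⟩
      have s1 : x + y < 1 := lt_of_le_of_ne d fun e => e5 e (by linarith) (by linarith)
      exact ⟨Y1' a, Y0 b, X0' c, (S1 s1).le⟩
  have hD : (-1 < x' ∧ x' < 0 ∧ 0 ≤ y' ∧ x' + y' < 1) ↔ (-1 < x ∧ x < 0 ∧ 0 ≤ y ∧ x + y < 1) := by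
    constructor
    · rintro ⟨a, b, c, d⟩
      have h1 : -1 ≤ x := by by_contra h; have := X1 (not_le.1 h); linarith
      have h2 : x ≤ 0 := by by_contra h; have := X0' (not_le.1 h); linarith
      have h3 : 0 ≤ y := by by_contra h; have := Y0 (not_le.1 h); linarith
      have h4 : x + y ≤ 1 := by by_contra h; have := S1' (not_le.1 h); linarith
      refine ⟨lt_of_le_of_ne h1 fun e => e6 e.symm (by linarith) (by linarith),
        lt_of_le_of_ne h2 fun e => e3 e (by linarith) (by linarith), h3,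
        lt_of_le_of_ne h4 fun e => e5 e (by linarith) (by linarith)⟩
    · rintro ⟨a, b, c, d⟩
      have y0 : 0 < y := lt_of_le_of_ne c fun e => e1 e.symm (by linarith) (by linarith)
      exact ⟨X1' a, X0 b, (Y0' y0).le, S1 d⟩
  simp only [gg, hA, hB, hC, hD]

end Pool.Agent.H238.HK
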