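import Pool.Agent.H238.HK.Defs

set_option autoImplicit false

open Topology Set Filter

namespace Pool.Agent.H238.HK

open Pool.Agent.Helper22.LC (core isCov lab lab_inj mono_chart Pers pers_ev ite_ev ite_ev')

private theorem cx : Continuous (fun p : TC => p.1.1) := by fun_prop
private theorem cy : Continuous (fun p : TC => p.1.2.1) := by fun_prop
private theorem cxy : Continuous (fun p : TC => p.1.1 + p.1.2.1) := by fun_prop

private theorem ite_le {X : Type*} [TopologicalSpace X] {A : Type*} (f : X → ℝ) (hf : Continuous f)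
    (w : ℝ) (x : X) (hx : f x ≠ w) (a b : A) :
    ∀ᶠ q in 𝓝 x, (if f q ≤ w then a else b) = (if f x ≤ w then a else b) := by
  filter_upwards [pers_ev f hf w x] with q hq
  rcases hq with ⟨h1, h2⟩ | h | ⟨h1, h2⟩
  · rw [if_pos h1.le, if_pos h2.le]
  · exact absurd h hx
  · rw [if_neg (not_le.2 h1), if_neg (not_le.2 h2)]

private theorem ite_gt {X : Type*} [TopologicalSpace X] {A : Type*} (f : X → ℝ) (hf : Continuous f)
    (w : ℝ) (x : X) (hx : f x ≠ w) (a b : A) :
    ∀ᶠ q in 𝓝 x, (if w < f q then a else b) = (if w < f x then a else b) := by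
  filter_upwards [pers_ev f hf w x] with q hq
  rcases hq with ⟨h1, h2⟩ | h | ⟨h1, h2⟩
  · rw [if_neg (not_lt.2 h1.le), if_neg (not_lt.2 h2.le)]
  · exact absurd h hx
  · rw [if_pos h1, if_pos h2]

private theorem Loc_symm {i j : Fin 5} (h : Loc i j) : Loc j i := by
  intro x hx
  filter_upwards [h x hx.symm] with y hy
  have := congrArg (·⁻¹) hy
  simpa using this

private theorem Loc_self (i : Fin 5) : Loc i i := by
  intro x hx
  refine Filter.Eventually.of_forall fun y => ?_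
  simp

private theorem LC01 (hG : GUV) : Loc 0 1 := by
  intro p hp
  have hU : p ∈ BU := hp.1
  have hV : p ∈ BV := hp.2
  filter_upwards [pers_ev _ cx (-1) p, pers_ev _ cx 0 p, pers_ev _ cy (-1) p,
    pers_ev _ cy 0 p, pers_ev _ cxy 1 p, pers_ev _ cxy 2 p] with q x1 x0 y1 y0 s1 s2
  show gg q.1.1 q.1.2.1 * 1⁻¹ = gg p.1.1 p.1.2.1 * 1⁻¹
  rw [inv_one, mul_one, mul_one]
  refine hG _ _ _ _ ?_ x1 x0 y1 y0 s1 s2
  obtain ⟨⟨x, y, z⟩, hp'⟩ := p
  obtain ⟨u1, u2, u3, u4, u5, u6⟩ := hU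
  obtain ⟨v1, v2, v3, v4, v5, v6⟩ := hV
  dsimp only at u1 u2 u3 u4 u5 u6 v1 v2 v3 v4 v5 v6 ⊢
  rintro (⟨h1, h2, h3⟩ | ⟨h1, h2, h3⟩ | ⟨h1, h2, h3⟩ | ⟨h1, h2, h3⟩ | ⟨h1, h2, h3⟩ | ⟨h1, h2, h3⟩)
  · rcases u1 with u | u | u | u
    · exact u h1
    · linarith
    · linarith
    · rcases v1 with v | v | v | v
      · exact v h1
      · linarith
      · linarith
      · linarith
  · rcases u2 with u | u | u | u
    · exact u h1
    · linarith
    · linarith
    · rcases v2 with v | v | v | v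
      · exact v h1
      · linarith
      · linarith
      · linarith
  · rcases u3 with u | u | u | u
    · exact u h1
    · linarith
    · linarith
    · rcases v3 with v | v | v | v
      · exact v h1
      · linarith
      · linarith
      · linarith
  · rcases u4 with u | u | u | u
    · exact u h1
    · linarith
    · linarith
    · rcases v4 with v | v | v | v
      · exact v h1
      · linarith
      · linarith
      · linarith
  · rcases u5 with u | u | u | u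
    · exact u h1
    · linarith
    · linarith
    · rcases v5 with v | v | v | v
      · exact v h1
      · linarith
      · linarith
      · linarith
  · rcases u6 with u | u | u | u
    · exact u h1
    · linarith
    · linarith
    · rcases v6 with v | v | v | v
      · exact v h1
      · linarith
      · linarith
      · linarith

private theorem LC02 : Loc 0 2 := by
  intro p hp
  have hU : p ∈ BU := hp.1
  have hW : p ∈ BW1 := hp.2
  obtain ⟨w1, w2, w3, w4, w5, w6⟩ := hW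
  have hne : p.1.2.1 ≠ 0 := by
    obtain ⟨u1, u2, u3, u4, u5, u6⟩ := hU
    rcases u1 with h | h | h | h
    · exact h
    · linarith
    · linarith
    · linarith
  filter_upwards [ite_ev' _ cy 0 p hne (1 : Equiv.Perm (Fin 3)) (pa * pb * pa)] with q hq
  show (if 0 ≤ q.1.2.1 then 1 else pa * pb * pa) * 1⁻¹ = (if 0 ≤ p.1.2.1 then 1 else pa * pb * pa) * 1⁻¹
  rw [hq]

private theorem LC03 : Loc 0 3 := by
  intro p hp
  have hU : p ∈ BU := hp.1
  have hW : p ∈ BW2 := hp.2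
  obtain ⟨w1, w2, w3, w4, w5, w6⟩ := hW
  have hne : p.1.1 + p.1.2.1 ≠ 1 := by
    obtain ⟨u1, u2, u3, u4, u5, u6⟩ := hU
    rcases u5 with h | h | h | h
    · exact h
    · linarith
    · linarith
    · linarith
  filter_upwards [ite_le _ cxy 1 p hne (1 : Equiv.Perm (Fin 3)) pb] with q hq
  show (if q.1.1 + q.1.2.1 ≤ 1 then 1 else pb) * 1⁻¹ = (if p.1.1 + p.1.2.1 ≤ 1 then 1 else pb) * 1⁻¹
  rw [hq]

private theorem LC04 : Loc 0 4 := by
  intro p hp
  have hU : p ∈ BU := hp.1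
  have hW : p ∈ BW3 := hp.2
  obtain ⟨w1, w2, w3, w4, w5, w6⟩ := hW
  have hne : p.1.1 ≠ 0 := by
    obtain ⟨u1, u2, u3, u4, u5, u6⟩ := hU
    rcases u3 with h | h | h | h
    · exact h
    · linarith
    · linarith
    · linarith
  filter_upwards [ite_ev' _ cx 0 p hne (1 : Equiv.Perm (Fin 3)) pa] with q hq
  show (if 0 ≤ q.1.1 then 1 else pa) * 1⁻¹ = (if 0 ≤ p.1.1 then 1 else pa) * 1⁻¹
  rw [hq]

private theorem LC21 (hO : OPN) (hB : BOX) : Loc 2 1 := by
  intro p hp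
  have hV : p ∈ BV := hp.2
  have hW0 : p ∈ BW1 := hp.1
  have hop : IsOpen BW1 := hO 2
  obtain ⟨w1, w2, w3, w4, w5, w6⟩ := hW0
  have hne : p.1.1 ≠ 0 := by
    obtain ⟨u1, u2, u3, u4, u5, u6⟩ := hV
    rcases u3 with h | h | h | h
    · exact h
    · linarith
    · linarith
    · linarith
  filter_upwards [ite_ev _ cx 0 p hne (pa * pb * pa) (pa * pb), hop.mem_nhds hp.1,
    cx.continuousAt.eventually_ne hne] with q hq hqW hqne
  obtain ⟨w1', w2', w3', w4', w5', w6'⟩ := hqW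
  show gg q.1.1 q.1.2.1 * (if 0 ≤ q.1.2.1 then 1 else pa * pb * pa)⁻¹ =
    gg p.1.1 p.1.2.1 * (if 0 ≤ p.1.2.1 then 1 else pa * pb * pa)⁻¹
  rw [hB.1 _ _ w1' w2' w3' w4' hqne, hB.1 _ _ w1 w2 w3 w4 hne, hq]

private theorem LC31 (hO : OPN) (hB : BOX) : Loc 3 1 := by
  intro p hp
  have hV : p ∈ BV := hp.2
  have hW0 : p ∈ BW2 := hp.1
  have hop : IsOpen BW2 := hO 3
  obtain ⟨w1, w2, w3, w4, w5, w6⟩ := hW0
  have hne : p.1.2.1 ≠ 0 := by
    obtain ⟨u1, u2, u3, u4, u5, u6⟩ := hV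
    rcases u1 with h | h | h | h
    · exact h
    · linarith
    · linarith
    · linarith
  filter_upwards [ite_ev _ cy 0 p hne pb (pa * pb), hop.mem_nhds hp.1,
    cy.continuousAt.eventually_ne hne] with q hq hqW hqne
  obtain ⟨w1', w2', w3', w4', w5', w6'⟩ := hqW
  show gg q.1.1 q.1.2.1 * (if q.1.1 + q.1.2.1 ≤ 1 then 1 else pb)⁻¹ =
    gg p.1.1 p.1.2.1 * (if p.1.1 + p.1.2.1 ≤ 1 then 1 else pb)⁻¹
  rw [hB.2.1 _ _ w1' w2' w3' w4' hqne, hB.2.1 _ _ w1 w2 w3 w4 hne, hq]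

private theorem LC41 (hO : OPN) (hB : BOX) : Loc 4 1 := by
  intro p hp
  have hV : p ∈ BV := hp.2
  have hW0 : p ∈ BW3 := hp.1
  have hop : IsOpen BW3 := hO 4
  obtain ⟨w1, w2, w3, w4, w5, w6⟩ := hW0
  have hne : p.1.1 + p.1.2.1 ≠ 1 := by
    obtain ⟨u1, u2, u3, u4, u5, u6⟩ := hV
    rcases u5 with h | h | h | h
    · exact h
    · linarith
    · linarith
    · linarith
  filter_upwards [ite_gt _ cxy 1 p hne pa (pa * pb), hop.mem_nhds hp.1,
    cxy.continuousAt.eventually_ne hne] with q hq hqW hqne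
  obtain ⟨w1', w2', w3', w4', w5', w6'⟩ := hqW
  show gg q.1.1 q.1.2.1 * (if 0 ≤ q.1.1 then 1 else pa)⁻¹ =
    gg p.1.1 p.1.2.1 * (if 0 ≤ p.1.1 then 1 else pa)⁻¹
  rw [hB.2.2 _ _ w1' w2' w3' w4' hqne, hB.2.2 _ _ w1 w2 w3 w4 hne, hq]

private theorem LC23 : Loc 2 3 := by
  intro p hp
  obtain ⟨w1, w2, w3, w4, w5, w6⟩ : p ∈ BW1 := hp.1
  obtain ⟨w1', w2', w3', w4', w5', w6'⟩ : p ∈ BW2 := hp.2
  exfalso; linarith

private theorem LC24 : Loc 2 4 := by
  intro p hp
  obtain ⟨w1, w2, w3, w4, w5, w6⟩ : p ∈ BW1 := hp.1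
  obtain ⟨w1', w2', w3', w4', w5', w6'⟩ : p ∈ BW3 := hp.2
  exfalso; linarith

private theorem LC34 : Loc 3 4 := by
  intro p hp
  obtain ⟨w1, w2, w3, w4, w5, w6⟩ : p ∈ BW2 := hp.1
  obtain ⟨w1', w2', w3', w4', w5', w6'⟩ : p ∈ BW3 := hp.2
  exfalso; linarith

theorem pLOC (hO : OPN) (hG : GUV) (hB : BOX) : LOC := by
  intro i j
  fin_cases i <;> fin_cases j
  · exact Loc_self _
  · exact LC01 hG
  · exact LC02
  · exact LC03
  · exact LC04
  · exact Loc_symm (LC01 hG)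
  · exact Loc_self _
  · exact Loc_symm (LC21 hO hB)
  · exact Loc_symm (LC31 hO hB)
  · exact Loc_symm (LC41 hO hB)
  · exact Loc_symm LC02
  · exact LC21 hO hB
  · exact Loc_self _
  · exact LC23
  · exact LC24
  · exact Loc_symm LC03
  · exact LC31 hO hB
  · exact Loc_symm LC23
  · exact Loc_self _
  · exact LC34
  · exact Loc_symm LC04
  · exact LC41 hO hB
  · exact Loc_symm LC24
  · exact Loc_symm LC34
  · exact Loc_self _

end Pool.Agent.H238.HK
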