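import Pool.Agent.H238.HK.Defs

/-!
# A hexagonal trefoil: the group of the complement is not commutative

Adapted from `s0Compl_noncomm` of `Pool.Graph.R_seed8.Helper22.LC.Trefoil`; by helper800.
-/

set_option autoImplicit false

open Topology Set Filter

namespace Pool.Agent.H238.HK

open Pool.Agent.Helper22.LC (core isCov lab lab_inj mono_chart Pers pers_ev ite_ev ite_ev')

private theorem n0 (y z : ℝ) (hy1 : -1/4 ≤ y) (hy2 : y ≤ 1/4) (h : y ≠ 0 ∨ z ≠ -2) :
    ((3/2 : ℝ), y, z) ∉ TK := by
  intro h'
  change _ ∨ _ at h'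
  dsimp only at h'
  rcases h' with h' | h' | h' | h' | h' | h'
  · rcases h with h | h
    · exact h h'.1
    · exact h (by linarith [h'.2.2.2])
  · linarith [h'.1]
  · linarith [h'.1]
  · linarith [h'.1]
  · linarith [h'.1]
  · linarith [h'.1]

private theorem n1 (x z : ℝ) (hx1 : 1 ≤ x) (hx2 : x ≤ 3/2) (h : x ≠ 5/4 ∨ z ≠ 3/2) :
    (x, (-1/4 : ℝ), z) ∉ TK := by
  intro h'
  change _ ∨ _ at h'
  dsimp only at h'
  rcases h' with h' | h' | h' | h' | h' | h'
  · linarith [h'.1]
  · linarith [h'.1]
  · linarith [h'.1]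
  · linarith [h'.1]
  · rcases h with h | h
    · exact h (by linarith [h'.1])
    · exact h (by linarith [h'.1, h'.2.2.2])
  · linarith [h'.1]

/-- the base point -/
private noncomputable def PP : TC := ⟨(3/2, -1/4, 0), n0 _ _ (by norm_num) (by norm_num)
  (by left; norm_num)⟩

/-- second point -/
private noncomputable def QQ : TC := ⟨(3/2, 1/4, 0), n0 _ _ (by norm_num) (by norm_num)
  (by left; norm_num)⟩

/-- third point -/
private noncomputable def RR : TC := ⟨(1, -1/4, 0), n1 _ _ (by norm_num) (by norm_num)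
  (by left; norm_num)⟩

/-- path under the first strand -/
private noncomputable def g1 : Path PP QQ where
  toFun t := ⟨(3/2, -1/4 + (t : ℝ) / 2, -16 * ((t : ℝ) * (1 - t))),
    n0 _ _ (by linarith [t.2.1]) (by linarith [t.2.2]) (by
    by_cases h : (t : ℝ) = 1/2
    · right; rw [h]; norm_num
    · left; intro h'; apply h; linarith)⟩
  continuous_toFun := by fun_prop
  source' := by
    apply Subtype.ext
    simp [PP]
  target' := by
    apply Subtype.ext
    simp [QQ]
    norm_num

/-- path back over the first strand -/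
private noncomputable def g2 : Path QQ PP where
  toFun t := ⟨(3/2, 1/4 - (t : ℝ) / 2, 0),
    n0 _ _ (by linarith [t.2.2]) (by linarith [t.2.1]) (by right; norm_num)⟩
  continuous_toFun := by fun_prop
  source' := by
    apply Subtype.ext
    simp [QQ]
  target' := by
    apply Subtype.ext
    simp [PP]
    norm_num

/-- path under the second strand -/
private noncomputable def g3 : Path PP RR where
  toFun t := ⟨(3/2 - (t : ℝ) / 2, -1/4, 0), n1 _ _ (by linarith [t.2.2]) (by linarith [t.2.1])
    (by right; norm_num)⟩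
  continuous_toFun := by fun_prop
  source' := by
    apply Subtype.ext
    simp [PP]
  target' := by
    apply Subtype.ext
    simp [RR]
    norm_num

/-- path back over the second strand -/
private noncomputable def g4 : Path RR PP where
  toFun t := ⟨(1 + (t : ℝ) / 2, -1/4, 16 * ((t : ℝ) * (1 - t))),
    n1 _ _ (by linarith [t.2.1]) (by linarith [t.2.2]) (by
    by_cases h : (t : ℝ) = 1/2
    · right; rw [h]; norm_num
    · left; intro h'; apply h; linarith)⟩
  continuous_toFun := by fun_prop
  source' := by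
    apply Subtype.ext
    simp [RR]
  target' := by
    apply Subtype.ext
    simp [PP]
    norm_num

private theorem g1_mem (t : unitInterval) : g1 t ∈ BS 1 := by
  show (_ ∧ _)
  have ht0 := t.2.1
  have ht1 := t.2.2
  simp only [g1, Path.coe_mk_mk, ne_eq]
  refine ⟨?_, ?_, ?_, ?_, ?_, ?_⟩
  · by_cases h : (t : ℝ) = 1/2
    · right; right; right; rw [h]; norm_num
    · left; intro h'; apply h; linarith
  · left; intro h; linarith
  · left; norm_num
  · left; intro h; linarith
  · left; intro h; linarith
  · left; norm_num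

private theorem g2_mem (t : unitInterval) : g2 t ∈ BS 0 := by
  show (_ ∧ _)
  have ht0 := t.2.1
  have ht1 := t.2.2
  simp only [g2, Path.coe_mk_mk, ne_eq]
  refine ⟨?_, ?_, ?_, ?_, ?_, ?_⟩
  · right; right; right; norm_num
  · left; intro h; linarith
  · left; norm_num
  · left; intro h; linarith
  · left; intro h; linarith
  · left; norm_num

private theorem g3_mem (t : unitInterval) : g3 t ∈ BS 1 := by
  show (_ ∧ _)
  have ht0 := t.2.1
  have ht1 := t.2.2
  simp only [g3, Path.coe_mk_mk, ne_eq]
  refine ⟨?_, ?_, ?_, ?_, ?_, ?_⟩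
  · left; norm_num
  · left; intro h; linarith
  · left; intro h; linarith
  · left; norm_num
  · right; right; right; linarith
  · left; intro h; linarith

private theorem g4_mem (t : unitInterval) : g4 t ∈ BS 0 := by
  show (_ ∧ _)
  have ht0 := t.2.1
  have ht1 := t.2.2
  simp only [g4, Path.coe_mk_mk, ne_eq]
  refine ⟨?_, ?_, ?_, ?_, ?_, ?_⟩
  · left; norm_num
  · left; intro h; linarith
  · left; intro h; linarith
  · left; norm_num
  · by_cases h : (t : ℝ) = 1/2
    · right; right; right; rw [h]; norm_num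
    · left; intro h'; apply h; linarith
  · left; intro h; linarith

/-- **NCT**: the group of the complement of the hexagonal trefoil is not commutative. -/
theorem pNCT (hO : OPN) (hC : COV) (hL : LOC) : NCT := by
  let α : FundamentalGroup TC PP :=
    (Path.Homotopic.Quotient.mk g1).trans (Path.Homotopic.Quotient.mk g2)
  let β : FundamentalGroup TC PP :=
    (Path.Homotopic.Quotient.mk g3).trans (Path.Homotopic.Quotient.mk g4)
  refine ⟨PP, α, β, ?_⟩
  intro hcomm
  obtain ⟨idx0, idx0_mem⟩ : ∃ idx0 : TC → Fin 5, ∀ p, p ∈ BS (idx0 p) :=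
    ⟨fun p => Classical.choose (hC p), fun p => Classical.choose_spec (hC p)⟩
  have hc : ∀ i j, ∀ x ∈ BS i ∩ BS j, ∀ᶠ y in 𝓝 x,
    cc j y * (cc i y)⁻¹ = cc j x * (cc i x)⁻¹ := hL
  have BS_open : ∀ i, IsOpen (BS i) := hO
  let cov := isCov BS BS_open idx0 idx0_mem cc hc
  let L := lab BS BS_open idx0 idx0_mem cc hc PP
  have hα : ∀ t, cov.monodromyPerm PP α (L t) = L (pa t) := by
    intro t
    show cov.monodromy ((Path.Homotopic.Quotient.mk g1).trans (Path.Homotopic.Quotient.mk g2)) (L t)
      = L (pa t)
    rw [cov.monodromy_trans_apply]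
    have h1 := mono_chart BS BS_open idx0 idx0_mem cc hc 1 g1 g1_mem t
    have h2 := mono_chart BS BS_open idx0 idx0_mem cc hc 0 g2 g2_mem ((cc 1 QQ)⁻¹ (cc 1 PP t))
    have h3 := (congrArg (cov.monodromy (Path.Homotopic.Quotient.mk g2)) h1).trans h2
    refine h3.trans ?_
    refine congrArg L ?_
    have e1 : cc 1 PP = 1 := by
      show gg (3/2) (-1/4) = 1
      unfold gg
      norm_num
    have e2 : cc 1 QQ = pa := by
      show gg (3/2) (1/4) = pa
      unfold gg
      norm_num
    have e3 : cc 0 PP = 1 := rfl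
    have e4 : cc 0 QQ = 1 := rfl
    rw [e1, e2, e3, e4]
    simp
  have hβ : ∀ t, cov.monodromyPerm PP β (L t) = L (pb t) := by
    intro t
    show cov.monodromy ((Path.Homotopic.Quotient.mk g3).trans (Path.Homotopic.Quotient.mk g4)) (L t)
      = L (pb t)
    rw [cov.monodromy_trans_apply]
    have h1 := mono_chart BS BS_open idx0 idx0_mem cc hc 1 g3 g3_mem t
    have h2 := mono_chart BS BS_open idx0 idx0_mem cc hc 0 g4 g4_mem ((cc 1 RR)⁻¹ (cc 1 PP t))
    have h3 := (congrArg (cov.monodromy (Path.Homotopic.Quotient.mk g4)) h1).trans h2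
    refine h3.trans ?_
    refine congrArg L ?_
    have e1 : cc 1 PP = 1 := by
      show gg (3/2) (-1/4) = 1
      unfold gg
      norm_num
    have e2 : cc 1 RR = pb := by
      show gg 1 (-1/4) = pb
      unfold gg
      norm_num
    have e3 : cc 0 PP = 1 := rfl
    have e4 : cc 0 RR = 1 := rfl
    rw [e1, e2, e3, e4]
    simp
  have h := congrArg (fun γ => cov.monodromyPerm PP γ (L 0)) hcomm
  simp only [map_mul, Equiv.Perm.mul_apply] at h
  rw [hβ, hα, hα, hβ] at h
  have h' := lab_inj BS BS_open idx0 idx0_mem cc hc PP h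
  revert h'
  decide

end Pool.Agent.H238.HK
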