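import Pool.Agent.H238.HK.Stm

set_option autoImplicit false

open Topology Set Filter

namespace Pool.Agent.H238.HK

open Pool.Agent.H223.MB (V trace Embedded AmbientIsotopic circ edge)

private theorem seg_iff (a0 a1 a2 b0 b1 b2 : ℝ) (v : V) :
    v ∈ segment ℝ (!₂[a0, a1, a2] : V) !₂[b0, b1, b2] ↔ ∃ t : ℝ, 0 ≤ t ∧ t ≤ 1 ∧
      v 0 = (1 - t) * a0 + t * b0 ∧ v 1 = (1 - t) * a1 + t * b1 ∧
      v 2 = (1 - t) * a2 + t * b2 := by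
  rw [segment_eq_image]
  constructor
  · rintro ⟨t, ⟨h0, h1⟩, rfl⟩
    refine ⟨t, h0, h1, ?_, ?_, ?_⟩ <;> simp
  · rintro ⟨t, h0, h1, hx, hy, hz⟩
    refine ⟨t, ⟨h0, h1⟩, ?_⟩
    ext i
    fin_cases i
    · simpa using hx.symm
    · simpa using hy.symm
    · simpa using hz.symm

theorem pTRP : TRP := by
  intro v
  have e0 : v ∈ edge P0 0 ↔ _ := seg_iff (-1) 0 3 2 0 (-3) v
  have e1 : v ∈ edge P0 1 ↔ _ := seg_iff 2 0 (-3) 0 2 3 v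
  have e2 : v ∈ edge P0 2 ↔ _ := seg_iff 0 2 3 0 (-1) (-3) v
  have e3 : v ∈ edge P0 3 ↔ _ := seg_iff 0 (-1) (-3) 2 (-1) 3 v
  have e4 : v ∈ edge P0 4 ↔ _ := seg_iff 2 (-1) 3 (-1) 2 (-3) v
  have e5 : v ∈ edge P0 5 ↔ _ := seg_iff (-1) 2 (-3) (-1) 0 3 v
  have hT : (v 0, v 1, v 2) ∈ TK ↔
      ((v 1 = 0 ∧ -1 ≤ v 0 ∧ v 0 ≤ 2 ∧ v 2 = 1 - 2 * v 0) ∨
       (v 0 + v 1 = 2 ∧ 0 ≤ v 0 ∧ 0 ≤ v 1 ∧ v 2 = 3 * v 1 - 3) ∨
       (v 0 = 0 ∧ -1 ≤ v 1 ∧ v 1 ≤ 2 ∧ v 2 = 2 * v 1 - 1) ∨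
       (v 1 = -1 ∧ 0 ≤ v 0 ∧ v 0 ≤ 2 ∧ v 2 = 3 * v 0 - 3) ∨
       (v 0 + v 1 = 1 ∧ -1 ≤ v 0 ∧ v 0 ≤ 2 ∧ v 2 = 2 * v 0 - 1) ∨
       (v 0 = -1 ∧ 0 ≤ v 1 ∧ v 1 ≤ 2 ∧ v 2 = 3 - 3 * v 1)) := Iff.rfl
  rw [hT]
  unfold trace
  rw [mem_iUnion]
  constructor
  · rintro ⟨i, hi⟩
    fin_cases i
    · obtain ⟨t, h0, h1, hx, hy, hz⟩ := e0.1 hi
      exact Or.inl ⟨by linarith, by linarith, by linarith, by linarith⟩
    · obtain ⟨t, h0, h1, hx, hy, hz⟩ := e1.1 hi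
      exact Or.inr (Or.inl ⟨by linarith, by linarith, by linarith, by linarith⟩)
    · obtain ⟨t, h0, h1, hx, hy, hz⟩ := e2.1 hi
      exact Or.inr (Or.inr (Or.inl ⟨by linarith, by linarith, by linarith, by linarith⟩))
    · obtain ⟨t, h0, h1, hx, hy, hz⟩ := e3.1 hi
      exact Or.inr (Or.inr (Or.inr (Or.inl ⟨by linarith, by linarith, by linarith, by linarith⟩)))
    · obtain ⟨t, h0, h1, hx, hy, hz⟩ := e4.1 hi
      exact Or.inr (Or.inr (Or.inr (Or.inr (Or.inl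
        ⟨by linarith, by linarith, by linarith, by linarith⟩))))
    · obtain ⟨t, h0, h1, hx, hy, hz⟩ := e5.1 hi
      exact Or.inr (Or.inr (Or.inr (Or.inr (Or.inr
        ⟨by linarith, by linarith, by linarith, by linarith⟩))))
  · rintro (⟨h1, h2, h3, h4⟩ | ⟨h1, h2, h3, h4⟩ | ⟨h1, h2, h3, h4⟩ | ⟨h1, h2, h3, h4⟩ |
      ⟨h1, h2, h3, h4⟩ | ⟨h1, h2, h3, h4⟩)
    · exact ⟨0, e0.2 ⟨(v 0 + 1) / 3, by linarith, by linarith, by linarith, by linarith,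
        by linarith⟩⟩
    · exact ⟨1, e1.2 ⟨v 1 / 2, by linarith, by linarith, by linarith, by linarith,
        by linarith⟩⟩
    · exact ⟨2, e2.2 ⟨(2 - v 1) / 3, by linarith, by linarith, by linarith, by linarith,
        by linarith⟩⟩
    · exact ⟨3, e3.2 ⟨v 0 / 2, by linarith, by linarith, by linarith, by linarith,
        by linarith⟩⟩
    · exact ⟨4, e4.2 ⟨(2 - v 0) / 3, by linarith, by linarith, by linarith, by linarith,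
        by linarith⟩⟩
    · exact ⟨5, e5.2 ⟨(2 - v 1) / 2, by linarith, by linarith, by linarith, by linarith,
        by linarith⟩⟩

end Pool.Agent.H238.HK
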