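import Pool.Agent.H238.HK.Stm

/-!
# The trace of the regular hexagon (statement `TRQ`)
-/

set_option autoImplicit false

open Topology Set Filter

namespace Pool.Agent.H238.HK

open Pool.Agent.Helper22.LC (core isCov lab lab_inj mono_chart Pers pers_ev ite_ev ite_ev')
open Pool.Agent.H223.MB (V trace Embedded AmbientIsotopic circ edge)

private lemma s3 : (0:ℝ) < √3 := Real.sqrt_pos.2 (by norm_num)

private lemma ff_iff (x u : ℝ) :
    ff x (√3 * u) = √3 ↔ max (max |x + u| |x - u|) (2 * |u|) = 1 := by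
  have hs := s3
  have : ff x (√3 * u) = √3 * max (max |x + u| |x - u|) (2 * |u|) := by
    unfold ff
    rw [← mul_add, ← mul_sub, abs_mul, abs_mul, abs_mul, abs_of_pos hs,
      mul_max_of_nonneg _ _ hs.le, mul_max_of_nonneg _ _ hs.le]
    congr 1
    ring
  rw [this]
  constructor
  · intro h
    exact mul_left_cancel₀ hs.ne' (by rw [h, mul_one])
  · intro h
    rw [h, mul_one]

private lemma maxone {A B C : ℝ} (hA : A ≤ 1) (hB : B ≤ 1) (hC : C ≤ 1)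
    (h : A = 1 ∨ B = 1 ∨ C = 1) : max (max A B) C = 1 := by
  rcases h with h | h | h
  · subst h
    rw [max_eq_left hB, max_eq_left hC]
  · subst h
    rw [max_eq_right hA, max_eq_left hC]
  · subst h
    rw [max_eq_right (max_le hA hB)]

private lemma seg_iff (v : V) (a b a' b' : ℝ) :
    v ∈ segment ℝ (!₂[a, √3 * b, 0] : V) !₂[a', √3 * b', 0] ↔
      v 2 = 0 ∧ ∃ t : ℝ, 0 ≤ t ∧ t ≤ 1 ∧ v 0 = a + t * (a' - a) ∧
        v 1 = √3 * (b + t * (b' - b)) := by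
  rw [segment_eq_image']
  constructor
  · rintro ⟨t, ⟨h0, h1⟩, rfl⟩
    refine ⟨by simp, t, h0, h1, by simp, ?_⟩
    simp
    ring
  · rintro ⟨h2, t, h0, h1, e0, e1⟩
    refine ⟨t, ⟨h0, h1⟩, ?_⟩
    ext j
    fin_cases j
    · simp [e0]
    · simp [e1]
      ring
    · simp [h2]

private lemma circ_eq (θ : Fin 6 → ℝ) (i : Fin 6) :
    circ 0 1 (EuclideanSpace.single 0 1) (EuclideanSpace.single 1 1) θ i =
      !₂[Real.cos (θ i), Real.sin (θ i), 0] := by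
  unfold circ
  ext j
  fin_cases j <;> simp

private lemma cs0 : Real.cos (0 * (Real.pi / 3)) = 1 ∧ Real.sin (0 * (Real.pi / 3)) = √3 * 0 := by
  simp

private lemma cs1 : Real.cos (1 * (Real.pi / 3)) = 1 / 2 ∧
    Real.sin (1 * (Real.pi / 3)) = √3 * (1 / 2) := by
  rw [one_mul, Real.cos_pi_div_three, Real.sin_pi_div_three]
  exact ⟨rfl, by ring⟩

private lemma cs2 : Real.cos (2 * (Real.pi / 3)) = -1 / 2 ∧
    Real.sin (2 * (Real.pi / 3)) = √3 * (1 / 2) := by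
  rw [Real.cos_two_mul, Real.sin_two_mul, Real.cos_pi_div_three, Real.sin_pi_div_three]
  exact ⟨by norm_num, by ring⟩

private lemma cs3 : Real.cos (3 * (Real.pi / 3)) = -1 ∧
    Real.sin (3 * (Real.pi / 3)) = √3 * 0 := by
  have : 3 * (Real.pi / 3) = Real.pi := by ring
  rw [this, Real.cos_pi, Real.sin_pi]
  exact ⟨rfl, by ring⟩

private lemma cs4 : Real.cos (4 * (Real.pi / 3)) = -1 / 2 ∧
    Real.sin (4 * (Real.pi / 3)) = √3 * (-1 / 2) := by
  have : 4 * (Real.pi / 3) = Real.pi / 3 + Real.pi := by ring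
  rw [this, Real.cos_add_pi, Real.sin_add_pi, Real.cos_pi_div_three, Real.sin_pi_div_three]
  exact ⟨by norm_num, by ring⟩

private lemma cs5 : Real.cos (5 * (Real.pi / 3)) = 1 / 2 ∧
    Real.sin (5 * (Real.pi / 3)) = √3 * (-1 / 2) := by
  have : 5 * (Real.pi / 3) = 2 * Real.pi - Real.pi / 3 := by ring
  rw [this, Real.cos_two_pi_sub, Real.sin_two_pi_sub, Real.cos_pi_div_three,
    Real.sin_pi_div_three]
  exact ⟨rfl, by ring⟩

private lemma v0 : Q0 0 = !₂[1, √3 * 0, 0] := by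
  have h := circ_eq (fun i => (i : ℝ) * (Real.pi / 3)) 0
  have e : (((0 : Fin 6) : ℕ) : ℝ) = 0 := by norm_num
  simp only [e] at h
  rw [cs0.1, cs0.2] at h
  exact h

private lemma v1 : Q0 1 = !₂[1 / 2, √3 * (1 / 2), 0] := by
  have h := circ_eq (fun i => (i : ℝ) * (Real.pi / 3)) 1
  have e : (((1 : Fin 6) : ℕ) : ℝ) = 1 := by norm_num
  simp only [e] at h
  rw [cs1.1, cs1.2] at h
  exact h

private lemma v2 : Q0 2 = !₂[-1 / 2, √3 * (1 / 2), 0] := by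
  have h := circ_eq (fun i => (i : ℝ) * (Real.pi / 3)) 2
  have e : (((2 : Fin 6) : ℕ) : ℝ) = 2 := by norm_num
  simp only [e] at h
  rw [cs2.1, cs2.2] at h
  exact h

private lemma v3 : Q0 3 = !₂[-1, √3 * 0, 0] := by
  have h := circ_eq (fun i => (i : ℝ) * (Real.pi / 3)) 3
  have e : (((3 : Fin 6) : ℕ) : ℝ) = 3 := by norm_num
  simp only [e] at h
  rw [cs3.1, cs3.2] at h
  exact h

private lemma v4 : Q0 4 = !₂[-1 / 2, √3 * (-1 / 2), 0] := by
  have h := circ_eq (fun i => (i : ℝ) * (Real.pi / 3)) 4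
  have e : (((4 : Fin 6) : ℕ) : ℝ) = 4 := by norm_num
  simp only [e] at h
  rw [cs4.1, cs4.2] at h
  exact h

private lemma v5 : Q0 5 = !₂[1 / 2, √3 * (-1 / 2), 0] := by
  have h := circ_eq (fun i => (i : ℝ) * (Real.pi / 3)) 5
  have e : (((5 : Fin 6) : ℕ) : ℝ) = 5 := by norm_num
  simp only [e] at h
  rw [cs5.1, cs5.2] at h
  exact h

private lemma cancel {u w : ℝ} : √3 * u = √3 * w ↔ u = w :=
  ⟨fun h => mul_left_cancel₀ s3.ne' h, fun h => by rw [h]⟩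

private lemma hexf {x u a b a' b' t : ℝ} (h0 : 0 ≤ t) (h1 : t ≤ 1) (hx : x = a + t * (a' - a))
    (hu : u = b + t * (b' - b))
    (h : (a = 1 ∧ b = 0 ∧ a' = 1 / 2 ∧ b' = 1 / 2) ∨ (a = 1 / 2 ∧ b = 1 / 2 ∧ a' = -1 / 2 ∧ b' = 1 / 2) ∨
      (a = -1 / 2 ∧ b = 1 / 2 ∧ a' = -1 ∧ b' = 0) ∨ (a = -1 ∧ b = 0 ∧ a' = -1 / 2 ∧ b' = -1 / 2) ∨
      (a = -1 / 2 ∧ b = -1 / 2 ∧ a' = 1 / 2 ∧ b' = -1 / 2) ∨
      (a = 1 / 2 ∧ b = -1 / 2 ∧ a' = 1 ∧ b' = 0)) :
    max (max |x + u| |x - u|) (2 * |u|) = 1 := by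
  have hA : ∀ y : ℝ, -1 ≤ y → y ≤ 1 → |y| ≤ 1 := fun y h1 h2 => abs_le.2 ⟨h1, h2⟩
  have hC : ∀ y : ℝ, -1 ≤ 2 * y → 2 * y ≤ 1 → 2 * |y| ≤ 1 := fun y h1 h2 => by
    have := abs_le.2 ⟨h1, h2⟩
    rwa [abs_mul, abs_two] at this
  have e1 : ∀ y : ℝ, y = 1 ∨ y = -1 → |y| = 1 := by
    rintro y (rfl | rfl) <;> simp
  have e2 : ∀ y : ℝ, 2 * y = 1 ∨ 2 * y = -1 → 2 * |y| = 1 := by
    intro y hy
    have := e1 (2 * y) hy
    rwa [abs_mul, abs_two] at this
  rcases h with h | h | h | h | h | h <;> obtain ⟨rfl, rfl, rfl, rfl⟩ := h <;> subst hx hu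
  · exact maxone (hA _ (by linarith) (by linarith)) (hA _ (by linarith) (by linarith))
      (hC _ (by linarith) (by linarith)) (Or.inl (e1 _ (Or.inl (by ring))))
  · exact maxone (hA _ (by linarith) (by linarith)) (hA _ (by linarith) (by linarith))
      (hC _ (by linarith) (by linarith)) (Or.inr (Or.inr (e2 _ (Or.inl (by ring)))))
  · exact maxone (hA _ (by linarith) (by linarith)) (hA _ (by linarith) (by linarith))
      (hC _ (by linarith) (by linarith)) (Or.inr (Or.inl (e1 _ (Or.inr (by ring)))))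
  · exact maxone (hA _ (by linarith) (by linarith)) (hA _ (by linarith) (by linarith))
      (hC _ (by linarith) (by linarith)) (Or.inl (e1 _ (Or.inr (by ring))))
  · exact maxone (hA _ (by linarith) (by linarith)) (hA _ (by linarith) (by linarith))
      (hC _ (by linarith) (by linarith)) (Or.inr (Or.inr (e2 _ (Or.inr (by ring)))))
  · exact maxone (hA _ (by linarith) (by linarith)) (hA _ (by linarith) (by linarith))
      (hC _ (by linarith) (by linarith)) (Or.inr (Or.inl (e1 _ (Or.inl (by ring)))))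

private lemma hexb {x u : ℝ} (h : max (max |x + u| |x - u|) (2 * |u|) = 1) :
    (-1 ≤ x + u ∧ x + u ≤ 1) ∧ (-1 ≤ x - u ∧ x - u ≤ 1) ∧ (-1 ≤ 2 * u ∧ 2 * u ≤ 1) ∧
      (x + u = 1 ∨ x + u = -1 ∨ x - u = 1 ∨ x - u = -1 ∨ 2 * u = 1 ∨ 2 * u = -1) := by
  have h2 : 2 * |u| = |2 * u| := by rw [abs_mul, abs_two]
  rw [h2] at h
  have b1 : |x + u| ≤ 1 := h ▸ (le_max_left _ _).trans (le_max_left _ _)
  have b2 : |x - u| ≤ 1 := h ▸ (le_max_right _ _).trans (le_max_left _ _)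
  have b3 : |2 * u| ≤ 1 := h ▸ le_max_right _ _
  refine ⟨abs_le.1 b1, abs_le.1 b2, abs_le.1 b3, ?_⟩
  by_contra hc
  push Not at hc
  obtain ⟨c1, c2, c3, c4, c5, c6⟩ := hc
  have l1 : |x + u| < 1 := lt_of_le_of_ne b1 (fun e => by
    rcases (abs_eq (by norm_num)).1 e with e | e
    · exact c1 e
    · exact c2 e)
  have l2 : |x - u| < 1 := lt_of_le_of_ne b2 (fun e => by
    rcases (abs_eq (by norm_num)).1 e with e | e
    · exact c3 e
    · exact c4 e)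
  have l3 : |2 * u| < 1 := lt_of_le_of_ne b3 (fun e => by
    rcases (abs_eq (by norm_num)).1 e with e | e
    · exact c5 e
    · exact c6 e)
  exact (max_lt (max_lt l1 l2) l3).ne h

/-- the trace of the regular hexagon -/
theorem pTRQ : TRQ := by
  intro v
  have key : (v 0, v 1, v 2) ∈ RK ↔ v 2 = 0 ∧ ff (v 0) (v 1) = √3 := Iff.rfl
  obtain ⟨u, hu⟩ : ∃ u, v 1 = √3 * u := ⟨v 1 / √3, by rw [mul_div_cancel₀ _ s3.ne']⟩
  rw [key, hu, ff_iff]
  have g0 : (0 : Fin 6) + 1 = 1 := rfl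
  have g1 : (1 : Fin 6) + 1 = 2 := rfl
  have g2 : (2 : Fin 6) + 1 = 3 := rfl
  have g3 : (3 : Fin 6) + 1 = 4 := rfl
  have g4 : (4 : Fin 6) + 1 = 5 := rfl
  have g5 : (5 : Fin 6) + 1 = 0 := rfl
  unfold trace
  rw [mem_iUnion]
  constructor
  · rintro ⟨i, hi⟩
    unfold edge at hi
    fin_cases i
    · change v ∈ segment ℝ (Q0 0) (Q0 1) at hi
      rw [v0, v1, seg_iff, hu] at hi
      obtain ⟨h2, t, h0, h1, e0, e1⟩ := hi
      exact ⟨h2, hexf h0 h1 e0 (cancel.1 e1) (by norm_num)⟩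
    · change v ∈ segment ℝ (Q0 1) (Q0 2) at hi
      rw [v1, v2, seg_iff, hu] at hi
      obtain ⟨h2, t, h0, h1, e0, e1⟩ := hi
      exact ⟨h2, hexf h0 h1 e0 (cancel.1 e1) (by norm_num)⟩
    · change v ∈ segment ℝ (Q0 2) (Q0 3) at hi
      rw [v2, v3, seg_iff, hu] at hi
      obtain ⟨h2, t, h0, h1, e0, e1⟩ := hi
      exact ⟨h2, hexf h0 h1 e0 (cancel.1 e1) (by norm_num)⟩
    · change v ∈ segment ℝ (Q0 3) (Q0 4) at hi
      rw [v3, v4, seg_iff, hu] at hi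
      obtain ⟨h2, t, h0, h1, e0, e1⟩ := hi
      exact ⟨h2, hexf h0 h1 e0 (cancel.1 e1) (by norm_num)⟩
    · change v ∈ segment ℝ (Q0 4) (Q0 5) at hi
      rw [v4, v5, seg_iff, hu] at hi
      obtain ⟨h2, t, h0, h1, e0, e1⟩ := hi
      exact ⟨h2, hexf h0 h1 e0 (cancel.1 e1) (by norm_num)⟩
    · change v ∈ segment ℝ (Q0 5) (Q0 0) at hi
      rw [v5, v0, seg_iff, hu] at hi
      obtain ⟨h2, t, h0, h1, e0, e1⟩ := hi
      exact ⟨h2, hexf h0 h1 e0 (cancel.1 e1) (by norm_num)⟩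
  · rintro ⟨h2, hm⟩
    obtain ⟨⟨a1, a2⟩, ⟨b1, b2⟩, ⟨c1, c2⟩, h⟩ := hexb hm
    rcases h with h | h | h | h | h | h
    · refine ⟨0, ?_⟩
      show v ∈ segment ℝ (Q0 0) (Q0 1)
      rw [v0, v1, seg_iff, hu]
      exact ⟨h2, 2 * u, by linarith, by linarith, by linarith, cancel.2 (by linarith)⟩
    · refine ⟨3, ?_⟩
      show v ∈ segment ℝ (Q0 3) (Q0 4)
      rw [v3, v4, seg_iff, hu]
      exact ⟨h2, -(2 * u), by linarith, by linarith, by linarith, cancel.2 (by linarith)⟩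
    · refine ⟨5, ?_⟩
      show v ∈ segment ℝ (Q0 5) (Q0 0)
      rw [v5, v0, seg_iff, hu]
      exact ⟨h2, 1 + 2 * u, by linarith, by linarith, by linarith, cancel.2 (by linarith)⟩
    · refine ⟨2, ?_⟩
      show v ∈ segment ℝ (Q0 2) (Q0 3)
      rw [v2, v3, seg_iff, hu]
      exact ⟨h2, 1 - 2 * u, by linarith, by linarith, by linarith, cancel.2 (by linarith)⟩
    · refine ⟨1, ?_⟩
      show v ∈ segment ℝ (Q0 1) (Q0 2)
      rw [v1, v2, seg_iff, hu]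
      exact ⟨h2, 1 / 2 - v 0, by linarith, by linarith, by ring, cancel.2 (by linarith)⟩
    · refine ⟨4, ?_⟩
      show v ∈ segment ℝ (Q0 4) (Q0 5)
      rw [v4, v5, seg_iff, hu]
      exact ⟨h2, v 0 + 1 / 2, by linarith, by linarith, by ring, cancel.2 (by linarith)⟩

end Pool.Agent.H238.HK
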