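import Pool.Agent.H238.HK.OPNb
import Pool.Agent.H238.HK.COV
import Pool.Agent.H238.HK.GUV
import Pool.Agent.H238.HK.BOX
import Pool.Agent.H238.HK.LOC
import Pool.Agent.H238.HK.NCT
import Pool.Agent.H238.HK.GEN
import Pool.Agent.H238.HK.BAS
import Pool.Agent.H238.HK.RASb
import Pool.Agent.H238.HK.RBS
import Pool.Agent.H238.HK.RIOc
import Pool.Agent.H238.HK.ROO
import Pool.Agent.H238.HK.CRC
import Pool.Agent.H238.HK.TRPb
import Pool.Agent.H238.HK.TRQc
import Pool.Agent.H238.HK.EMBb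
import Pool.Agent.H238.HK.KNOT

namespace Pool.Agent.H238.HK
theorem allKNOT : KNOT := pKNOT (pNCT pOPN pCOV (pLOC pOPN pGUV pBOX)) (pCRC pGEN pBAS pRAS pRBS pRIO pROO) pTRP pTRQ
theorem allEMB : EMB := pEMB
end Pool.Agent.H238.HK
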