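import Pool.Agent.H238.HK.Defs

/-!
# The face labels at the crossings of the hexagonal trefoil (helper668)
-/

set_option autoImplicit false

open Topology Set Filter

namespace Pool.Agent.H238.HK

open Pool.Agent.Helper22.LC (core isCov lab lab_inj mono_chart Pers pers_ev ite_ev ite_ev')

private theorem box1 (x y : ℝ) (h1 : -1/4 < x) (h2 : x < 1/4) (h3 : -1/4 < y) (h4 : y < 1/4)
    (h5 : x ≠ 0) : gg x y * (if 0 ≤ y then 1 else pa * pb * pa)⁻¹ =
      if x < 0 then pa * pb * pa else pa * pb := by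
  unfold gg
  rcases lt_or_gt_of_ne h5 with hx | hx <;> rcases lt_or_ge y 0 with hy | hy
  · rw [if_neg (fun h => by linarith [h.1]), if_neg (fun h => by linarith [h.1]),
      if_neg (fun h => by linarith [h.2.2.1]), if_neg (fun h => by linarith [h.2.2.1]),
      if_neg (not_le.2 hy), if_pos hx]
    decide
  · rw [if_neg (fun h => by linarith [h.1]), if_neg (fun h => by linarith [h.1]),
      if_neg (fun h => by linarith [h.2.1]),
      if_pos ⟨by linarith, hx, hy, by linarith⟩, if_pos hy, if_pos hx]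
    decide
  · rw [if_neg (fun h => by linarith [h.2.1]), if_neg (fun h => by linarith [h.2.1]),
      if_pos ⟨by linarith, hy, hx, by linarith⟩, if_neg (not_le.2 hy), if_neg (not_lt.2 hx.le)]
    decide
  · rw [if_pos ⟨hx.le, hy, by linarith⟩, if_pos hy, if_neg (not_lt.2 hx.le)]
    decide

private theorem box2 (x y : ℝ) (h1 : 3/4 < x) (h2 : x < 5/4) (h3 : -1/4 < y) (h4 : y < 1/4)
    (h5 : y ≠ 0) : gg x y * (if x + y ≤ 1 then 1 else pb)⁻¹ =
      if y < 0 then pb else pa * pb := by
  unfold gg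
  rcases lt_or_gt_of_ne h5 with hy | hy <;> rcases lt_or_ge 1 (x + y) with hs | hs
  · rw [if_neg (fun h => by linarith [h.2.1]), if_neg (fun h => by linarith [h.2.1]),
      if_neg (fun h => by linarith [h.2.2.2]), if_neg (fun h => by linarith [h.2.1]),
      if_neg (not_le.2 hs), if_pos hy]
    decide
  · rw [if_neg (fun h => by linarith [h.2.1]), if_neg (fun h => by linarith [h.2.1]),
      if_pos ⟨by linarith, hy, by linarith, hs⟩, if_pos hs, if_pos hy]
    decide
  · rw [if_neg (fun h => by linarith [h.2.2]),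
      if_pos ⟨by linarith, hy.le, by linarith⟩, if_neg (not_le.2 hs), if_neg (not_lt.2 hy.le)]
    decide
  · rw [if_pos ⟨by linarith, hy.le, hs⟩, if_pos hs, if_neg (not_lt.2 hy.le)]
    decide

private theorem box3 (x y : ℝ) (h1 : -1/4 < x) (h2 : x < 1/4) (h3 : 3/4 < y) (h4 : y < 5/4)
    (h5 : x + y ≠ 1) : gg x y * (if 0 ≤ x then 1 else pa)⁻¹ =
      if 1 < x + y then pa else pa * pb := by
  unfold gg
  rcases lt_or_gt_of_ne h5 with hs | hs <;> rcases lt_or_ge x 0 with hx | hx
  · rw [if_neg (fun h => by linarith [h.1]), if_neg (fun h => by linarith [h.1]),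
      if_neg (fun h => by linarith [h.2.1]),
      if_pos ⟨by linarith, hx, by linarith, hs⟩, if_neg (not_le.2 hx), if_neg (not_lt.2 hs.le)]
    decide
  · rw [if_pos ⟨hx, by linarith, hs.le⟩, if_pos hx, if_neg (not_lt.2 hs.le)]
    decide
  · rw [if_neg (fun h => by linarith [h.1]), if_neg (fun h => by linarith [h.1]),
      if_neg (fun h => by linarith [h.2.1]), if_neg (fun h => by linarith [h.2.2.2]),
      if_neg (not_le.2 hx), if_pos hs]
    decide
  · rw [if_neg (fun h => by linarith [h.2.2]),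
      if_pos ⟨hx, by linarith, by linarith⟩, if_pos hx, if_pos hs]
    decide

/-- BOX -/
theorem pBOX : BOX :=
  ⟨fun x y h1 h2 h3 h4 h5 => box1 x y h1 h2 h3 h4 h5,
    fun x y h1 h2 h3 h4 h5 => box2 x y h1 h2 h3 h4 h5,
    fun x y h1 h2 h3 h4 h5 => box3 x y h1 h2 h3 h4 h5⟩

end Pool.Agent.H238.HK

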