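import Pool.Agent.H238.HK.Defs

set_option autoImplicit false

open Topology Set Filter

namespace Pool.Agent.H238.HK

open Pool.Agent.Helper22.LC (core isCov lab lab_inj mono_chart Pers pers_ev ite_ev ite_ev')

private theorem COVb_up (x y z : ℝ) (hp : ((x, y, z) : ℝ × ℝ × ℝ) ∉ TK)
    (h : (y = 0 ∧ -1 ≤ x ∧ x ≤ 2 ∧ z ≤ 1 - 2 * x) ∨
       (x + y = 2 ∧ 0 ≤ x ∧ 0 ≤ y ∧ z ≤ 3 * y - 3) ∨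
       (x = 0 ∧ -1 ≤ y ∧ y ≤ 2 ∧ z ≤ 2 * y - 1) ∨
       (y = -1 ∧ 0 ≤ x ∧ x ≤ 2 ∧ z ≤ 3 * x - 3) ∨
       (x + y = 1 ∧ -1 ≤ x ∧ x ≤ 2 ∧ z ≤ 2 * x - 1) ∨
       (x = -1 ∧ 0 ≤ y ∧ y ≤ 2 ∧ z ≤ 3 - 3 * y)) :
    (y = 0 ∧ -1 ≤ x ∧ x ≤ 2 ∧ z < 1 - 2 * x) ∨
       (x + y = 2 ∧ 0 ≤ x ∧ 0 ≤ y ∧ z < 3 * y - 3) ∨
       (x = 0 ∧ -1 ≤ y ∧ y ≤ 2 ∧ z < 2 * y - 1) ∨
       (y = -1 ∧ 0 ≤ x ∧ x ≤ 2 ∧ z < 3 * x - 3) ∨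
       (x + y = 1 ∧ -1 ≤ x ∧ x ≤ 2 ∧ z < 2 * x - 1) ∨
       (x = -1 ∧ 0 ≤ y ∧ y ≤ 2 ∧ z < 3 - 3 * y) := by
  rcases h with ⟨a, b, c, d⟩ | ⟨a, b, c, d⟩ | ⟨a, b, c, d⟩ | ⟨a, b, c, d⟩ | ⟨a, b, c, d⟩ | ⟨a, b, c, d⟩
  · exact Or.inl ⟨a, b, c, lt_of_le_of_ne d fun e => hp (Or.inl ⟨a, b, c, e⟩)⟩
  · exact Or.inr (Or.inl ⟨a, b, c, lt_of_le_of_ne d fun e => hp (Or.inr (Or.inl ⟨a, b, c, e⟩))⟩)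
  · exact Or.inr (Or.inr (Or.inl ⟨a, b, c, lt_of_le_of_ne d fun e =>
      hp (Or.inr (Or.inr (Or.inl ⟨a, b, c, e⟩)))⟩))
  · exact Or.inr (Or.inr (Or.inr (Or.inl ⟨a, b, c, lt_of_le_of_ne d fun e =>
      hp (Or.inr (Or.inr (Or.inr (Or.inl ⟨a, b, c, e⟩))))⟩)))
  · exact Or.inr (Or.inr (Or.inr (Or.inr (Or.inl ⟨a, b, c, lt_of_le_of_ne d fun e =>
      hp (Or.inr (Or.inr (Or.inr (Or.inr (Or.inl ⟨a, b, c, e⟩)))))⟩))))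
  · exact Or.inr (Or.inr (Or.inr (Or.inr (Or.inr ⟨a, b, c, lt_of_le_of_ne d fun e =>
      hp (Or.inr (Or.inr (Or.inr (Or.inr (Or.inr ⟨a, b, c, e⟩)))))⟩))))

private theorem COVb_dn (x y z : ℝ) (hp : ((x, y, z) : ℝ × ℝ × ℝ) ∉ TK)
    (h : (y = 0 ∧ -1 ≤ x ∧ x ≤ 2 ∧ 1 - 2 * x ≤ z) ∨
       (x + y = 2 ∧ 0 ≤ x ∧ 0 ≤ y ∧ 3 * y - 3 ≤ z) ∨
       (x = 0 ∧ -1 ≤ y ∧ y ≤ 2 ∧ 2 * y - 1 ≤ z) ∨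
       (y = -1 ∧ 0 ≤ x ∧ x ≤ 2 ∧ 3 * x - 3 ≤ z) ∨
       (x + y = 1 ∧ -1 ≤ x ∧ x ≤ 2 ∧ 2 * x - 1 ≤ z) ∨
       (x = -1 ∧ 0 ≤ y ∧ y ≤ 2 ∧ 3 - 3 * y ≤ z)) :
    (y = 0 ∧ -1 ≤ x ∧ x ≤ 2 ∧ 1 - 2 * x < z) ∨
       (x + y = 2 ∧ 0 ≤ x ∧ 0 ≤ y ∧ 3 * y - 3 < z) ∨
       (x = 0 ∧ -1 ≤ y ∧ y ≤ 2 ∧ 2 * y - 1 < z) ∨
       (y = -1 ∧ 0 ≤ x ∧ x ≤ 2 ∧ 3 * x - 3 < z) ∨
       (x + y = 1 ∧ -1 ≤ x ∧ x ≤ 2 ∧ 2 * x - 1 < z) ∨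
       (x = -1 ∧ 0 ≤ y ∧ y ≤ 2 ∧ 3 - 3 * y < z) := by
  rcases h with ⟨a, b, c, d⟩ | ⟨a, b, c, d⟩ | ⟨a, b, c, d⟩ | ⟨a, b, c, d⟩ | ⟨a, b, c, d⟩ | ⟨a, b, c, d⟩
  · exact Or.inl ⟨a, b, c, lt_of_le_of_ne d fun e => hp (Or.inl ⟨a, b, c, e.symm⟩)⟩
  · exact Or.inr (Or.inl ⟨a, b, c, lt_of_le_of_ne d fun e => hp (Or.inr (Or.inl ⟨a, b, c, e.symm⟩))⟩)
  · exact Or.inr (Or.inr (Or.inl ⟨a, b, c, lt_of_le_of_ne d fun e =>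
      hp (Or.inr (Or.inr (Or.inl ⟨a, b, c, e.symm⟩)))⟩))
  · exact Or.inr (Or.inr (Or.inr (Or.inl ⟨a, b, c, lt_of_le_of_ne d fun e =>
      hp (Or.inr (Or.inr (Or.inr (Or.inl ⟨a, b, c, e.symm⟩))))⟩)))
  · exact Or.inr (Or.inr (Or.inr (Or.inr (Or.inl ⟨a, b, c, lt_of_le_of_ne d fun e =>
      hp (Or.inr (Or.inr (Or.inr (Or.inr (Or.inl ⟨a, b, c, e.symm⟩)))))⟩))))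
  · exact Or.inr (Or.inr (Or.inr (Or.inr (Or.inr ⟨a, b, c, lt_of_le_of_ne d fun e =>
      hp (Or.inr (Or.inr (Or.inr (Or.inr (Or.inr ⟨a, b, c, e.symm⟩)))))⟩))))

private theorem COVb_main (x y z : ℝ)
    (h : (y = 0 ∧ -1 ≤ x ∧ x ≤ 2 ∧ z < 1 - 2 * x) ∨
       (x + y = 2 ∧ 0 ≤ x ∧ 0 ≤ y ∧ z < 3 * y - 3) ∨
       (x = 0 ∧ -1 ≤ y ∧ y ≤ 2 ∧ z < 2 * y - 1) ∨
       (y = -1 ∧ 0 ≤ x ∧ x ≤ 2 ∧ z < 3 * x - 3) ∨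
       (x + y = 1 ∧ -1 ≤ x ∧ x ≤ 2 ∧ z < 2 * x - 1) ∨
       (x = -1 ∧ 0 ≤ y ∧ y ≤ 2 ∧ z < 3 - 3 * y))
    (h' : (y = 0 ∧ -1 ≤ x ∧ x ≤ 2 ∧ 1 - 2 * x < z) ∨
       (x + y = 2 ∧ 0 ≤ x ∧ 0 ≤ y ∧ 3 * y - 3 < z) ∨
       (x = 0 ∧ -1 ≤ y ∧ y ≤ 2 ∧ 2 * y - 1 < z) ∨
       (y = -1 ∧ 0 ≤ x ∧ x ≤ 2 ∧ 3 * x - 3 < z) ∨
       (x + y = 1 ∧ -1 ≤ x ∧ x ≤ 2 ∧ 2 * x - 1 < z) ∨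
       (x = -1 ∧ 0 ≤ y ∧ y ≤ 2 ∧ 3 - 3 * y < z)) :
    (-1/4 < x ∧ x < 1/4 ∧ -1/4 < y ∧ y < 1/4 ∧ 2 * y - 1 < z ∧ z < 1 - 2 * x) ∨
    (3/4 < x ∧ x < 5/4 ∧ -1/4 < y ∧ y < 1/4 ∧ 1 - 2 * x < z ∧ z < 2 * x - 1) ∨
    (-1/4 < x ∧ x < 1/4 ∧ 3/4 < y ∧ y < 5/4 ∧ 2 * x - 1 < z ∧ z < 2 * y - 1) := by
  rcases h with ⟨a, b, c, d⟩ | ⟨a, b, c, d⟩ | ⟨a, b, c, d⟩ | ⟨a, b, c, d⟩ | ⟨a, b, c, d⟩ | ⟨a, b, c, d⟩ <;>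
  rcases h' with ⟨a', b', c', d'⟩ | ⟨a', b', c', d'⟩ | ⟨a', b', c', d'⟩ | ⟨a', b', c', d'⟩ |
    ⟨a', b', c', d'⟩ | ⟨a', b', c', d'⟩ <;>
  first
  | (exfalso; linarith)
  | exact Or.inl ⟨by linarith, by linarith, by linarith, by linarith, by linarith, by linarith⟩
  | exact Or.inr (Or.inl ⟨by linarith, by linarith, by linarith, by linarith, by linarith, by linarith⟩)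
  | exact Or.inr (Or.inr ⟨by linarith, by linarith, by linarith, by linarith, by linarith, by linarith⟩)

theorem pCOV : COV := by
  rintro ⟨⟨x, y, z⟩, hp⟩
  by_cases hU : (⟨(x, y, z), hp⟩ : TC) ∈ BU
  · exact ⟨0, hU⟩
  by_cases hV : (⟨(x, y, z), hp⟩ : TC) ∈ BV
  · exact ⟨1, hV⟩
  simp only [BU, mem_setOf_eq, not_and_or, not_or, not_lt, ne_eq, not_not] at hU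
  simp only [BV, mem_setOf_eq, not_and_or, not_or, not_lt, ne_eq, not_not] at hV
  rcases COVb_main x y z (COVb_up x y z hp hU) (COVb_dn x y z hp hV) with h | h | h
  · exact ⟨2, h⟩
  · exact ⟨3, h⟩
  · exact ⟨4, h⟩

end Pool.Agent.H238.HK
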