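import Pool.Agent.H238.HK.Defs

/-! The base sets cover the complement of the hexagonal trefoil. -/

set_option autoImplicit false

open Topology Set Filter

namespace Pool.Agent.H238.HK

open Pool.Agent.Helper22.LC (core isCov lab lab_inj mono_chart Pers pers_ev ite_ev ite_ev')

private theorem TK_intro {x y z : ℝ}
    (h : (y = 0 ∧ -1 ≤ x ∧ x ≤ 2 ∧ z = 1 - 2 * x) ∨
       (x + y = 2 ∧ 0 ≤ x ∧ 0 ≤ y ∧ z = 3 * y - 3) ∨
       (x = 0 ∧ -1 ≤ y ∧ y ≤ 2 ∧ z = 2 * y - 1) ∨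
       (y = -1 ∧ 0 ≤ x ∧ x ≤ 2 ∧ z = 3 * x - 3) ∨
       (x + y = 1 ∧ -1 ≤ x ∧ x ≤ 2 ∧ z = 2 * x - 1) ∨
       (x = -1 ∧ 0 ≤ y ∧ y ≤ 2 ∧ z = 3 - 3 * y)) : ((x, y, z) : ℝ × ℝ × ℝ) ∈ TK := h

theorem pCOV : COV := by
  intro p
  by_cases hU : p ∈ BU
  · exact ⟨0, hU⟩
  by_cases hV : p ∈ BV
  · exact ⟨1, hV⟩
  obtain ⟨⟨x, y, z⟩, hp⟩ := p
  have key : (-1/4 < x ∧ x < 1/4 ∧ -1/4 < y ∧ y < 1/4 ∧ 2 * y - 1 < z ∧ z < 1 - 2 * x) ∨
      (3/4 < x ∧ x < 5/4 ∧ -1/4 < y ∧ y < 1/4 ∧ 1 - 2 * x < z ∧ z < 2 * x - 1) ∨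
      (-1/4 < x ∧ x < 1/4 ∧ 3/4 < y ∧ y < 5/4 ∧ 2 * x - 1 < z ∧ z < 2 * y - 1) := by
    change ¬ (_ ∧ _) at hU
    change ¬ (_ ∧ _) at hV
    simp only [not_and_or, not_or, not_lt, ne_eq, not_not] at hU hV
    rcases hU with hU | hU | hU | hU | hU | hU <;>
    rcases hV with hV | hV | hV | hV | hV | hV
    all_goals (obtain ⟨u1, u2, u3, u4⟩ := hU; obtain ⟨v1, v2, v3, v4⟩ := hV)
    all_goals try (exfalso; linarith)
    all_goals try (exfalso; refine hp (TK_intro ?_); first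
      | (left; refine ⟨?_, ?_, ?_, ?_⟩ <;> linarith)
      | (right; left; refine ⟨?_, ?_, ?_, ?_⟩ <;> linarith)
      | (right; right; left; refine ⟨?_, ?_, ?_, ?_⟩ <;> linarith)
      | (right; right; right; left; refine ⟨?_, ?_, ?_, ?_⟩ <;> linarith)
      | (right; right; right; right; left; refine ⟨?_, ?_, ?_, ?_⟩ <;> linarith)
      | (right; right; right; right; right; refine ⟨?_, ?_, ?_, ?_⟩ <;> linarith))
    all_goals (rcases eq_or_lt_of_le u4 with e | e <;> rcases eq_or_lt_of_le v4 with e' | e')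
    all_goals try (exfalso; refine hp (TK_intro ?_); first
      | (left; refine ⟨?_, ?_, ?_, ?_⟩ <;> linarith)
      | (right; left; refine ⟨?_, ?_, ?_, ?_⟩ <;> linarith)
      | (right; right; left; refine ⟨?_, ?_, ?_, ?_⟩ <;> linarith)
      | (right; right; right; left; refine ⟨?_, ?_, ?_, ?_⟩ <;> linarith)
      | (right; right; right; right; left; refine ⟨?_, ?_, ?_, ?_⟩ <;> linarith)
      | (right; right; right; right; right; refine ⟨?_, ?_, ?_, ?_⟩ <;> linarith))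
    all_goals first
      | (left; refine ⟨?_, ?_, ?_, ?_, ?_, ?_⟩ <;> linarith)
      | (right; left; refine ⟨?_, ?_, ?_, ?_, ?_, ?_⟩ <;> linarith)
      | (right; right; refine ⟨?_, ?_, ?_, ?_, ?_, ?_⟩ <;> linarith)
  rcases key with h | h | h
  · exact ⟨2, h⟩
  · exact ⟨3, h⟩
  · exact ⟨4, h⟩

end Pool.Agent.H238.HK
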