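import Pool.Agent.H238.HK.Defs

/-!
# The base sets cover the complement of the hexagonal trefoil
-/

set_option autoImplicit false

open Topology Set Filter

namespace Pool.Agent.H238.HK

open Pool.Agent.Helper22.LC (core isCov lab lab_inj mono_chart Pers pers_ev ite_ev ite_ev')

private theorem cov_aux (x y z : ℝ)
    (h : ¬ ((y = 0 ∧ -1 ≤ x ∧ x ≤ 2 ∧ z = 1 - 2 * x) ∨
       (x + y = 2 ∧ 0 ≤ x ∧ 0 ≤ y ∧ z = 3 * y - 3) ∨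
       (x = 0 ∧ -1 ≤ y ∧ y ≤ 2 ∧ z = 2 * y - 1) ∨
       (y = -1 ∧ 0 ≤ x ∧ x ≤ 2 ∧ z = 3 * x - 3) ∨
       (x + y = 1 ∧ -1 ≤ x ∧ x ≤ 2 ∧ z = 2 * x - 1) ∨
       (x = -1 ∧ 0 ≤ y ∧ y ≤ 2 ∧ z = 3 - 3 * y)))
    (h0 : (y = 0 ∧ -1 ≤ x ∧ x ≤ 2 ∧ z ≤ 1 - 2 * x) ∨
       (x + y = 2 ∧ 0 ≤ x ∧ 0 ≤ y ∧ z ≤ 3 * y - 3) ∨
       (x = 0 ∧ -1 ≤ y ∧ y ≤ 2 ∧ z ≤ 2 * y - 1) ∨
       (y = -1 ∧ 0 ≤ x ∧ x ≤ 2 ∧ z ≤ 3 * x - 3) ∨
       (x + y = 1 ∧ -1 ≤ x ∧ x ≤ 2 ∧ z ≤ 2 * x - 1) ∨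
       (x = -1 ∧ 0 ≤ y ∧ y ≤ 2 ∧ z ≤ 3 - 3 * y))
    (h1 : (y = 0 ∧ -1 ≤ x ∧ x ≤ 2 ∧ 1 - 2 * x ≤ z) ∨
       (x + y = 2 ∧ 0 ≤ x ∧ 0 ≤ y ∧ 3 * y - 3 ≤ z) ∨
       (x = 0 ∧ -1 ≤ y ∧ y ≤ 2 ∧ 2 * y - 1 ≤ z) ∨
       (y = -1 ∧ 0 ≤ x ∧ x ≤ 2 ∧ 3 * x - 3 ≤ z) ∨
       (x + y = 1 ∧ -1 ≤ x ∧ x ≤ 2 ∧ 2 * x - 1 ≤ z) ∨
       (x = -1 ∧ 0 ≤ y ∧ y ≤ 2 ∧ 3 - 3 * y ≤ z)) :
    (-1/4 < x ∧ x < 1/4 ∧ -1/4 < y ∧ y < 1/4 ∧ 2 * y - 1 < z ∧ z < 1 - 2 * x) ∨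
    (3/4 < x ∧ x < 5/4 ∧ -1/4 < y ∧ y < 1/4 ∧ 1 - 2 * x < z ∧ z < 2 * x - 1) ∨
    (-1/4 < x ∧ x < 1/4 ∧ 3/4 < y ∧ y < 5/4 ∧ 2 * x - 1 < z ∧ z < 2 * y - 1) := by
  simp only [not_or] at h
  obtain ⟨n1, n2, n3, n4, n5, n6⟩ := h
  have m1 : y = 0 → -1 ≤ x → x ≤ 2 → z < 1 - 2 * x ∨ 1 - 2 * x < z := fun a b c =>
    lt_or_gt_of_ne fun d => n1 ⟨a, b, c, d⟩
  have m3 : x = 0 → -1 ≤ y → y ≤ 2 → z < 2 * y - 1 ∨ 2 * y - 1 < z := fun a b c =>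
    lt_or_gt_of_ne fun d => n3 ⟨a, b, c, d⟩
  have m5 : x + y = 1 → -1 ≤ x → x ≤ 2 → z < 2 * x - 1 ∨ 2 * x - 1 < z := fun a b c =>
    lt_or_gt_of_ne fun d => n5 ⟨a, b, c, d⟩
  rcases h0 with ⟨a1, a2, a3, a4⟩ | ⟨a1, a2, a3, a4⟩ | ⟨a1, a2, a3, a4⟩ | ⟨a1, a2, a3, a4⟩ |
    ⟨a1, a2, a3, a4⟩ | ⟨a1, a2, a3, a4⟩ <;>
  rcases h1 with ⟨b1, b2, b3, b4⟩ | ⟨b1, b2, b3, b4⟩ | ⟨b1, b2, b3, b4⟩ | ⟨b1, b2, b3, b4⟩ |
    ⟨b1, b2, b3, b4⟩ | ⟨b1, b2, b3, b4⟩ <;>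
  first
  | (exfalso; linarith)
  | exact absurd ⟨by linarith, by linarith, by linarith, by linarith⟩ n1
  | exact absurd ⟨by linarith, by linarith, by linarith, by linarith⟩ n2
  | exact absurd ⟨by linarith, by linarith, by linarith, by linarith⟩ n3
  | exact absurd ⟨by linarith, by linarith, by linarith, by linarith⟩ n4
  | exact absurd ⟨by linarith, by linarith, by linarith, by linarith⟩ n5
  | exact absurd ⟨by linarith, by linarith, by linarith, by linarith⟩ n6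
  | (left
     rcases m1 (by linarith) (by linarith) (by linarith) with c | c <;>
     rcases m3 (by linarith) (by linarith) (by linarith) with d | d <;>
     first
     | (exfalso; linarith)
     | exact ⟨by linarith, by linarith, by linarith, by linarith, by linarith, by linarith⟩)
  | (right; left
     rcases m1 (by linarith) (by linarith) (by linarith) with c | c <;>
     rcases m5 (by linarith) (by linarith) (by linarith) with d | d <;>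
     first
     | (exfalso; linarith)
     | exact ⟨by linarith, by linarith, by linarith, by linarith, by linarith, by linarith⟩)
  | (right; right
     rcases m5 (by linarith) (by linarith) (by linarith) with c | c <;>
     rcases m3 (by linarith) (by linarith) (by linarith) with d | d <;>
     first
     | (exfalso; linarith)
     | exact ⟨by linarith, by linarith, by linarith, by linarith, by linarith, by linarith⟩)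

theorem pCOV : COV := by
  rintro ⟨⟨x, y, z⟩, h⟩
  by_cases h0 : (⟨⟨x, y, z⟩, h⟩ : TC) ∈ BU
  · exact ⟨0, h0⟩
  by_cases h1 : (⟨⟨x, y, z⟩, h⟩ : TC) ∈ BV
  · exact ⟨1, h1⟩
  simp only [BU, mem_setOf_eq, not_and_or, not_or, not_lt, ne_eq, not_not] at h0
  simp only [BV, mem_setOf_eq, not_and_or, not_or, not_lt, ne_eq, not_not] at h1
  rcases cov_aux x y z h h0 h1 with h2 | h2 | h2
  · exact ⟨2, h2⟩
  · exact ⟨3, h2⟩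
  · exact ⟨4, h2⟩

end Pool.Agent.H238.HK
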