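import Pool.Agent.H238.HK.Defs

set_option autoImplicit false

open Topology Set Filter

namespace Pool.Agent.H238.HK

open Pool.Agent.Helper22.LC (core isCov lab lab_inj mono_chart Pers pers_ev ite_ev ite_ev')

private theorem up_cases {x y z : ℝ} (hp : ((x, y, z) : ℝ × ℝ × ℝ) ∉ TK)
    (h : (⟨(x, y, z), hp⟩ : TC) ∉ BU) :
    (y = 0 ∧ -1 ≤ x ∧ x ≤ 2 ∧ z < 1 - 2 * x) ∨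
       (x + y = 2 ∧ 0 ≤ x ∧ 0 ≤ y ∧ z < 3 * y - 3) ∨
       (x = 0 ∧ -1 ≤ y ∧ y ≤ 2 ∧ z < 2 * y - 1) ∨
       (y = -1 ∧ 0 ≤ x ∧ x ≤ 2 ∧ z < 3 * x - 3) ∨
       (x + y = 1 ∧ -1 ≤ x ∧ x ≤ 2 ∧ z < 2 * x - 1) ∨
       (x = -1 ∧ 0 ≤ y ∧ y ≤ 2 ∧ z < 3 - 3 * y) := by
  change ¬ (_ ∧ _) at h
  simp only [not_and_or, not_or, not_lt, ne_eq, not_not] at h
  simp only [TK, mem_ofPred_eq, not_or, not_and] at hp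
  obtain ⟨p1, p2, p3, p4, p5, p6⟩ := hp
  rcases h with ⟨h1, h2, h3, h4⟩ | ⟨h1, h2, h3, h4⟩ | ⟨h1, h2, h3, h4⟩ | ⟨h1, h2, h3, h4⟩ |
    ⟨h1, h2, h3, h4⟩ | ⟨h1, h2, h3, h4⟩
  · exact Or.inl ⟨h1, h2, h3, lt_of_le_of_ne h4 (p1 h1 h2 h3)⟩
  · exact Or.inr (Or.inl ⟨h1, h2, h3, lt_of_le_of_ne h4 (p2 h1 h2 h3)⟩)
  · exact Or.inr (Or.inr (Or.inl ⟨h1, h2, h3, lt_of_le_of_ne h4 (p3 h1 h2 h3)⟩))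
  · exact Or.inr (Or.inr (Or.inr (Or.inl ⟨h1, h2, h3, lt_of_le_of_ne h4 (p4 h1 h2 h3)⟩)))
  · exact Or.inr (Or.inr (Or.inr (Or.inr (Or.inl ⟨h1, h2, h3, lt_of_le_of_ne h4 (p5 h1 h2 h3)⟩))))
  · exact Or.inr (Or.inr (Or.inr (Or.inr (Or.inr ⟨h1, h2, h3, lt_of_le_of_ne h4 (p6 h1 h2 h3)⟩))))

private theorem down_cases {x y z : ℝ} (hp : ((x, y, z) : ℝ × ℝ × ℝ) ∉ TK)
    (h : (⟨(x, y, z), hp⟩ : TC) ∉ BV) :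
    (y = 0 ∧ -1 ≤ x ∧ x ≤ 2 ∧ 1 - 2 * x < z) ∨
       (x + y = 2 ∧ 0 ≤ x ∧ 0 ≤ y ∧ 3 * y - 3 < z) ∨
       (x = 0 ∧ -1 ≤ y ∧ y ≤ 2 ∧ 2 * y - 1 < z) ∨
       (y = -1 ∧ 0 ≤ x ∧ x ≤ 2 ∧ 3 * x - 3 < z) ∨
       (x + y = 1 ∧ -1 ≤ x ∧ x ≤ 2 ∧ 2 * x - 1 < z) ∨
       (x = -1 ∧ 0 ≤ y ∧ y ≤ 2 ∧ 3 - 3 * y < z) := by
  change ¬ (_ ∧ _) at h
  simp only [not_and_or, not_or, not_lt, ne_eq, not_not] at h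
  simp only [TK, mem_ofPred_eq, not_or, not_and] at hp
  obtain ⟨p1, p2, p3, p4, p5, p6⟩ := hp
  rcases h with ⟨h1, h2, h3, h4⟩ | ⟨h1, h2, h3, h4⟩ | ⟨h1, h2, h3, h4⟩ | ⟨h1, h2, h3, h4⟩ |
    ⟨h1, h2, h3, h4⟩ | ⟨h1, h2, h3, h4⟩
  · exact Or.inl ⟨h1, h2, h3, lt_of_le_of_ne h4 (Ne.symm (p1 h1 h2 h3))⟩
  · exact Or.inr (Or.inl ⟨h1, h2, h3, lt_of_le_of_ne h4 (Ne.symm (p2 h1 h2 h3))⟩)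
  · exact Or.inr (Or.inr (Or.inl ⟨h1, h2, h3, lt_of_le_of_ne h4 (Ne.symm (p3 h1 h2 h3))⟩))
  · exact Or.inr (Or.inr (Or.inr (Or.inl ⟨h1, h2, h3, lt_of_le_of_ne h4 (Ne.symm (p4 h1 h2 h3))⟩)))
  · exact Or.inr (Or.inr (Or.inr (Or.inr (Or.inl ⟨h1, h2, h3, lt_of_le_of_ne h4 (Ne.symm (p5 h1 h2 h3))⟩))))
  · exact Or.inr (Or.inr (Or.inr (Or.inr (Or.inr ⟨h1, h2, h3, lt_of_le_of_ne h4 (Ne.symm (p6 h1 h2 h3))⟩))))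

theorem pCOV : COV := by
  intro p
  by_cases hU : p ∈ BU
  · exact ⟨0, hU⟩
  by_cases hV : p ∈ BV
  · exact ⟨1, hV⟩
  obtain ⟨⟨x, y, z⟩, hp⟩ := p
  have h1 := up_cases hp hU
  have h2 := down_cases hp hV
  have key : (-1/4 < x ∧ x < 1/4 ∧ -1/4 < y ∧ y < 1/4 ∧ 2 * y - 1 < z ∧ z < 1 - 2 * x) ∨
      (3/4 < x ∧ x < 5/4 ∧ -1/4 < y ∧ y < 1/4 ∧ 1 - 2 * x < z ∧ z < 2 * x - 1) ∨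
      (-1/4 < x ∧ x < 1/4 ∧ 3/4 < y ∧ y < 5/4 ∧ 2 * x - 1 < z ∧ z < 2 * y - 1) := by
    rcases h1 with ⟨u1, u2, u3, u4⟩ | ⟨u1, u2, u3, u4⟩ | ⟨u1, u2, u3, u4⟩ | ⟨u1, u2, u3, u4⟩ |
      ⟨u1, u2, u3, u4⟩ | ⟨u1, u2, u3, u4⟩ <;>
    rcases h2 with ⟨v1, v2, v3, v4⟩ | ⟨v1, v2, v3, v4⟩ | ⟨v1, v2, v3, v4⟩ | ⟨v1, v2, v3, v4⟩ |
      ⟨v1, v2, v3, v4⟩ | ⟨v1, v2, v3, v4⟩ <;>
    first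
      | (exfalso; linarith)
      | (left; refine ⟨?_, ?_, ?_, ?_, ?_, ?_⟩ <;> linarith)
      | (right; left; refine ⟨?_, ?_, ?_, ?_, ?_, ?_⟩ <;> linarith)
      | (right; right; refine ⟨?_, ?_, ?_, ?_, ?_, ?_⟩ <;> linarith)
  rcases key with k | k | k
  · exact ⟨2, k⟩
  · exact ⟨3, k⟩
  · exact ⟨4, k⟩

end Pool.Agent.H238.HK
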