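import Pool.Agent.H238.HK.Defs
set_option autoImplicit false
open Topology Set Filter
namespace Pool.Agent.H238.HK

private lemma nU (x y z : ℝ) (h : ¬ ((y ≠ 0 ∨ x < -1 ∨ 2 < x ∨ 1 - 2 * x < z) ∧
       (x + y ≠ 2 ∨ x < 0 ∨ y < 0 ∨ 3 * y - 3 < z) ∧
       (x ≠ 0 ∨ y < -1 ∨ 2 < y ∨ 2 * y - 1 < z) ∧
       (y ≠ -1 ∨ x < 0 ∨ 2 < x ∨ 3 * x - 3 < z) ∧
       (x + y ≠ 1 ∨ x < -1 ∨ 2 < x ∨ 2 * x - 1 < z) ∧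
       (x ≠ -1 ∨ y < 0 ∨ 2 < y ∨ 3 - 3 * y < z))) :
    (y = 0 ∧ -1 ≤ x ∧ x ≤ 2 ∧ z ≤ 1 - 2 * x) ∨ (x + y = 2 ∧ 0 ≤ x ∧ 0 ≤ y ∧ z ≤ 3 * y - 3) ∨
    (x = 0 ∧ -1 ≤ y ∧ y ≤ 2 ∧ z ≤ 2 * y - 1) ∨ (y = -1 ∧ 0 ≤ x ∧ x ≤ 2 ∧ z ≤ 3 * x - 3) ∨
    (x + y = 1 ∧ -1 ≤ x ∧ x ≤ 2 ∧ z ≤ 2 * x - 1) ∨ (x = -1 ∧ 0 ≤ y ∧ y ≤ 2 ∧ z ≤ 3 - 3 * y) := by
  simp only [not_and_or, not_or, not_lt, not_not, ne_eq] at h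
  exact h

private lemma nV (x y z : ℝ) (h : ¬ ((y ≠ 0 ∨ x < -1 ∨ 2 < x ∨ z < 1 - 2 * x) ∧
       (x + y ≠ 2 ∨ x < 0 ∨ y < 0 ∨ z < 3 * y - 3) ∧
       (x ≠ 0 ∨ y < -1 ∨ 2 < y ∨ z < 2 * y - 1) ∧
       (y ≠ -1 ∨ x < 0 ∨ 2 < x ∨ z < 3 * x - 3) ∧
       (x + y ≠ 1 ∨ x < -1 ∨ 2 < x ∨ z < 2 * x - 1) ∧
       (x ≠ -1 ∨ y < 0 ∨ 2 < y ∨ z < 3 - 3 * y))) :
    (y = 0 ∧ -1 ≤ x ∧ x ≤ 2 ∧ 1 - 2 * x ≤ z) ∨ (x + y = 2 ∧ 0 ≤ x ∧ 0 ≤ y ∧ 3 * y - 3 ≤ z) ∨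
    (x = 0 ∧ -1 ≤ y ∧ y ≤ 2 ∧ 2 * y - 1 ≤ z) ∨ (y = -1 ∧ 0 ≤ x ∧ x ≤ 2 ∧ 3 * x - 3 ≤ z) ∨
    (x + y = 1 ∧ -1 ≤ x ∧ x ≤ 2 ∧ 2 * x - 1 ≤ z) ∨ (x = -1 ∧ 0 ≤ y ∧ y ≤ 2 ∧ 3 - 3 * y ≤ z) := by
  simp only [not_and_or, not_or, not_lt, not_not, ne_eq] at h
  exact h

private lemma key (x y z : ℝ)
    (hK : ¬ ((y = 0 ∧ -1 ≤ x ∧ x ≤ 2 ∧ z = 1 - 2 * x) ∨
       (x + y = 2 ∧ 0 ≤ x ∧ 0 ≤ y ∧ z = 3 * y - 3) ∨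
       (x = 0 ∧ -1 ≤ y ∧ y ≤ 2 ∧ z = 2 * y - 1) ∨
       (y = -1 ∧ 0 ≤ x ∧ x ≤ 2 ∧ z = 3 * x - 3) ∨
       (x + y = 1 ∧ -1 ≤ x ∧ x ≤ 2 ∧ z = 2 * x - 1) ∨
       (x = -1 ∧ 0 ≤ y ∧ y ≤ 2 ∧ z = 3 - 3 * y)))
    (h : (y = 0 ∧ -1 ≤ x ∧ x ≤ 2 ∧ z ≤ 1 - 2 * x) ∨ (x + y = 2 ∧ 0 ≤ x ∧ 0 ≤ y ∧ z ≤ 3 * y - 3) ∨
    (x = 0 ∧ -1 ≤ y ∧ y ≤ 2 ∧ z ≤ 2 * y - 1) ∨ (y = -1 ∧ 0 ≤ x ∧ x ≤ 2 ∧ z ≤ 3 * x - 3) ∨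
    (x + y = 1 ∧ -1 ≤ x ∧ x ≤ 2 ∧ z ≤ 2 * x - 1) ∨ (x = -1 ∧ 0 ≤ y ∧ y ≤ 2 ∧ z ≤ 3 - 3 * y))
    (h' : (y = 0 ∧ -1 ≤ x ∧ x ≤ 2 ∧ 1 - 2 * x ≤ z) ∨ (x + y = 2 ∧ 0 ≤ x ∧ 0 ≤ y ∧ 3 * y - 3 ≤ z) ∨
    (x = 0 ∧ -1 ≤ y ∧ y ≤ 2 ∧ 2 * y - 1 ≤ z) ∨ (y = -1 ∧ 0 ≤ x ∧ x ≤ 2 ∧ 3 * x - 3 ≤ z) ∨
    (x + y = 1 ∧ -1 ≤ x ∧ x ≤ 2 ∧ 2 * x - 1 ≤ z) ∨ (x = -1 ∧ 0 ≤ y ∧ y ≤ 2 ∧ 3 - 3 * y ≤ z)) :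
    (-1/4 < x ∧ x < 1/4 ∧ -1/4 < y ∧ y < 1/4 ∧ 2 * y - 1 < z ∧ z < 1 - 2 * x) ∨
    (3/4 < x ∧ x < 5/4 ∧ -1/4 < y ∧ y < 1/4 ∧ 1 - 2 * x < z ∧ z < 2 * x - 1) ∨
    (-1/4 < x ∧ x < 1/4 ∧ 3/4 < y ∧ y < 5/4 ∧ 2 * x - 1 < z ∧ z < 2 * y - 1) := by
  simp only [not_or] at hK
  obtain ⟨k1, k2, k3, k4, k5, k6⟩ := hK
  rcases h with ⟨a1, a2, a3, a4⟩ | ⟨a1, a2, a3, a4⟩ | ⟨a1, a2, a3, a4⟩ | ⟨a1, a2, a3, a4⟩ |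
      ⟨a1, a2, a3, a4⟩ | ⟨a1, a2, a3, a4⟩ <;>
    rcases h' with ⟨b1, b2, b3, b4⟩ | ⟨b1, b2, b3, b4⟩ | ⟨b1, b2, b3, b4⟩ | ⟨b1, b2, b3, b4⟩ |
      ⟨b1, b2, b3, b4⟩ | ⟨b1, b2, b3, b4⟩ <;>
  first
  | (exfalso; linarith)
  | exact absurd ⟨by linarith, by linarith, by linarith, by linarith⟩ k1
  | exact absurd ⟨by linarith, by linarith, by linarith, by linarith⟩ k2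
  | exact absurd ⟨by linarith, by linarith, by linarith, by linarith⟩ k3
  | exact absurd ⟨by linarith, by linarith, by linarith, by linarith⟩ k4
  | exact absurd ⟨by linarith, by linarith, by linarith, by linarith⟩ k5
  | exact absurd ⟨by linarith, by linarith, by linarith, by linarith⟩ k6
  | (have e1 : z ≠ 1 - 2 * x := fun h => k1 ⟨by linarith, by linarith, by linarith, h⟩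
     have e2 : z ≠ 2 * y - 1 := fun h => k3 ⟨by linarith, by linarith, by linarith, h⟩
     exact Or.inl ⟨by linarith, by linarith, by linarith, by linarith,
       lt_of_le_of_ne (by linarith) e2.symm, lt_of_le_of_ne (by linarith) e1⟩)
  | (have e1 : z ≠ 1 - 2 * x := fun h => k1 ⟨by linarith, by linarith, by linarith, h⟩
     have e2 : z ≠ 2 * x - 1 := fun h => k5 ⟨by linarith, by linarith, by linarith, h⟩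
     exact Or.inr (Or.inl ⟨by linarith, by linarith, by linarith, by linarith,
       lt_of_le_of_ne (by linarith) e1.symm, lt_of_le_of_ne (by linarith) e2⟩))
  | (have e1 : z ≠ 2 * y - 1 := fun h => k3 ⟨by linarith, by linarith, by linarith, h⟩
     have e2 : z ≠ 2 * x - 1 := fun h => k5 ⟨by linarith, by linarith, by linarith, h⟩
     exact Or.inr (Or.inr ⟨by linarith, by linarith, by linarith, by linarith,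
       lt_of_le_of_ne (by linarith) e2.symm, lt_of_le_of_ne (by linarith) e1⟩))

theorem pCOV : COV := by
  intro p
  by_cases hU : p ∈ BU
  · exact ⟨0, hU⟩
  by_cases hV : p ∈ BV
  · exact ⟨1, hV⟩
  obtain ⟨⟨x, y, z⟩, hp⟩ := p
  rcases key x y z hp (nU x y z hU) (nV x y z hV) with h | h | h
  · exact ⟨2, h⟩
  · exact ⟨3, h⟩
  · exact ⟨4, h⟩

end Pool.Agent.H238.HK
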