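import Pool.Agent.H238.HK.Defs

/-!
# HK-CRCb: the group of the complement of the regular hexagon is commutative
-/

set_option autoImplicit false

open Topology Set Filter

namespace Pool.Agent.H238.HK

private theorem ffc : Continuous (fun p : RC => ff p.1.1 p.1.2.1) := by
  unfold ff
  fun_prop

private theorem zc : Continuous (fun p : RC => p.1.2.2) := by fun_prop

private theorem opA : IsOpen RA :=
  (isOpen_lt continuous_const zc).union (isOpen_ne_fun ffc continuous_const)

private theorem opB : IsOpen RB :=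
  (isOpen_lt zc continuous_const).union (isOpen_ne_fun ffc continuous_const)

private theorem unAB : RA ∪ RB = univ := by
  ext p
  refine ⟨fun _ => mem_univ _, fun _ => ?_⟩
  by_cases h : ff p.1.1 p.1.2.1 = √3
  · rcases lt_trichotomy p.1.2.2 0 with h1 | h1 | h1
    · exact Or.inr (Or.inl h1)
    · exact absurd (show p.1 ∈ RK from ⟨h1, h⟩) p.2
    · exact Or.inl (Or.inl h1)
  · exact Or.inl (Or.inr h)

private theorem inAB : RA ∩ RB = RI ∪ RO := by
  ext p
  constructor
  · rintro ⟨h1, h2⟩
    by_cases h : ff p.1.1 p.1.2.1 = √3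
    · exfalso
      have h3 : 0 < p.1.2.2 := h1.resolve_right (fun h' => h' h)
      have h4 : p.1.2.2 < 0 := h2.resolve_right (fun h' => h' h)
      linarith
    · rcases lt_or_gt_of_ne h with h1 | h1
      · exact Or.inl h1
      · exact Or.inr h1
  · rintro (h | h)
    · have h' : ff p.1.1 p.1.2.1 ≠ √3 := ne_of_lt h
      exact ⟨Or.inr h', Or.inr h'⟩
    · have h' : ff p.1.1 p.1.2.1 ≠ √3 := ne_of_gt h
      exact ⟨Or.inr h', Or.inr h'⟩

theorem pCRC (hG : GEN) (hb : BAS) (h1 : RAS) (h2 : RBS) (h3 : RIO) (h4 : ROO) : CRC := by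
  have s1 : SimplyConnectedSpace RA := h1
  have s2 : SimplyConnectedSpace RB := h2
  have c1 : IsPathConnected RA := isPathConnected_iff_pathConnectedSpace.2 inferInstance
  have c2 : IsPathConnected RB := isPathConnected_iff_pathConnectedSpace.2 inferInstance
  have hne : (RA ∩ RB).Nonempty := by
    rw [inAB]
    exact (IsPathConnected.nonempty h3).mono subset_union_left
  have c3 : PathConnectedSpace RC := by
    rw [pathConnectedSpace_iff_univ, ← unAB]
    exact c1.union c2 hne
  obtain ⟨x, hx⟩ := IsPathConnected.nonempty h4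
  obtain ⟨g, hg⟩ := hG RC RA RB RI RO opA opB unAB inAB h3 h4 s1 s2 x hx
  refine hb RC x ?_
  intro α β
  obtain ⟨m, rfl⟩ := Subgroup.mem_zpowers_iff.1 (hg α)
  obtain ⟨n, rfl⟩ := Subgroup.mem_zpowers_iff.1 (hg β)
  exact (Commute.refl g).zpow_zpow m n

end Pool.Agent.H238.HK
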