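import Pool.Agent.H238.HK.Stm

/-!
# EMB: the hexagonal trefoil is embedded (helper87)
-/

set_option autoImplicit false

open Topology Set Filter

namespace Pool.Agent.H238.HK

open Pool.Agent.H223.MB (V trace Embedded AmbientIsotopic circ edge)

private def xx : Fin 6 → ℝ := ![-1, 2, 0, 0, 2, -1]
private def yy : Fin 6 → ℝ := ![0, 0, 2, -1, -1, 2]
private def zz : Fin 6 → ℝ := ![3, -3, 3, -3, 3, -3]

private theorem p0x (i : Fin 6) : P0 i 0 = xx i := by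
  fin_cases i <;> simp [P0, xx]
private theorem p0y (i : Fin 6) : P0 i 1 = yy i := by
  fin_cases i <;> simp [P0, yy]
private theorem p0z (i : Fin 6) : P0 i 2 = zz i := by
  fin_cases i <;> simp [P0, zz]

private theorem eqv (v : V) (i : Fin 6) (h0 : v 0 = xx i) (h1 : v 1 = yy i) (h2 : v 2 = zz i) :
    v = P0 i := by
  ext k
  fin_cases k
  · exact h0.trans (p0x i).symm
  · exact h1.trans (p0y i).symm
  · exact h2.trans (p0z i).symm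

private theorem par {v : V} {i : Fin 6} (h : v ∈ edge P0 i) : ∃ b : ℝ, 0 ≤ b ∧ b ≤ 1 ∧
    v 0 = (1 - b) * xx i + b * xx (i + 1) ∧ v 1 = (1 - b) * yy i + b * yy (i + 1) ∧
    v 2 = (1 - b) * zz i + b * zz (i + 1) := by
  obtain ⟨a, b, ha, hb, hab, rfl⟩ := h
  have e : a = 1 - b := by linarith
  refine ⟨b, hb, by linarith, ?_, ?_, ?_⟩
  · rw [← e, ← p0x, ← p0x]; rfl
  · rw [← e, ← p0y, ← p0y]; rfl
  · rw [← e, ← p0z, ← p0z]; rfl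

private theorem q0 {v : V} (h : v ∈ edge P0 0) : ∃ b : ℝ, 0 ≤ b ∧ b ≤ 1 ∧
    v 0 = -1 + 3 * b ∧ v 1 = 0 ∧ v 2 = 3 - 6 * b := by
  obtain ⟨b, h1, h2, h3, h4, h5⟩ := par h
  refine ⟨b, h1, h2, ?_, ?_, ?_⟩
  · rw [h3]; show (1 - b) * (-1) + b * 2 = _; ring
  · rw [h4]; show (1 - b) * 0 + b * 0 = _; ring
  · rw [h5]; show (1 - b) * 3 + b * (-3) = _; ring

private theorem q1 {v : V} (h : v ∈ edge P0 1) : ∃ b : ℝ, 0 ≤ b ∧ b ≤ 1 ∧
    v 0 = 2 - 2 * b ∧ v 1 = 2 * b ∧ v 2 = -3 + 6 * b := by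
  obtain ⟨b, h1, h2, h3, h4, h5⟩ := par h
  refine ⟨b, h1, h2, ?_, ?_, ?_⟩
  · rw [h3]; show (1 - b) * 2 + b * 0 = _; ring
  · rw [h4]; show (1 - b) * 0 + b * 2 = _; ring
  · rw [h5]; show (1 - b) * (-3) + b * 3 = _; ring

private theorem q2 {v : V} (h : v ∈ edge P0 2) : ∃ b : ℝ, 0 ≤ b ∧ b ≤ 1 ∧
    v 0 = 0 ∧ v 1 = 2 - 3 * b ∧ v 2 = 3 - 6 * b := by
  obtain ⟨b, h1, h2, h3, h4, h5⟩ := par h
  refine ⟨b, h1, h2, ?_, ?_, ?_⟩
  · rw [h3]; show (1 - b) * 0 + b * 0 = _; ring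
  · rw [h4]; show (1 - b) * 2 + b * (-1) = _; ring
  · rw [h5]; show (1 - b) * 3 + b * (-3) = _; ring

private theorem q3 {v : V} (h : v ∈ edge P0 3) : ∃ b : ℝ, 0 ≤ b ∧ b ≤ 1 ∧
    v 0 = 2 * b ∧ v 1 = -1 ∧ v 2 = -3 + 6 * b := by
  obtain ⟨b, h1, h2, h3, h4, h5⟩ := par h
  refine ⟨b, h1, h2, ?_, ?_, ?_⟩
  · rw [h3]; show (1 - b) * 0 + b * 2 = _; ring
  · rw [h4]; show (1 - b) * (-1) + b * (-1) = _; ring
  · rw [h5]; show (1 - b) * (-3) + b * 3 = _; ring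

private theorem q4 {v : V} (h : v ∈ edge P0 4) : ∃ b : ℝ, 0 ≤ b ∧ b ≤ 1 ∧
    v 0 = 2 - 3 * b ∧ v 1 = -1 + 3 * b ∧ v 2 = 3 - 6 * b := by
  obtain ⟨b, h1, h2, h3, h4, h5⟩ := par h
  refine ⟨b, h1, h2, ?_, ?_, ?_⟩
  · rw [h3]; show (1 - b) * 2 + b * (-1) = _; ring
  · rw [h4]; show (1 - b) * (-1) + b * 2 = _; ring
  · rw [h5]; show (1 - b) * 3 + b * (-3) = _; ring

private theorem q5 {v : V} (h : v ∈ edge P0 5) : ∃ b : ℝ, 0 ≤ b ∧ b ≤ 1 ∧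
    v 0 = -1 ∧ v 1 = 2 - 2 * b ∧ v 2 = -3 + 6 * b := by
  obtain ⟨b, h1, h2, h3, h4, h5⟩ := par h
  refine ⟨b, h1, h2, ?_, ?_, ?_⟩
  · rw [h3]; show (1 - b) * (-1) + b * (-1) = _; ring
  · rw [h4]; show (1 - b) * 2 + b * 0 = _; ring
  · rw [h5]; show (1 - b) * (-3) + b * 3 = _; ring

private theorem v0 {v : V} (h0 : v 0 = -1) (h1 : v 1 = 0) (h2 : v 2 = 3) : v = P0 0 :=
  eqv v 0 h0 h1 h2
private theorem v1 {v : V} (h0 : v 0 = 2) (h1 : v 1 = 0) (h2 : v 2 = -3) : v = P0 1 :=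
  eqv v 1 h0 h1 h2
private theorem v2 {v : V} (h0 : v 0 = 0) (h1 : v 1 = 2) (h2 : v 2 = 3) : v = P0 2 :=
  eqv v 2 h0 h1 h2
private theorem v3 {v : V} (h0 : v 0 = 0) (h1 : v 1 = -1) (h2 : v 2 = -3) : v = P0 3 :=
  eqv v 3 h0 h1 h2
private theorem v4 {v : V} (h0 : v 0 = 2) (h1 : v 1 = -1) (h2 : v 2 = 3) : v = P0 4 :=
  eqv v 4 h0 h1 h2
private theorem v5 {v : V} (h0 : v 0 = -1) (h1 : v 1 = 2) (h2 : v 2 = -3) : v = P0 5 :=
  eqv v 5 h0 h1 h2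

private def Ok (i j : Fin 6) : Prop :=
  edge P0 i ∩ edge P0 j ⊆ {P0 i, P0 (i + 1)} ∩ {P0 j, P0 (j + 1)}

private theorem Ok.symm {i j : Fin 6} (h : Ok i j) : Ok j i := by
  intro v hv
  have := h ⟨hv.2, hv.1⟩
  exact ⟨this.2, this.1⟩

private theorem k01 : Ok 0 1 := by
  rintro v ⟨h, h'⟩
  obtain ⟨b, b1, b2, b3, b4, b5⟩ := q0 h
  obtain ⟨c, c1, c2, c3, c4, c5⟩ := q1 h'
  have e : v = P0 1 := v1 (by linarith) (by linarith) (by linarith)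
  exact ⟨Or.inr e, Or.inl e⟩

private theorem k12 : Ok 1 2 := by
  rintro v ⟨h, h'⟩
  obtain ⟨b, b1, b2, b3, b4, b5⟩ := q1 h
  obtain ⟨c, c1, c2, c3, c4, c5⟩ := q2 h'
  have e : v = P0 2 := v2 (by linarith) (by linarith) (by linarith)
  exact ⟨Or.inr e, Or.inl e⟩

private theorem k23 : Ok 2 3 := by
  rintro v ⟨h, h'⟩
  obtain ⟨b, b1, b2, b3, b4, b5⟩ := q2 h
  obtain ⟨c, c1, c2, c3, c4, c5⟩ := q3 h'
  have e : v = P0 3 := v3 (by linarith) (by linarith) (by linarith)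
  exact ⟨Or.inr e, Or.inl e⟩

private theorem k34 : Ok 3 4 := by
  rintro v ⟨h, h'⟩
  obtain ⟨b, b1, b2, b3, b4, b5⟩ := q3 h
  obtain ⟨c, c1, c2, c3, c4, c5⟩ := q4 h'
  have e : v = P0 4 := v4 (by linarith) (by linarith) (by linarith)
  exact ⟨Or.inr e, Or.inl e⟩

private theorem k45 : Ok 4 5 := by
  rintro v ⟨h, h'⟩
  obtain ⟨b, b1, b2, b3, b4, b5⟩ := q4 h
  obtain ⟨c, c1, c2, c3, c4, c5⟩ := q5 h'
  have e : v = P0 5 := v5 (by linarith) (by linarith) (by linarith)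
  exact ⟨Or.inr e, Or.inl e⟩

private theorem k05 : Ok 0 5 := by
  rintro v ⟨h, h'⟩
  obtain ⟨b, b1, b2, b3, b4, b5⟩ := q0 h
  obtain ⟨c, c1, c2, c3, c4, c5⟩ := q5 h'
  have e : v = P0 0 := v0 (by linarith) (by linarith) (by linarith)
  exact ⟨Or.inl e, Or.inr e⟩

private theorem k02 : Ok 0 2 := by
  rintro v ⟨h, h'⟩
  obtain ⟨b, b1, b2, b3, b4, b5⟩ := q0 h
  obtain ⟨c, c1, c2, c3, c4, c5⟩ := q2 h'
  exfalso; linarith

private theorem k03 : Ok 0 3 := by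
  rintro v ⟨h, h'⟩
  obtain ⟨b, b1, b2, b3, b4, b5⟩ := q0 h
  obtain ⟨c, c1, c2, c3, c4, c5⟩ := q3 h'
  exfalso; linarith

private theorem k04 : Ok 0 4 := by
  rintro v ⟨h, h'⟩
  obtain ⟨b, b1, b2, b3, b4, b5⟩ := q0 h
  obtain ⟨c, c1, c2, c3, c4, c5⟩ := q4 h'
  exfalso; linarith

private theorem k13 : Ok 1 3 := by
  rintro v ⟨h, h'⟩
  obtain ⟨b, b1, b2, b3, b4, b5⟩ := q1 h
  obtain ⟨c, c1, c2, c3, c4, c5⟩ := q3 h'
  exfalso; linarith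

private theorem k14 : Ok 1 4 := by
  rintro v ⟨h, h'⟩
  obtain ⟨b, b1, b2, b3, b4, b5⟩ := q1 h
  obtain ⟨c, c1, c2, c3, c4, c5⟩ := q4 h'
  exfalso; linarith

private theorem k15 : Ok 1 5 := by
  rintro v ⟨h, h'⟩
  obtain ⟨b, b1, b2, b3, b4, b5⟩ := q1 h
  obtain ⟨c, c1, c2, c3, c4, c5⟩ := q5 h'
  exfalso; linarith

private theorem k24 : Ok 2 4 := by
  rintro v ⟨h, h'⟩
  obtain ⟨b, b1, b2, b3, b4, b5⟩ := q2 h
  obtain ⟨c, c1, c2, c3, c4, c5⟩ := q4 h'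
  exfalso; linarith

private theorem k25 : Ok 2 5 := by
  rintro v ⟨h, h'⟩
  obtain ⟨b, b1, b2, b3, b4, b5⟩ := q2 h
  obtain ⟨c, c1, c2, c3, c4, c5⟩ := q5 h'
  exfalso; linarith

private theorem k35 : Ok 3 5 := by
  rintro v ⟨h, h'⟩
  obtain ⟨b, b1, b2, b3, b4, b5⟩ := q3 h
  obtain ⟨c, c1, c2, c3, c4, c5⟩ := q5 h'
  exfalso; linarith

private theorem inj : Function.Injective P0 := by
  intro i j h
  have hx : xx i = xx j := by rw [← p0x, ← p0x, h]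
  have hy : yy i = yy j := by rw [← p0y, ← p0y, h]
  have hz : zz i = zz j := by rw [← p0z, ← p0z, h]
  fin_cases i <;> fin_cases j <;> first | rfl | (exfalso; revert hx hy hz; norm_num [xx, yy, zz])

theorem pEMB : EMB := by
  refine ⟨inj, fun i j hij => ?_⟩
  have key : ∀ i j : Fin 6, i < j → Ok i j := by
    intro i j h
    fin_cases i <;> fin_cases j <;>
      first
      | exact absurd h (by decide)
      | exact k01 | exact k02 | exact k03 | exact k04 | exact k05 | exact k12 | exact k13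
      | exact k14 | exact k15 | exact k23 | exact k24 | exact k25 | exact k34 | exact k35
      | exact k45
  rcases lt_or_gt_of_ne hij with h | h
  · exact key i j h
  · exact (key j i h).symm

end Pool.Agent.H238.HK
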