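import Pool.Agent.H238.HK.Main
import Pool.Agent.H223.MB.Asm
import Pool.Agent.H223.MB.AI
import Pool.Agent.H223.MB.PATHLb
import Pool.Agent.H223.MB.CROSS
import Pool.Agent.H223.MB.ORD1
import Pool.Agent.H223.MB.ORD2
import Pool.Agent.H223.MB.CONV
import Pool.Agent.H223.MB.UNK
import Pool.Agent.H223.MB.REG

/-!
# No hexagonal trefoil minimises the discrete Moebius energy
-/

open Set Pool.Agent.H223.MB

namespace Pool.Agent.H238.HK

/-- Embedded hexagons with vertices on a circle are isotopic to the regular plane hexagon. -/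
theorem concyclic_unknot (q : Fin 6 → V) (hq : Embedded q)
    (hc : EuclideanGeometry.Concyclic (range q)) : AmbientIsotopic (trace q) (trace Q0) := by
  obtain ⟨c, R, e₁, e₂, hR, hON, h⟩ :=
    pUNK pAI (pPATHL asmT5 pAI) pORD1 (pORD2 pCROSS) pCONV q hq hc
  exact pAI.2.1 _ _ _ h (pREG pAI (pPATHL asmT5 pAI) pCONV c R e₁ e₂ hR hON)

/-- In the knot type of the hexagon `P0` no embedded hexagon attains the infimum of the energy. -/
theorem fin3 (q : Fin 6 → V) (hq : Embedded q) (hPq : AmbientIsotopic (trace P0) (trace q)) :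
    ∃ r : Fin 6 → V, Embedded r ∧ AmbientIsotopic (trace q) (trace r) ∧ energy r < energy q := by
  by_contra hcon
  push Not at hcon
  have hc := asm2 q hq hcon
  exact knot (pAI.2.1 _ _ _ hPq (concyclic_unknot q hq hc))

theorem fin3' : ∃ P : Fin 6 → V, Embedded P ∧
    ∀ q : Fin 6 → V, Embedded q → AmbientIsotopic (trace P) (trace q) →
      ∃ r : Fin 6 → V, Embedded r ∧ AmbientIsotopic (trace q) (trace r) ∧ energy r < energy q :=
  ⟨P0, emb, fin3⟩

end Pool.Agent.H238.HK
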