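import Pool.Agent.H238.HK.Defs

/-!
# GEN: the group of a union of two simply connected open sets is cyclic if the intersection is a union of two path
connected sets
-/

set_option autoImplicit false

open Topology Set Filter

namespace Pool.Agent.H238.HK

open Pool.Agent.Helper22.LC (core isCov lab lab_inj mono_chart Pers pers_ev ite_ev ite_ev')

open CategoryTheory

/-- class of a path -/
def mm {X : Type} [TopologicalSpace X] {y z : X} (p : Path y z) :
    (FundamentalGroupoid.mk y ⟶ FundamentalGroupoid.mk z) := Path.Homotopic.Quotient.mk p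

theorem mm_trans {X : Type} [TopologicalSpace X] {x y z : X} (p : Path x y) (q : Path y z) :
    mm (p.trans q) = mm p ≫ mm q := rfl

theorem mm_symm {X : Type} [TopologicalSpace X] {x y : X} (p : Path x y) :
    mm p.symm = Groupoid.inv (mm p) := rfl

theorem mm_refl {X : Type} [TopologicalSpace X] (x : X) : mm (Path.refl x) = 𝟙 _ := rfl

theorem mm_eq {X : Type} [TopologicalSpace X] {y z : X} {p q : Path y z} (h : Path.Homotopic p q) :
    mm p = mm q := Path.Homotopic.Quotient.eq.2 h

theorem mm_sc {X : Type} [TopologicalSpace X] {A : Set X} (hA : SimplyConnectedSpace A) {y z : X}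
    (p q : Path y z) (hp : ∀ t, p t ∈ A) (hq : ∀ t, q t ∈ A) : mm p = mm q := by
  apply mm_eq
  have hy : y ∈ A := by have := hp 0; rwa [p.source] at this
  have hz : z ∈ A := by have := hp 1; rwa [p.target] at this
  let p' : Path (⟨y, hy⟩ : A) ⟨z, hz⟩ :=
    { toFun := fun t => ⟨p t, hp t⟩
      continuous_toFun := by fun_prop
      source' := by simp
      target' := by simp }
  let q' : Path (⟨y, hy⟩ : A) ⟨z, hz⟩ :=
    { toFun := fun t => ⟨q t, hq t⟩
      continuous_toFun := by fun_prop
      source' := by simp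
      target' := by simp }
  have h := (SimplyConnectedSpace.paths_homotopic p' q').map ⟨Subtype.val, continuous_subtype_val⟩
  exact h

theorem ex_path {X : Type} [TopologicalSpace X] {A : Set X} (hA : IsPathConnected A) {y z : X}
    (hy : y ∈ A) (hz : z ∈ A) : ∃ p : Path y z, ∀ t, p t ∈ A :=
  hA.joinedIn y hy z hz

theorem gen_core {X : Type} [TopologicalSpace X] (A B I O : Set X) (hAo : IsOpen A) (hBo : IsOpen B)
    (hAB : A ∪ B = univ) (hIO : A ∩ B = I ∪ O) (hI : IsPathConnected I) (hO : IsPathConnected O)
    (hA : SimplyConnectedSpace A) (hB : SimplyConnectedSpace B) (x : X) (hx : x ∈ O) :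
    ∃ g : FundamentalGroup X x, ∀ α : FundamentalGroup X x, α ∈ Subgroup.zpowers g := by
  have hIs : I ⊆ A ∩ B := by rw [hIO]; exact subset_union_left
  have hOs : O ⊆ A ∩ B := by rw [hIO]; exact subset_union_right
  have pA : IsPathConnected A := isPathConnected_iff_pathConnectedSpace.2 inferInstance
  have pB : IsPathConnected B := isPathConnected_iff_pathConnectedSpace.2 inferInstance
  have xA : x ∈ A := (hOs hx).1
  have xB : x ∈ B := (hOs hx).2
  obtain ⟨y0, hy0⟩ := hI.nonempty
  obtain ⟨a0, ha0⟩ := ex_path pA (hIs hy0).1 xA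
  obtain ⟨b0, hb0⟩ := ex_path pB (hIs hy0).2 xB
  set g : FundamentalGroup X x := (Groupoid.inv (mm a0) ≫ mm b0 : _) with hg
  refine ⟨g, ?_⟩
  set G := Subgroup.zpowers g with hG
  have gG : g ∈ G := Subgroup.mem_zpowers g
  have Gmul : ∀ u v : (FundamentalGroupoid.mk x ⟶ FundamentalGroupoid.mk x),
      (show FundamentalGroup X x from u) ∈ G → (show FundamentalGroup X x from v) ∈ G →
      (show FundamentalGroup X x from (u ≫ v)) ∈ G := fun u v hu hv => G.mul_mem hv hu
  have Gone : (show FundamentalGroup X x from 𝟙 (FundamentalGroupoid.mk x)) ∈ G := G.one_mem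
  have Ginv : ∀ u : (FundamentalGroupoid.mk x ⟶ FundamentalGroupoid.mk x),
      (show FundamentalGroup X x from u) ∈ G →
      (show FundamentalGroup X x from (Groupoid.inv u)) ∈ G := fun u hu => G.inv_mem hu
  -- K
  have K : ∀ (y : X) (a b : Path y x), (∀ t, a t ∈ A) → (∀ t, b t ∈ B) →
      (show FundamentalGroup X x from (Groupoid.inv (mm a) ≫ mm b)) ∈ G := by
    intro y a b ha hb
    have hy : y ∈ I ∪ O := by
      rw [← hIO]
      refine ⟨?_, ?_⟩
      · have := ha 0; rwa [a.source] at this
      · have := hb 0; rwa [b.source] at this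
    rcases hy with hy | hy
    · obtain ⟨r, hr⟩ := ex_path hI hy hy0
      have e1 : mm a = mm r ≫ mm a0 := by
        rw [← mm_trans]
        refine mm_sc hA _ _ ha fun t => ?_
        rw [Path.trans_apply]; split_ifs
        · exact (hIs (hr _)).1
        · exact ha0 _
      have e2 : mm b = mm r ≫ mm b0 := by
        rw [← mm_trans]
        refine mm_sc hB _ _ hb fun t => ?_
        rw [Path.trans_apply]; split_ifs
        · exact (hIs (hr _)).2
        · exact hb0 _
      have e3 : (Groupoid.inv (mm a) ≫ mm b) = (Groupoid.inv (mm a0) ≫ mm b0) := by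
        rw [e1, e2]; simp [Groupoid.inv_eq_inv]
      rw [e3]; exact gG
    · obtain ⟨r, hr⟩ := ex_path hO hy hx
      have e1 : mm a = mm r := mm_sc hA _ _ ha fun t => (hOs (hr t)).1
      have e2 : mm b = mm r := mm_sc hB _ _ hb fun t => (hOs (hr t)).2
      have e3 : (Groupoid.inv (mm a) ≫ mm b) = 𝟙 _ := by
        rw [e1, e2]; simp [Groupoid.inv_eq_inv]
      rw [e3]; exact Gone
  -- Good
  let Good : ∀ {y : X}, Path x y → Prop := fun {y} p =>
    ∀ q : Path y x, ((∀ t, q t ∈ A) ∨ (∀ t, q t ∈ B)) →
      (show FundamentalGroup X x from (mm p ≫ mm q)) ∈ G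
  have Gstep : ∀ {y z : X} (p : Path x y) (s : Path y z), ((∀ t, s t ∈ A) ∨ (∀ t, s t ∈ B)) → Good p →
      Good (p.trans s) := by
    intro y z p s hs hp q hq
    have trA : ∀ q : Path z x, (∀ t, s t ∈ A) → (∀ t, q t ∈ A) → ∀ t, (s.trans q) t ∈ A := by
      intro q h1 h2 t
      rw [Path.trans_apply]; split_ifs
      · exact h1 _
      · exact h2 _
    have trB : ∀ q : Path z x, (∀ t, s t ∈ B) → (∀ t, q t ∈ B) → ∀ t, (s.trans q) t ∈ B := by
      intro q h1 h2 t
      rw [Path.trans_apply]; split_ifs
      · exact h1 _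
      · exact h2 _
    rcases hs with hs | hs <;> rcases hq with hq | hq
    · have := hp (s.trans q) (Or.inl (trA q hs hq))
      have e : mm (p.trans s) ≫ mm q = mm p ≫ mm (s.trans q) := by simp [mm_trans]
      rw [e]; exact this
    · have hz : z ∈ A := by have := hs 1; rwa [s.target] at this
      obtain ⟨qa, hqa⟩ := ex_path pA hz xA
      have h1 := hp (s.trans qa) (Or.inl (trA qa hs hqa))
      have h2 := K z qa q hqa hq
      have e : mm (p.trans s) ≫ mm q = (mm p ≫ mm (s.trans qa)) ≫ (Groupoid.inv (mm qa) ≫ mm q) := by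
        simp [mm_trans, Groupoid.inv_eq_inv]
      rw [e]; exact Gmul _ _ h1 h2
    · have hz : z ∈ B := by have := hs 1; rwa [s.target] at this
      obtain ⟨qb, hqb⟩ := ex_path pB hz xB
      have h1 := hp (s.trans qb) (Or.inr (trB qb hs hqb))
      have h2 := Ginv _ (K z q qb hq hqb)
      have e : mm (p.trans s) ≫ mm q =
          (mm p ≫ mm (s.trans qb)) ≫ Groupoid.inv (Groupoid.inv (mm q) ≫ mm qb) := by
        simp [mm_trans, Groupoid.inv_eq_inv]
      rw [e]; exact Gmul _ _ h1 h2
    · have := hp (s.trans q) (Or.inr (trB q hs hq))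
      have e : mm (p.trans s) ≫ mm q = mm p ≫ mm (s.trans q) := by simp [mm_trans]
      rw [e]; exact this
  have Grefl : Good (Path.refl x) := by
    intro q hq
    have e : mm q = 𝟙 _ := by
      rw [← mm_refl]
      rcases hq with hq | hq
      · exact mm_sc hA _ _ hq fun t => xA
      · exact mm_sc hB _ _ hq fun t => xB
    rw [mm_refl, e, Category.comp_id]; exact Gone
  have Ghom : ∀ {y : X} (p q : Path x y), mm p = mm q → Good p → Good q := by
    intro y p q h hp r hr
    rw [← h]; exact hp r hr
  intro α
  induction α using Path.Homotopic.Quotient.ind with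
  | mk γ =>
  obtain ⟨t, t0, tm, ⟨n, hn⟩, ht⟩ := exists_monotone_Icc_subset_open_cover_unitInterval
    (c := fun b : Bool => γ ⁻¹' (if b then A else B)) (by
      intro b; cases b
      · exact hBo.preimage γ.continuous
      · exact hAo.preimage γ.continuous) (by
      intro s _
      have : γ s ∈ A ∪ B := by rw [hAB]; trivial
      rcases this with h | h
      · exact mem_iUnion.2 ⟨true, h⟩
      · exact mem_iUnion.2 ⟨false, h⟩)
  have key : ∀ k : ℕ, Good ((γ.subpath 0 (t k)).cast γ.source.symm rfl) := by
    intro k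
    induction k with
    | zero =>
      intro q hq
      have hw : ∀ s, ((γ.subpath 0 (t 0)).cast γ.source.symm rfl : Path x (γ (t 0))) s = x := by
        intro s
        have h1 : (γ.subpath 0 (t 0)) s ∈ range (γ.subpath 0 (t 0)) := ⟨s, rfl⟩
        rw [Path.range_subpath_of_le _ _ _ (by rw [t0])] at h1
        obtain ⟨u, hu, hu'⟩ := h1
        rw [t0] at hu
        have hu0 : u = 0 := le_antisymm hu.2 hu.1
        change (γ.subpath 0 (t 0)) s = x
        rw [← hu', hu0, γ.source]
      have e : mm ((γ.subpath 0 (t 0)).cast γ.source.symm rfl : Path x (γ (t 0))) ≫ mm q = 𝟙 _ := by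
        rw [← mm_trans, ← mm_refl]
        rcases hq with hq | hq
        · refine mm_sc hA _ _ (fun s => ?_) fun t => xA
          rw [Path.trans_apply]; split_ifs
          · rw [hw]; exact xA
          · exact hq _
        · refine mm_sc hB _ _ (fun s => ?_) fun t => xB
          rw [Path.trans_apply]; split_ifs
          · rw [hw]; exact xB
          · exact hq _
      rw [e]; exact Gone
    | succ k ih =>
      have hs : (∀ s, (γ.subpath (t k) (t (k+1))) s ∈ A) ∨ (∀ s, (γ.subpath (t k) (t (k+1))) s ∈ B) := by
        obtain ⟨b, hb⟩ := ht k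
        have hr : ∀ s, (γ.subpath (t k) (t (k+1))) s ∈ (if b then A else B) := by
          intro s
          have h1 : (γ.subpath (t k) (t (k+1))) s ∈ range (γ.subpath (t k) (t (k+1))) := ⟨s, rfl⟩
          rw [Path.range_subpath_of_le _ _ _ (tm (Nat.le_succ k))] at h1
          obtain ⟨u, hu, hu'⟩ := h1
          rw [← hu']; exact hb hu
        cases b
        · right; simpa using hr
        · left; simpa using hr
      have h1 := Gstep _ _ hs ih
      refine Ghom _ _ ?_ h1
      apply mm_eq
      have h2 : ((γ.subpath 0 (t k)).trans (γ.subpath (t k) (t (k+1)))).Homotopic (γ.subpath 0 (t (k+1))) :=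
        ⟨Path.Homotopy.subpathTransSubpath γ 0 (t k) (t (k+1))⟩
      have h3 := h2.pathCast γ.source.symm rfl
      exact h3
  have h1 := key n
  have tn : t n = 1 := hn n le_rfl
  rw [tn] at h1
  have h2 := h1 ((Path.refl x).cast γ.target rfl) (Or.inl fun s => xA)
  have e : mm ((γ.subpath 0 1).cast γ.source.symm rfl) ≫ mm ((Path.refl x).cast γ.target rfl) = mm γ := by
    rw [← mm_trans]
    have : ((γ.subpath 0 1).cast γ.source.symm rfl).trans ((Path.refl x).cast γ.target rfl) =
        γ.trans (Path.refl x) := by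
      ext s
      rw [Path.trans_apply, Path.trans_apply]; split_ifs
      · change (γ.subpath 0 1) _ = γ _
        rw [Path.subpath_zero_one]; rfl
      · rfl
    rw [this, mm_trans, mm_refl, Category.comp_id]
  rw [e] at h2
  exact h2

theorem pGEN : GEN := by
  intro X _ A B I O hA hB hAB hIO hI hO sA sB x hx
  exact gen_core A B I O hA hB hAB hIO hI hO sA sB x hx

end Pool.Agent.H238.HK
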