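import Pool.Agent.H238.HK.Defs

/-!
# Two simply connected open sets whose intersection is the union of two path connected sets
-/

set_option autoImplicit false

open Topology Set Filter

namespace Pool.Agent.H238.HK

open Pool.Agent.Helper22.LC (core isCov lab lab_inj mono_chart Pers pers_ev ite_ev ite_ev')
open CategoryTheory

section

variable {X : Type} [TopologicalSpace X]

/-- the class of a path -/
private def pc {y z : X} (p : Path y z) :
    FundamentalGroupoid.mk y ⟶ FundamentalGroupoid.mk z := Path.Homotopic.Quotient.mk p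

private theorem pc_trans {y z w : X} (p : Path y z) (q : Path z w) :
    pc (p.trans q) = pc p ≫ pc q := rfl

private theorem pc_refl (x : X) : pc (Path.refl x) = 𝟙 (FundamentalGroupoid.mk x) := rfl

private theorem pc_eq {y z : X} {p q : Path y z} (h : p.Homotopic q) : pc p = pc q :=
  Path.Homotopic.Quotient.eq.2 h

/-- the arrow is represented by a path inside `S` -/
private def InS (S : Set X) {y z : X} (q : FundamentalGroupoid.mk y ⟶ FundamentalGroupoid.mk z) :
    Prop := ∃ p : Path y z, (∀ t, p t ∈ S) ∧ q = pc p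

private theorem hom_of (S : Set X) (hS : SimplyConnectedSpace S) {y z : X} (p q : Path y z)
    (hp : ∀ t, p t ∈ S) (hq : ∀ t, q t ∈ S) : p.Homotopic q := by
  have hy : y ∈ S := by
    have := hp 0
    rwa [p.source] at this
  have hz : z ∈ S := by
    have := hp 1
    rwa [p.target] at this
  let p' : Path (⟨y, hy⟩ : S) ⟨z, hz⟩ :=
    { toFun := fun t => ⟨p t, hp t⟩
      continuous_toFun := by fun_prop
      source' := by simp
      target' := by simp }
  let q' : Path (⟨y, hy⟩ : S) ⟨z, hz⟩ :=
    { toFun := fun t => ⟨q t, hq t⟩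
      continuous_toFun := by fun_prop
      source' := by simp
      target' := by simp }
  have h := SimplyConnectedSpace.paths_homotopic p' q'
  have h2 := h.map ⟨Subtype.val, continuous_subtype_val⟩
  have e1 : p'.map (ContinuousMap.continuous (⟨Subtype.val, continuous_subtype_val⟩ : C(S, X))) =
      p := by
    ext t
    rfl
  have e2 : q'.map (ContinuousMap.continuous (⟨Subtype.val, continuous_subtype_val⟩ : C(S, X))) =
      q := by
    ext t
    rfl
  rw [e1, e2] at h2
  exact h2

private theorem InS_unique {S : Set X} (hS : SimplyConnectedSpace S) {y z : X}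
    {q q' : FundamentalGroupoid.mk y ⟶ FundamentalGroupoid.mk z} (h : InS S q) (h' : InS S q') :
    q = q' := by
  obtain ⟨p, hp, rfl⟩ := h
  obtain ⟨p', hp', rfl⟩ := h'
  exact pc_eq (hom_of S hS p p' hp hp')

private theorem InS_comp {S : Set X} {y z w : X}
    {q : FundamentalGroupoid.mk y ⟶ FundamentalGroupoid.mk z}
    {q' : FundamentalGroupoid.mk z ⟶ FundamentalGroupoid.mk w} (h : InS S q) (h' : InS S q') :
    InS S (q ≫ q') := by
  obtain ⟨p, hp, rfl⟩ := h
  obtain ⟨p', hp', rfl⟩ := h'
  refine ⟨p.trans p', ?_, rfl⟩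
  intro t
  have h1 : (p.trans p') t ∈ range (p.trans p') := ⟨t, rfl⟩
  rw [Path.trans_range] at h1
  rcases h1 with ⟨s, hs⟩ | ⟨s, hs⟩
  · rw [← hs]; exact hp s
  · rw [← hs]; exact hp' s

private theorem InS_exists {S : Set X} (hS : PathConnectedSpace S) {y z : X} (hy : y ∈ S)
    (hz : z ∈ S) : ∃ q : FundamentalGroupoid.mk y ⟶ FundamentalGroupoid.mk z, InS S q := by
  obtain ⟨p, hp⟩ := (isPathConnected_iff_pathConnectedSpace.2 hS).joinedIn y hy z hz
  exact ⟨pc p, p, hp, rfl⟩

private theorem InS_joined {I S : Set X} (hI : IsPathConnected I) (hIS : I ⊆ S) {y z : X}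
    (hy : y ∈ I) (hz : z ∈ I) : ∃ p : Path y z, (∀ t, p t ∈ I) ∧ InS S (pc p) := by
  obtain ⟨p, hp⟩ := hI.joinedIn y hy z hz
  exact ⟨p, hp, p, fun t => hIS (hp t), rfl⟩

/-- all products with arrows in `S` back to `x` are in `Z` -/
private def HS (S : Set X) (x : X) (Z : Subgroup (FundamentalGroup X x)) (y : X)
    (q : FundamentalGroupoid.mk x ⟶ FundamentalGroupoid.mk y) : Prop :=
  ∀ a : FundamentalGroupoid.mk y ⟶ FundamentalGroupoid.mk x, InS S a →
    (show FundamentalGroup X x from q ≫ a) ∈ Z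

private theorem HS_step {S : Set X} {x : X} {Z : Subgroup (FundamentalGroup X x)} {y z : X}
    {q : FundamentalGroupoid.mk x ⟶ FundamentalGroupoid.mk y} (h : HS S x Z y q) (p : Path y z)
    (hp : ∀ t, p t ∈ S) : HS S x Z z (q ≫ pc p) := by
  intro a ha
  have h1 := h (pc p ≫ a) (InS_comp ⟨p, hp, rfl⟩ ha)
  have e : (q ≫ pc p) ≫ a = q ≫ (pc p ≫ a) := Category.assoc _ _ _
  rw [e]
  exact h1

end

theorem pGEN : GEN := by
  intro X _ A B I O hA hB hAB hIO hI hO hsA hsB x hx
  have hOA : O ⊆ A := fun y hy => (show y ∈ A ∩ B by rw [hIO]; exact Or.inr hy).1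
  have hOB : O ⊆ B := fun y hy => (show y ∈ A ∩ B by rw [hIO]; exact Or.inr hy).2
  have hIA : I ⊆ A := fun y hy => (show y ∈ A ∩ B by rw [hIO]; exact Or.inl hy).1
  have hIB : I ⊆ B := fun y hy => (show y ∈ A ∩ B by rw [hIO]; exact Or.inl hy).2
  obtain ⟨y0, hy0⟩ := hI.nonempty
  have hpA : PathConnectedSpace A := inferInstance
  have hpB : PathConnectedSpace B := inferInstance
  obtain ⟨cA, hcA⟩ := InS_exists hpA (hIA hy0) (hOA hx)
  obtain ⟨cB, hcB⟩ := InS_exists hpB (hIB hy0) (hOB hx)
  let g : FundamentalGroup X x := Groupoid.inv cA ≫ cB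
  refine ⟨g, ?_⟩
  set Z : Subgroup (FundamentalGroup X x) := Subgroup.zpowers g with hZ
  -- claim 1
  have claim : ∀ (y : X) (q : FundamentalGroupoid.mk x ⟶ FundamentalGroupoid.mk y)
      (a b : FundamentalGroupoid.mk y ⟶ FundamentalGroupoid.mk x), y ∈ A → y ∈ B → InS A a →
      InS B b → ((show FundamentalGroup X x from q ≫ a) ∈ Z ↔
        (show FundamentalGroup X x from q ≫ b) ∈ Z) := by
    intro y q a b hyA hyB ha hb
    have hy : y ∈ I ∪ O := by rw [← hIO]; exact ⟨hyA, hyB⟩
    rcases hy with hy | hy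
    · obtain ⟨p, hp, hpS⟩ := InS_joined hI hIA hy hy0
      have e1 : a = pc p ≫ cA := InS_unique hsA ha (InS_comp hpS hcA)
      have e2 : b = pc p ≫ cB :=
        InS_unique hsB hb (InS_comp ⟨p, fun t => hIB (hp t), rfl⟩ hcB)
      have e3 : b = a ≫ (Groupoid.inv cA ≫ cB) := by
        rw [e1, e2, Category.assoc, ← Category.assoc cA, Groupoid.comp_inv, Category.id_comp]
      have e4 : (show FundamentalGroup X x from q ≫ b) =
          g * (show FundamentalGroup X x from q ≫ a) := by
        show q ≫ b = (q ≫ a) ≫ (Groupoid.inv cA ≫ cB)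
        rw [e3, Category.assoc]
      rw [e4]
      exact (Z.mul_mem_cancel_left (Subgroup.mem_zpowers g)).symm
    · obtain ⟨p, hp, hpS⟩ := InS_joined hO hOA hy hx
      have e1 : a = pc p := InS_unique hsA ha hpS
      have e2 : b = pc p := InS_unique hsB hb ⟨p, fun t => hOB (hp t), rfl⟩
      rw [e1, e2]
  have mem0 : ∀ (S : Set X) (y z : X) (a : FundamentalGroupoid.mk y ⟶ FundamentalGroupoid.mk z),
      InS S a → y ∈ S := by
    rintro S y z a ⟨p, hp, -⟩
    have := hp 0
    rwa [p.source] at this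
  -- claim 2
  have stepA : ∀ (y z : X) (q : FundamentalGroupoid.mk x ⟶ FundamentalGroupoid.mk y)
      (p : Path y z), (∀ t, p t ∈ A) → HS A x Z y q →
      HS A x Z z (q ≫ pc p) ∧ HS B x Z z (q ≫ pc p) := by
    intro y z q p hp h
    have h1 := HS_step h p hp
    refine ⟨h1, fun b hb => ?_⟩
    have hzA : z ∈ A := by
      have := hp 1
      rwa [p.target] at this
    obtain ⟨a, ha⟩ := InS_exists hpA hzA (hOA hx)
    exact (claim z _ a b hzA (mem0 B z x b hb) ha hb).1 (h1 a ha)
  have stepB : ∀ (y z : X) (q : FundamentalGroupoid.mk x ⟶ FundamentalGroupoid.mk y)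
      (p : Path y z), (∀ t, p t ∈ B) → HS B x Z y q →
      HS A x Z z (q ≫ pc p) ∧ HS B x Z z (q ≫ pc p) := by
    intro y z q p hp h
    have h1 := HS_step h p hp
    refine ⟨fun a ha => ?_, h1⟩
    have hzB : z ∈ B := by
      have := hp 1
      rwa [p.target] at this
    obtain ⟨b, hb⟩ := InS_exists hpB hzB (hOB hx)
    exact (claim z _ a b (mem0 A z x a ha) hzB ha hb).2 (h1 b hb)
  -- all paths
  have main : ∀ (u v : X) (γ : Path u v) (q : FundamentalGroupoid.mk x ⟶ FundamentalGroupoid.mk u),
      HS A x Z u q ∧ HS B x Z u q → HS A x Z v (q ≫ pc γ) ∧ HS B x Z v (q ≫ pc γ) := by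
    intro u v γ
    obtain ⟨t, ht0, htm, ⟨N, hN⟩, htc⟩ := exists_monotone_Icc_subset_open_cover_unitInterval
      (c := fun b : Bool => γ ⁻¹' (if b then A else B))
      (fun b => by cases b <;> simp only [Bool.false_eq_true, if_false, if_true] <;>
        [exact hB.preimage γ.continuous; exact hA.preimage γ.continuous])
      (by
        intro s _
        have : γ s ∈ A ∪ B := by rw [hAB]; trivial
        rcases this with h | h
        · exact mem_iUnion.2 ⟨true, by simpa using h⟩
        · exact mem_iUnion.2 ⟨false, by simpa using h⟩)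
    have hind : ∀ (n : ℕ) (q : FundamentalGroupoid.mk x ⟶ FundamentalGroupoid.mk (γ (t 0))),
        HS A x Z _ q ∧ HS B x Z _ q →
        HS A x Z _ (q ≫ pc (γ.subpath (t 0) (t n))) ∧
          HS B x Z _ (q ≫ pc (γ.subpath (t 0) (t n))) := by
      intro n
      induction n with
      | zero =>
        intro q hq
        have e : q ≫ pc (γ.subpath (t 0) (t 0)) = q := by
          rw [Path.subpath_self, pc_refl, Category.comp_id]
        rw [e]
        exact hq
      | succ n ih =>
        intro q hq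
        have h1 := ih q hq
        have e : q ≫ pc (γ.subpath (t 0) (t (n + 1))) =
            (q ≫ pc (γ.subpath (t 0) (t n))) ≫ pc (γ.subpath (t n) (t (n + 1))) := by
          rw [Category.assoc, ← pc_trans]
          congr 1
          exact (pc_eq ⟨Path.Homotopy.subpathTransSubpath γ (t 0) (t n) (t (n + 1))⟩).symm
        rw [e]
        obtain ⟨b, hb⟩ := htc n
        have hmem : ∀ s, (γ.subpath (t n) (t (n + 1))) s ∈ (if b then A else B) := by
          intro s
          have h2 : (γ.subpath (t n) (t (n + 1))) s ∈ range (γ.subpath (t n) (t (n + 1))) :=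
            ⟨s, rfl⟩
          rw [Path.range_subpath_of_le _ _ _ (htm (Nat.le_succ n))] at h2
          obtain ⟨r, hr, hrs⟩ := h2
          rw [← hrs]
          exact hb hr
        cases b with
        | true => exact stepA _ _ _ _ (by simpa using hmem) h1.1
        | false => exact stepB _ _ _ _ (by simpa using hmem) h1.2
    have hfin := hind N
    rw [hN N le_rfl, ht0] at hfin
    rw [Path.subpath_zero_one] at hfin
    have gen : ∀ (u' v' : X) (hu : u' = u) (hv : v' = v),
        (∀ q : FundamentalGroupoid.mk x ⟶ FundamentalGroupoid.mk u',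
          HS A x Z u' q ∧ HS B x Z u' q →
          HS A x Z v' (q ≫ pc (γ.cast hu hv)) ∧ HS B x Z v' (q ≫ pc (γ.cast hu hv))) →
        (∀ q : FundamentalGroupoid.mk x ⟶ FundamentalGroupoid.mk u,
          HS A x Z u q ∧ HS B x Z u q →
          HS A x Z v (q ≫ pc γ) ∧ HS B x Z v (q ≫ pc γ)) := by
      rintro u' v' rfl rfl h
      exact h
    exact gen _ _ γ.source γ.target hfin
  intro α
  obtain ⟨γ, hγ⟩ := Path.Homotopic.Quotient.mk_surjective (α : Path.Homotopic.Quotient x x)
  have hrA : InS A (𝟙 (FundamentalGroupoid.mk x)) := ⟨Path.refl x, fun _ => hOA hx, rfl⟩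
  have hrB : InS B (𝟙 (FundamentalGroupoid.mk x)) := ⟨Path.refl x, fun _ => hOB hx, rfl⟩
  have h0 : HS A x Z x (𝟙 _) ∧ HS B x Z x (𝟙 _) := by
    refine ⟨fun a ha => ?_, fun b hb => ?_⟩
    · rw [InS_unique hsA ha hrA]
      have e : (𝟙 (FundamentalGroupoid.mk x) ≫ 𝟙 (FundamentalGroupoid.mk x)) =
        𝟙 (FundamentalGroupoid.mk x) := Category.id_comp _
      rw [e]
      exact Z.one_mem
    · rw [InS_unique hsB hb hrB]
      have e : (𝟙 (FundamentalGroupoid.mk x) ≫ 𝟙 (FundamentalGroupoid.mk x)) =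
        𝟙 (FundamentalGroupoid.mk x) := Category.id_comp _
      rw [e]
      exact Z.one_mem
  have h1 := (main x x γ (𝟙 _) h0).1 (𝟙 _) hrA
  have e : (𝟙 (FundamentalGroupoid.mk x) ≫ pc γ) ≫ 𝟙 (FundamentalGroupoid.mk x) = pc γ := by
    rw [Category.id_comp, Category.comp_id]
  rw [e] at h1
  have e2 : (show FundamentalGroup X x from pc γ) = α := hγ
  rw [e2] at h1
  exact h1

end Pool.Agent.H238.HK
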