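import Pool.Agent.H238.HK.Defs

set_option autoImplicit false

open Topology Set Filter

namespace Pool.Agent.H238.HK

open Pool.Agent.Helper22.LC (core isCov lab lab_inj mono_chart Pers pers_ev ite_ev ite_ev')

open Path.Homotopic (Quotient) in
/-- element of the fundamental group given by a loop -/
private def el {X : Type} [TopologicalSpace X] {x : X} (p : Path.Homotopic.Quotient x x) :
    FundamentalGroup X x := p

private lemma el_mul {X : Type} [TopologicalSpace X] {x : X} (p q : Path.Homotopic.Quotient x x) :
    el (p.trans q) = el q * el p := rfl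

private lemma el_symm {X : Type} [TopologicalSpace X] {x : X} (p : Path.Homotopic.Quotient x x) :
    el p.symm = (el p)⁻¹ := rfl

/-- In a simply connected subset all paths with the same end points are homotopic. -/
private lemma sc_htp {X : Type} [TopologicalSpace X] {S : Set X} (hS : SimplyConnectedSpace S)
    {y z : X} (p q : Path y z) (hp : ∀ t, p t ∈ S) (hq : ∀ t, q t ∈ S) :
    Path.Homotopic.Quotient.mk p = Path.Homotopic.Quotient.mk q := by
  have hy : y ∈ S := by simpa using hp 0
  have hz : z ∈ S := by simpa using hp 1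
  let p' : Path (⟨y, hy⟩ : S) ⟨z, hz⟩ :=
    { toFun := fun t => ⟨p t, hp t⟩
      continuous_toFun := by fun_prop
      source' := by simp
      target' := by simp }
  let q' : Path (⟨y, hy⟩ : S) ⟨z, hz⟩ :=
    { toFun := fun t => ⟨q t, hq t⟩
      continuous_toFun := by fun_prop
      source' := by simp
      target' := by simp }
  have h : p'.Homotopic q' := SimplyConnectedSpace.paths_homotopic p' q'
  have h2 := h.map (⟨Subtype.val, continuous_subtype_val⟩ : C(S, X))
  exact Path.Homotopic.Quotient.eq.2 h2

private lemma step {X : Type} [TopologicalSpace X] {A B I O : Set X}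
    (hB : SimplyConnectedSpace B) (hAB : A ∩ B = I ∪ O) (hI : IsPathConnected I)
    (hO : IsPathConnected O) {x y0 : X} (hx : x ∈ O) (hy0 : y0 ∈ I)
    (pA pB : Path y0 x) (hpA : ∀ t, pA t ∈ A) (hpB : ∀ t, pB t ∈ B)
    (H : Subgroup (FundamentalGroup X x))
    (hg : el ((Path.Homotopic.Quotient.mk pA).symm.trans (Path.Homotopic.Quotient.mk pB)) ∈ H)
    {y z : X} (c : Path.Homotopic.Quotient x y) (σ : Path y z) (hσ : ∀ t, σ t ∈ A)
    (hc : ∀ p : Path y x, (∀ t, p t ∈ A) → el (c.trans (Path.Homotopic.Quotient.mk p)) ∈ H)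
    (p : Path z x) (hp : ∀ t, p t ∈ B) :
    el ((c.trans (Path.Homotopic.Quotient.mk σ)).trans (Path.Homotopic.Quotient.mk p)) ∈ H := by
  have hz : z ∈ A ∩ B := ⟨by simpa using hσ 1, by simpa using hp 0⟩
  have hIA : I ⊆ A ∩ B := by rw [hAB]; exact subset_union_left
  have hOA : O ⊆ A ∩ B := by rw [hAB]; exact subset_union_right
  rw [hAB] at hz
  rcases hz with hz | hz
  · obtain ⟨r, hr⟩ := hI.joinedIn z hz y0 hy0
    have h1 : Path.Homotopic.Quotient.mk p = Path.Homotopic.Quotient.mk (r.trans pB) := by
      apply sc_htp hB p _ hp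
      intro t
      have : (r.trans pB) t ∈ range (r.trans pB) := mem_range_self t
      rw [Path.trans_range] at this
      rcases this with ⟨s, hs⟩ | ⟨s, hs⟩
      · rw [← hs]; exact (hIA (hr s)).2
      · rw [← hs]; exact hpB s
    have h2 : el ((c.trans (Path.Homotopic.Quotient.mk σ)).trans (Path.Homotopic.Quotient.mk p)) =
        el ((Path.Homotopic.Quotient.mk pA).symm.trans (Path.Homotopic.Quotient.mk pB)) *
        el (c.trans (Path.Homotopic.Quotient.mk (σ.trans (r.trans pA)))) := by
      rw [← el_mul, h1]
      simp only [Path.Homotopic.Quotient.mk_trans, Path.Homotopic.Quotient.trans_assoc]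
      congr 4
      rw [← Path.Homotopic.Quotient.trans_assoc (Path.Homotopic.Quotient.mk pA),
        Path.Homotopic.Quotient.trans_symm, Path.Homotopic.Quotient.refl_trans]
    rw [h2]
    refine H.mul_mem hg (hc _ ?_)
    intro t
    have : (σ.trans (r.trans pA)) t ∈ range (σ.trans (r.trans pA)) := mem_range_self t
    rw [Path.trans_range, Path.trans_range] at this
    rcases this with ⟨s, hs⟩ | ⟨s, hs⟩ | ⟨s, hs⟩
    · rw [← hs]; exact hσ s
    · rw [← hs]; exact (hIA (hr s)).1
    · rw [← hs]; exact hpA s
  · obtain ⟨r, hr⟩ := hO.joinedIn z hz x hx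
    have h1 : Path.Homotopic.Quotient.mk p = Path.Homotopic.Quotient.mk r :=
      sc_htp hB p r hp (fun t => (hOA (hr t)).2)
    rw [h1, Path.Homotopic.Quotient.trans_assoc, ← Path.Homotopic.Quotient.mk_trans]
    apply hc
    intro t
    have : (σ.trans r) t ∈ range (σ.trans r) := mem_range_self t
    rw [Path.trans_range] at this
    rcases this with ⟨s, hs⟩ | ⟨s, hs⟩
    · rw [← hs]; exact hσ s
    · rw [← hs]; exact (hOA (hr s)).1

private lemma stepA {X : Type} [TopologicalSpace X] {A : Set X}
    {x y z : X} (H : Subgroup (FundamentalGroup X x))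
    (c : Path.Homotopic.Quotient x y) (σ : Path y z) (hσ : ∀ t, σ t ∈ A)
    (hc : ∀ p : Path y x, (∀ t, p t ∈ A) → el (c.trans (Path.Homotopic.Quotient.mk p)) ∈ H)
    (p : Path z x) (hp : ∀ t, p t ∈ A) :
    el ((c.trans (Path.Homotopic.Quotient.mk σ)).trans (Path.Homotopic.Quotient.mk p)) ∈ H := by
  rw [Path.Homotopic.Quotient.trans_assoc, ← Path.Homotopic.Quotient.mk_trans]
  apply hc
  intro t
  have : (σ.trans p) t ∈ range (σ.trans p) := mem_range_self t
  rw [Path.trans_range] at this
  rcases this with ⟨s, hs⟩ | ⟨s, hs⟩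
  · rw [← hs]; exact hσ s
  · rw [← hs]; exact hp s

private lemma cast_tr {X : Type} [TopologicalSpace X] {x a b c : X} (h : x = a) (p : Path a b)
    (q : Path b c) (r : Path a c) (hh : (p.trans q).Homotopic r) :
    (Path.Homotopic.Quotient.mk (p.cast h rfl)).trans (Path.Homotopic.Quotient.mk q) =
      Path.Homotopic.Quotient.mk (r.cast h rfl) := by
  subst h
  rw [← Path.Homotopic.Quotient.mk_trans]
  exact Path.Homotopic.Quotient.eq.2 hh

theorem pGEN : GEN := by
  intro X _ A B I O hAo hBo hU hAB hI hO hA hB x hx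
  obtain ⟨y0, hy0⟩ := hI.nonempty
  have hIA : I ⊆ A ∩ B := by rw [hAB]; exact subset_union_left
  have hOA : O ⊆ A ∩ B := by rw [hAB]; exact subset_union_right
  have hApc : IsPathConnected A := isPathConnected_iff_pathConnectedSpace.2 inferInstance
  have hBpc : IsPathConnected B := isPathConnected_iff_pathConnectedSpace.2 inferInstance
  obtain ⟨pA, hpA⟩ := hApc.joinedIn y0 (hIA hy0).1 x (hOA hx).1
  obtain ⟨pB, hpB⟩ := hBpc.joinedIn y0 (hIA hy0).2 x (hOA hx).2
  refine ⟨el ((Path.Homotopic.Quotient.mk pA).symm.trans (Path.Homotopic.Quotient.mk pB)), ?_⟩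
  set g := el ((Path.Homotopic.Quotient.mk pA).symm.trans (Path.Homotopic.Quotient.mk pB)) with hgdef
  set H := Subgroup.zpowers g with hH
  have hg : g ∈ H := Subgroup.mem_zpowers g
  have hg' : el ((Path.Homotopic.Quotient.mk pB).symm.trans (Path.Homotopic.Quotient.mk pA)) ∈ H := by
    have : el ((Path.Homotopic.Quotient.mk pB).symm.trans (Path.Homotopic.Quotient.mk pA)) * g = 1 := by
      rw [hgdef, ← el_mul]
      rw [Path.Homotopic.Quotient.trans_assoc,
        ← Path.Homotopic.Quotient.trans_assoc (Path.Homotopic.Quotient.mk pB),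
        Path.Homotopic.Quotient.trans_symm, Path.Homotopic.Quotient.refl_trans,
        Path.Homotopic.Quotient.symm_trans]
      rfl
    rw [eq_inv_of_mul_eq_one_left this]
    exact H.inv_mem hg
  intro α
  obtain ⟨γ, rfl⟩ := Path.Homotopic.Quotient.mk_surjective α
  -- the claim at time s
  let Q : unitInterval → Prop := fun s =>
    (∀ p : Path (γ s) x, (∀ t, p t ∈ A) →
      el ((Path.Homotopic.Quotient.mk ((γ.subpath 0 s).cast γ.source.symm rfl)).trans
        (Path.Homotopic.Quotient.mk p)) ∈ H) ∧
    (∀ p : Path (γ s) x, (∀ t, p t ∈ B) →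
      el ((Path.Homotopic.Quotient.mk ((γ.subpath 0 s).cast γ.source.symm rfl)).trans
        (Path.Homotopic.Quotient.mk p)) ∈ H)
  obtain ⟨t, ht0, htm, ⟨n, hn⟩, hsub⟩ := exists_monotone_Icc_subset_open_cover_unitInterval
    (ι := Bool) (c := fun b => if b then γ ⁻¹' A else γ ⁻¹' B)
    (by
      intro b
      cases b
      · simpa using hBo.preimage γ.continuous
      · simpa using hAo.preimage γ.continuous)
    (by
      intro s _
      have : γ s ∈ A ∪ B := by rw [hU]; trivial
      rcases this with h | h
      · exact mem_iUnion.2 ⟨true, by simpa using h⟩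
      · exact mem_iUnion.2 ⟨false, by simpa using h⟩)
  have hstart : Q 0 := by
    have key : ∀ S : Set X, SimplyConnectedSpace S → x ∈ S → ∀ p : Path (γ 0) x, (∀ t, p t ∈ S) →
        el ((Path.Homotopic.Quotient.mk ((γ.subpath 0 0).cast γ.source.symm rfl)).trans
        (Path.Homotopic.Quotient.mk p)) ∈ H := by
      intro S hS hxS p hp
      have : (Path.Homotopic.Quotient.mk ((γ.subpath 0 0).cast γ.source.symm rfl)).trans
        (Path.Homotopic.Quotient.mk p) = Path.Homotopic.Quotient.mk (Path.refl x) := by
        rw [← Path.Homotopic.Quotient.mk_trans]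
        apply sc_htp hS
        · intro t
          have : (((γ.subpath 0 0).cast γ.source.symm rfl).trans p) t ∈
            range (((γ.subpath 0 0).cast γ.source.symm rfl).trans p) := mem_range_self t
          rw [Path.trans_range] at this
          rcases this with ⟨s, hs⟩ | ⟨s, hs⟩
          · rw [← hs]
            simp only [Path.subpath_self, Path.cast_coe, Path.refl_apply]
            rw [γ.source]; exact hxS
          · rw [← hs]; exact hp s
        · intro t; simpa using hxS
      rw [this]
      exact H.one_mem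
    exact ⟨key A hA (hOA hx).1, key B hB (hOA hx).2⟩
  have hBA : B ∩ A = I ∪ O := by rw [inter_comm]; exact hAB
  have hall : ∀ k, Q (t k) := by
    intro k
    induction k with
    | zero => rw [ht0]; exact hstart
    | succ k ih =>
      have hle : t k ≤ t (k+1) := htm (Nat.le_succ k)
      have hcc := cast_tr γ.source.symm (γ.subpath 0 (t k)) (γ.subpath (t k) (t (k+1)))
        (γ.subpath 0 (t (k+1))) ⟨Path.Homotopy.subpathTransSubpath γ 0 (t k) (t (k+1))⟩
      obtain ⟨b, hb⟩ := hsub k
      have hrange : ∀ s, (γ.subpath (t k) (t (k+1))) s ∈ γ '' Icc (t k) (t (k+1)) := by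
        intro s
        rw [← Path.range_subpath_of_le γ _ _ hle]
        exact mem_range_self s
      cases b
      · have hσ : ∀ s, (γ.subpath (t k) (t (k+1))) s ∈ B := by
          intro s
          obtain ⟨u, hu, hus⟩ := hrange s
          rw [← hus]
          have := hb hu
          simpa using this
        refine ⟨fun p hp => ?_, fun p hp => ?_⟩
        · rw [← hcc]
          exact step hA hBA hI hO hx hy0 pB pA hpB hpA H hg' _ _ hσ ih.2 p hp
        · rw [← hcc]
          exact stepA H _ _ hσ ih.2 p hp
      · have hσ : ∀ s, (γ.subpath (t k) (t (k+1))) s ∈ A := by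
          intro s
          obtain ⟨u, hu, hus⟩ := hrange s
          rw [← hus]
          have := hb hu
          simpa using this
        refine ⟨fun p hp => ?_, fun p hp => ?_⟩
        · rw [← hcc]
          exact stepA H _ _ hσ ih.1 p hp
        · rw [← hcc]
          exact step hB hAB hI hO hx hy0 pA pB hpA hpB H hg _ _ hσ ih.1 p hp
  have hend : Q 1 := by rw [← hn n le_rfl]; exact hall n
  have := hend.1 ((Path.refl x).cast γ.target rfl) (fun s => by simpa using (hOA hx).1)
  have e : (Path.Homotopic.Quotient.mk ((γ.subpath 0 1).cast γ.source.symm rfl)).trans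
      (Path.Homotopic.Quotient.mk ((Path.refl x).cast γ.target rfl)) = Path.Homotopic.Quotient.mk γ := by
    rw [← Path.Homotopic.Quotient.mk_trans]
    have e2 : ((γ.subpath 0 1).cast γ.source.symm rfl).trans ((Path.refl x).cast γ.target rfl) =
        γ.trans (Path.refl x) := by
      rw [Path.subpath_zero_one]
      ext s
      simp [Path.trans_apply]
    rw [e2]
    exact Path.Homotopic.Quotient.eq.2 ⟨Path.Homotopy.transRefl γ⟩
  rw [e] at this
  exact this

end Pool.Agent.H238.HK
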