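import Pool.Agent.H238.HK.Defs

/-!
# Project HK: the face labels are locally constant off the diagram (helper674)
-/

set_option autoImplicit false

open Topology Set Filter

namespace Pool.Agent.H238.HK

open Pool.Agent.Helper22.LC (core isCov lab lab_inj mono_chart Pers pers_ev ite_ev ite_ev')

private theorem persL {w a a' : ℝ} (h : Pers w a a') : a < w → a' < w := by
  intro q
  rcases h with ⟨_, h⟩ | h | ⟨h, _⟩
  · exact h
  · linarith
  · linarith

private theorem persG {w a a' : ℝ} (h : Pers w a a') : w < a → w < a' := by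
  intro q
  rcases h with ⟨h, _⟩ | h | ⟨_, h⟩
  · linarith
  · linarith
  · exact h

theorem pGUV : GUV := by
  intro x y x' y' h x1 x0 y1 y0 s1 s2
  have e1 : ¬ (y = 0 ∧ -1 ≤ x ∧ x ≤ 2) := fun q => h (Or.inl q)
  have e2 : ¬ (x + y = 2 ∧ 0 ≤ x ∧ 0 ≤ y) := fun q => h (Or.inr (Or.inl q))
  have e3 : ¬ (x = 0 ∧ -1 ≤ y ∧ y ≤ 2) := fun q => h (Or.inr (Or.inr (Or.inl q)))
  have e4 : ¬ (y = -1 ∧ 0 ≤ x ∧ x ≤ 2) := fun q => h (Or.inr (Or.inr (Or.inr (Or.inl q))))
  have e5 : ¬ (x + y = 1 ∧ -1 ≤ x ∧ x ≤ 2) :=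
    fun q => h (Or.inr (Or.inr (Or.inr (Or.inr (Or.inl q)))))
  have e6 : ¬ (x = -1 ∧ 0 ≤ y ∧ y ≤ 2) :=
    fun q => h (Or.inr (Or.inr (Or.inr (Or.inr (Or.inr q)))))
  have x1L := persL x1
  have x1G := persG x1
  have x0L := persL x0
  have x0G := persG x0
  have y1L := persL y1
  have y1G := persG y1
  have y0L := persL y0
  have y0G := persG y0
  have s1L := persL s1
  have s1G := persG s1
  have s2L := persL s2
  have s2G := persG s2
  have A : (0 ≤ x' ∧ 0 ≤ y' ∧ x' + y' ≤ 1) ↔ (0 ≤ x ∧ 0 ≤ y ∧ x + y ≤ 1) := by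
    constructor
    · rintro ⟨a, b, c⟩
      refine ⟨?_, ?_, ?_⟩
      · by_contra q
        have := x0L (not_le.1 q)
        linarith
      · by_contra q
        have := y0L (not_le.1 q)
        linarith
      · by_contra q
        have := s1G (not_le.1 q)
        linarith
    · rintro ⟨a, b, c⟩
      have a' : 0 < x := lt_of_le_of_ne a (fun q => e3 ⟨q.symm, by linarith, by linarith⟩)
      have b' : 0 < y := lt_of_le_of_ne b (fun q => e1 ⟨q.symm, by linarith, by linarith⟩)
      have c' : x + y < 1 := lt_of_le_of_ne c (fun q => e5 ⟨q, by linarith, by linarith⟩)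
      exact ⟨(x0G a').le, (y0G b').le, (s1L c').le⟩
  have B : (0 ≤ x' ∧ 0 ≤ y' ∧ x' + y' < 2) ↔ (0 ≤ x ∧ 0 ≤ y ∧ x + y < 2) := by
    constructor
    · rintro ⟨a, b, c⟩
      have a' : 0 ≤ x := by
        by_contra q
        have := x0L (not_le.1 q)
        linarith
      have b' : 0 ≤ y := by
        by_contra q
        have := y0L (not_le.1 q)
        linarith
      have c' : x + y ≤ 2 := by
        by_contra q
        have := s2G (not_le.1 q)
        linarith
      exact ⟨a', b', lt_of_le_of_ne c' (fun q => e2 ⟨q, a', b'⟩)⟩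
    · rintro ⟨a, b, c⟩
      have a' : 0 < x := lt_of_le_of_ne a (fun q => e3 ⟨q.symm, by linarith, by linarith⟩)
      have b' : 0 < y := lt_of_le_of_ne b (fun q => e1 ⟨q.symm, by linarith, by linarith⟩)
      exact ⟨(x0G a').le, (y0G b').le, s2L c⟩
  have C : (-1 < y' ∧ y' < 0 ∧ 0 < x' ∧ x' + y' ≤ 1) ↔ (-1 < y ∧ y < 0 ∧ 0 < x ∧ x + y ≤ 1) := by
    constructor
    · rintro ⟨a, b, c, d⟩
      have a' : -1 ≤ y := by
        by_contra q
        have := y1L (not_le.1 q)
        linarith
      have b' : y ≤ 0 := by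
        by_contra q
        have := y0G (not_le.1 q)
        linarith
      have c' : 0 ≤ x := by
        by_contra q
        have := x0L (not_le.1 q)
        linarith
      have d' : x + y ≤ 1 := by
        by_contra q
        have := s1G (not_le.1 q)
        linarith
      refine ⟨lt_of_le_of_ne a' (fun q => e4 ⟨q.symm, c', by linarith⟩),
        lt_of_le_of_ne b' (fun q => e1 ⟨q, by linarith, by linarith⟩),
        lt_of_le_of_ne c' (fun q => e3 ⟨q.symm, a', by linarith⟩), d'⟩
    · rintro ⟨a, b, c, d⟩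
      have d' : x + y < 1 := lt_of_le_of_ne d (fun q => e5 ⟨q, by linarith, by linarith⟩)
      exact ⟨y1G a, y0L b, x0G c, (s1L d').le⟩
  have D : (-1 < x' ∧ x' < 0 ∧ 0 ≤ y' ∧ x' + y' < 1) ↔ (-1 < x ∧ x < 0 ∧ 0 ≤ y ∧ x + y < 1) := by
    constructor
    · rintro ⟨a, b, c, d⟩
      have a' : -1 ≤ x := by
        by_contra q
        have := x1L (not_le.1 q)
        linarith
      have b' : x ≤ 0 := by
        by_contra q
        have := x0G (not_le.1 q)
        linarith
      have c' : 0 ≤ y := by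
        by_contra q
        have := y0L (not_le.1 q)
        linarith
      have d' : x + y ≤ 1 := by
        by_contra q
        have := s1G (not_le.1 q)
        linarith
      refine ⟨lt_of_le_of_ne a' (fun q => e6 ⟨q.symm, c', by linarith⟩),
        lt_of_le_of_ne b' (fun q => e3 ⟨q, by linarith, by linarith⟩), c',
        lt_of_le_of_ne d' (fun q => e5 ⟨q, a', by linarith⟩)⟩
    · rintro ⟨a, b, c, d⟩
      have c' : 0 < y := lt_of_le_of_ne c (fun q => e1 ⟨q.symm, by linarith, by linarith⟩)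
      exact ⟨x1G a, x0L b, (y0G c').le, s1L d⟩
  unfold gg
  simp only [A, B, C, D]

end Pool.Agent.H238.HK
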