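import Pool.Agent.H238.HK.Defs

/-!
# The face labels are locally constant off the diagram (helper163)
-/

set_option autoImplicit false

open Topology Set Filter

namespace Pool.Agent.H238.HK

open Pool.Agent.Helper22.LC (core isCov lab lab_inj mono_chart Pers pers_ev ite_ev ite_ev')

private theorem gA {x y : ℝ} (h1 : 0 < x) (h2 : 0 < y) (h3 : x + y < 1) :
    gg x y = pa * pb := by
  unfold gg
  rw [if_pos ⟨h1.le, h2.le, h3.le⟩]

private theorem gB {x y : ℝ} (h1 : 0 < x) (h2 : 0 < y) (h3 : 1 < x + y) (h4 : x + y < 2) :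
    gg x y = pa := by
  unfold gg
  rw [if_neg (fun h => by linarith [h.2.2]), if_pos ⟨h1.le, h2.le, h4⟩]

private theorem gC {x y : ℝ} (h1 : 0 < x) (h2 : y < 0) (h3 : -1 < y) (h4 : x + y < 1) :
    gg x y = pb := by
  unfold gg
  rw [if_neg (fun h => by linarith [h.2.1]), if_neg (fun h => by linarith [h.2.1]),
    if_pos ⟨h3, h2, h1, h4.le⟩]

private theorem gD {x y : ℝ} (h1 : x < 0) (h2 : 0 < y) (h3 : -1 < x) (h4 : x + y < 1) :
    gg x y = pa * pb * pa := by
  unfold gg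
  rw [if_neg (fun h => by linarith [h.1]), if_neg (fun h => by linarith [h.1]),
    if_neg (fun h => by linarith [h.2.1]), if_pos ⟨h3, h1, h2.le, h4⟩]

private theorem gN {x y : ℝ} (h1 : ¬ (0 ≤ x ∧ 0 ≤ y ∧ x + y < 2))
    (h2 : ¬ (-1 < y ∧ y < 0 ∧ 0 < x ∧ x + y ≤ 1))
    (h3 : ¬ (-1 < x ∧ x < 0 ∧ 0 ≤ y ∧ x + y < 1)) : gg x y = 1 := by
  unfold gg
  rw [if_neg (fun h => h1 ⟨h.1, h.2.1, by linarith [h.2.2]⟩), if_neg h1, if_neg h2, if_neg h3]

private theorem n1 {x y : ℝ} (h : x < -1) : gg x y = 1 :=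
  gN (fun k => by linarith [k.1]) (fun k => by linarith [k.2.2.1]) (fun k => by linarith [k.1])

private theorem n2 {x y : ℝ} (h : y < -1) : gg x y = 1 :=
  gN (fun k => by linarith [k.2.1]) (fun k => by linarith [k.1]) (fun k => by linarith [k.2.2.1])

private theorem n3 {x y : ℝ} (h : x < 0) (h' : y < 0) : gg x y = 1 :=
  gN (fun k => by linarith [k.1]) (fun k => by linarith [k.2.2.1])
    (fun k => by linarith [k.2.2.1])

private theorem n4 {x y : ℝ} (h : 2 < x + y) : gg x y = 1 :=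
  gN (fun k => by linarith [k.2.2]) (fun k => by linarith [k.2.2.2])
    (fun k => by linarith [k.2.2.2])

private theorem n5 {x y : ℝ} (h : y < 0) (h' : 1 < x + y) : gg x y = 1 :=
  gN (fun k => by linarith [k.2.1]) (fun k => by linarith [k.2.2.2])
    (fun k => by linarith [k.2.2.2])

private theorem n6 {x y : ℝ} (h : x < 0) (h' : 1 < x + y) : gg x y = 1 :=
  gN (fun k => by linarith [k.1]) (fun k => by linarith [k.2.2.2])
    (fun k => by linarith [k.2.2.2])

private theorem pl {w a a' : ℝ} (h : Pers w a a') (ha : a < w) : a' < w := by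
  rcases h with h | h | h
  · exact h.2
  · exact absurd ha (by rw [h]; exact lt_irrefl _)
  · exact absurd ha (not_lt.2 h.1.le)

private theorem pr {w a a' : ℝ} (h : Pers w a a') (ha : w < a) : w < a' := by
  rcases h with h | h | h
  · exact absurd ha (not_lt.2 h.1.le)
  · exact absurd ha (by rw [h]; exact lt_irrefl _)
  · exact h.2

theorem pGUV : GUV := by
  intro x y x' y' hS x1 x0 y1 y0 s1 s2
  have e1 : y = 0 → -1 ≤ x → 2 < x := fun h k => by
    by_contra hc
    exact hS (Or.inl ⟨h, k, not_lt.1 hc⟩)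
  have e2 : x + y = 2 → 0 ≤ x → y < 0 := fun h k => by
    by_contra hc
    exact hS (Or.inr (Or.inl ⟨h, k, not_lt.1 hc⟩))
  have e3 : x = 0 → -1 ≤ y → 2 < y := fun h k => by
    by_contra hc
    exact hS (Or.inr (Or.inr (Or.inl ⟨h, k, not_lt.1 hc⟩)))
  have e4 : y = -1 → 0 ≤ x → 2 < x := fun h k => by
    by_contra hc
    exact hS (Or.inr (Or.inr (Or.inr (Or.inl ⟨h, k, not_lt.1 hc⟩))))
  have e5 : x + y = 1 → -1 ≤ x → 2 < x := fun h k => by
    by_contra hc
    exact hS (Or.inr (Or.inr (Or.inr (Or.inr (Or.inl ⟨h, k, not_lt.1 hc⟩)))))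
  have e6 : x = -1 → 0 ≤ y → 2 < y := fun h k => by
    by_contra hc
    exact hS (Or.inr (Or.inr (Or.inr (Or.inr (Or.inr ⟨h, k, not_lt.1 hc⟩)))))
  rcases lt_trichotomy x (-1) with hx | hx | hx
  · rw [n1 hx, n1 (pl x1 hx)]
  · have hx0 : x < 0 := by linarith
    rcases lt_or_ge y 0 with hy | hy
    · rw [n3 hx0 hy, n3 (pl x0 hx0) (pl y0 hy)]
    · have hy2 := e6 hx hy
      have hs : 1 < x + y := by linarith
      rw [n6 hx0 hs, n6 (pl x0 hx0) (pr s1 hs)]
  rcases lt_trichotomy y (-1) with hy | hy | hy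
  · rw [n2 hy, n2 (pl y1 hy)]
  · have hy0 : y < 0 := by linarith
    rcases lt_or_ge x 0 with hx0 | hx0
    · rw [n3 hx0 hy0, n3 (pl x0 hx0) (pl y0 hy0)]
    · have hx2 := e4 hy hx0
      have hs : 1 < x + y := by linarith
      rw [n5 hy0 hs, n5 (pl y0 hy0) (pr s1 hs)]
  rcases lt_trichotomy (x + y) 2 with hs | hs | hs
  · rcases lt_trichotomy x 0 with hx0 | hx0 | hx0
    · rcases lt_trichotomy y 0 with hy0 | hy0 | hy0
      · rw [n3 hx0 hy0, n3 (pl x0 hx0) (pl y0 hy0)]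
      · have := e1 hy0 hx.le
        exfalso; linarith
      · rcases lt_trichotomy (x + y) 1 with ht | ht | ht
        · rw [gD hx0 hy0 hx ht, gD (pl x0 hx0) (pr y0 hy0) (pr x1 hx) (pl s1 ht)]
        · have := e5 ht hx.le
          exfalso; linarith
        · rw [n6 hx0 ht, n6 (pl x0 hx0) (pr s1 ht)]
    · have := e3 hx0 hy.le
      exfalso; linarith
    · rcases lt_trichotomy y 0 with hy0 | hy0 | hy0
      · rcases lt_trichotomy (x + y) 1 with ht | ht | ht
        · rw [gC hx0 hy0 hy ht, gC (pr x0 hx0) (pl y0 hy0) (pr y1 hy) (pl s1 ht)]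
        · have := e5 ht hx.le
          exfalso; linarith
        · rw [n5 hy0 ht, n5 (pl y0 hy0) (pr s1 ht)]
      · have := e1 hy0 hx.le
        exfalso; linarith
      · rcases lt_trichotomy (x + y) 1 with ht | ht | ht
        · rw [gA hx0 hy0 ht, gA (pr x0 hx0) (pr y0 hy0) (pl s1 ht)]
        · have := e5 ht hx.le
          exfalso; linarith
        · rw [gB hx0 hy0 ht hs, gB (pr x0 hx0) (pr y0 hy0) (pr s1 ht) (pl s2 hs)]
  · rcases lt_or_ge x 0 with hx0 | hx0
    · have ht : 1 < x + y := by linarith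
      rw [n6 hx0 ht, n6 (pl x0 hx0) (pr s1 ht)]
    · have hy0 := e2 hs hx0
      have ht : 1 < x + y := by linarith
      rw [n5 hy0 ht, n5 (pl y0 hy0) (pr s1 ht)]
  · rw [n4 hs, n4 (pr s2 hs)]

end Pool.Agent.H238.HK
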