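import Pool.Agent.H238.HK.Defs

/-!
# The face labels of the hexagonal trefoil are locally constant off the diagram
-/

set_option autoImplicit false

namespace Pool.Agent.H238.HK

open Pool.Agent.Helper22.LC (Pers)

private theorem pl {w a a' : ℝ} (h : Pers w a a') (h1 : a < w) : a' < w := by
  rcases h with h | h | h
  · exact h.2
  · exact absurd h1 (by rw [h]; exact lt_irrefl _)
  · exact absurd h1 (not_lt.2 h.1.le)

private theorem pg {w a a' : ℝ} (h : Pers w a a') (h1 : w < a) : w < a' := by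
  rcases h with h | h | h
  · exact absurd h1 (not_lt.2 h.1.le)
  · exact absurd h1 (by rw [h]; exact lt_irrefl _)
  · exact h.2

private theorem ple {w a a' : ℝ} (h : Pers w a a') (h1 : a' ≤ w) : a ≤ w := by
  by_contra h2
  exact absurd (pg h (not_le.1 h2)) (not_lt.2 h1)

private theorem pge {w a a' : ℝ} (h : Pers w a a') (h1 : w ≤ a') : w ≤ a := by
  by_contra h2
  exact absurd (pl h (not_le.1 h2)) (not_lt.2 h1)

theorem pGUV : GUV := by
  intro x y x' y' h x1 x0 y1 y0 s1 s2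
  have n1 : y = 0 → -1 ≤ x → x ≤ 2 → False := fun a b c => h (Or.inl ⟨a, b, c⟩)
  have n2 : x + y = 2 → 0 ≤ x → 0 ≤ y → False := fun a b c => h (Or.inr (Or.inl ⟨a, b, c⟩))
  have n3 : x = 0 → -1 ≤ y → y ≤ 2 → False :=
    fun a b c => h (Or.inr (Or.inr (Or.inl ⟨a, b, c⟩)))
  have n4 : y = -1 → 0 ≤ x → x ≤ 2 → False :=
    fun a b c => h (Or.inr (Or.inr (Or.inr (Or.inl ⟨a, b, c⟩))))
  have n5 : x + y = 1 → -1 ≤ x → x ≤ 2 → False :=
    fun a b c => h (Or.inr (Or.inr (Or.inr (Or.inr (Or.inl ⟨a, b, c⟩)))))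
  have n6 : x = -1 → 0 ≤ y → y ≤ 2 → False :=
    fun a b c => h (Or.inr (Or.inr (Or.inr (Or.inr (Or.inr ⟨a, b, c⟩)))))
  have hA : (0 ≤ x' ∧ 0 ≤ y' ∧ x' + y' ≤ 1) ↔ (0 ≤ x ∧ 0 ≤ y ∧ x + y ≤ 1) := by
    constructor
    · rintro ⟨a, b, c⟩
      exact ⟨pge x0 a, pge y0 b, ple s1 c⟩
    · rintro ⟨a, b, c⟩
      have e1 : 0 < x := lt_of_le_of_ne a fun e => n3 e.symm (by linarith) (by linarith)
      have e2 : 0 < y := lt_of_le_of_ne b fun e => n1 e.symm (by linarith) (by linarith)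
      have e3 : x + y < 1 := lt_of_le_of_ne c fun e => n5 e (by linarith) (by linarith)
      exact ⟨(pg x0 e1).le, (pg y0 e2).le, (pl s1 e3).le⟩
  have hB : (0 ≤ x' ∧ 0 ≤ y' ∧ x' + y' < 2) ↔ (0 ≤ x ∧ 0 ≤ y ∧ x + y < 2) := by
    constructor
    · rintro ⟨a, b, c⟩
      have a' := pge x0 a
      have b' := pge y0 b
      exact ⟨a', b', lt_of_le_of_ne (ple s2 c.le) fun e => n2 e a' b'⟩
    · rintro ⟨a, b, c⟩
      have e1 : 0 < x := lt_of_le_of_ne a fun e => n3 e.symm (by linarith) (by linarith)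
      have e2 : 0 < y := lt_of_le_of_ne b fun e => n1 e.symm (by linarith) (by linarith)
      exact ⟨(pg x0 e1).le, (pg y0 e2).le, pl s2 c⟩
  have hC : (-1 < y' ∧ y' < 0 ∧ 0 < x' ∧ x' + y' ≤ 1) ↔
      (-1 < y ∧ y < 0 ∧ 0 < x ∧ x + y ≤ 1) := by
    constructor
    · rintro ⟨a, b, c, d⟩
      have a' := pge y1 a.le
      have b' := ple y0 b.le
      have c' := pge x0 c.le
      have d' := ple s1 d
      refine ⟨lt_of_le_of_ne a' fun e => n4 e.symm (by linarith) (by linarith),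
        lt_of_le_of_ne b' fun e => n1 e (by linarith) (by linarith),
        lt_of_le_of_ne c' fun e => n3 e.symm (by linarith) (by linarith), d'⟩
    · rintro ⟨a, b, c, d⟩
      have e3 : x + y < 1 := lt_of_le_of_ne d fun e => n5 e (by linarith) (by linarith)
      exact ⟨pg y1 a, pl y0 b, pg x0 c, (pl s1 e3).le⟩
  have hD : (-1 < x' ∧ x' < 0 ∧ 0 ≤ y' ∧ x' + y' < 1) ↔
      (-1 < x ∧ x < 0 ∧ 0 ≤ y ∧ x + y < 1) := by
    constructor
    · rintro ⟨a, b, c, d⟩
      have a' := pge x1 a.le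
      have b' := ple x0 b.le
      have c' := pge y0 c
      have d' := ple s1 d.le
      refine ⟨lt_of_le_of_ne a' fun e => n6 e.symm (by linarith) (by linarith),
        lt_of_le_of_ne b' fun e => n3 e (by linarith) (by linarith), c',
        lt_of_le_of_ne d' fun e => n5 e (by linarith) (by linarith)⟩
    · rintro ⟨a, b, c, d⟩
      have e2 : 0 < y := lt_of_le_of_ne c fun e => n1 e.symm (by linarith) (by linarith)
      exact ⟨pg x1 a, pl x0 b, (pg y0 e2).le, pl s1 d⟩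
  unfold gg
  simp only [hA, hB, hC, hD]

end Pool.Agent.H238.HK
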