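import Pool.Agent.H238.HK.Stm

/-!
# KNOTb: the hexagonal trefoil is not ambient isotopic to a plane hexagon
-/

set_option autoImplicit false

open Topology Set Filter

namespace Pool.Agent.H238.HK

open Pool.Agent.H223.MB (V trace Embedded AmbientIsotopic circ)

private theorem pathMap_inj {X Y : Type*} [TopologicalSpace X] [TopologicalSpace Y]
    (f : X ≃ₜ Y) {x : X} (p q : Path x x)
    (h : (p.map f.continuous).Homotopic (q.map f.continuous)) : p.Homotopic q := by
  have h2 := (h.map ⟨f.symm, f.symm.continuous⟩).pathCast (f.symm_apply_apply x).symm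
    (f.symm_apply_apply x).symm
  convert h2 using 1
  · ext t
    simp
  · ext t
    simp

private theorem comm_trans {X Y : Type*} [TopologicalSpace X] [TopologicalSpace Y] (f : X ≃ₜ Y)
    (hcomm : ∀ (y : Y) (α β : FundamentalGroup Y y), α * β = β * α)
    (x : X) (α β : FundamentalGroup X x) : α * β = β * α := by
  have key := hcomm (f x) (FundamentalGroup.map ⟨f, f.continuous⟩ x α)
    (FundamentalGroup.map ⟨f, f.continuous⟩ x β)
  rw [← map_mul, ← map_mul] at key
  revert key
  generalize α * β = γ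
  generalize β * α = δ
  intro key
  obtain ⟨p, rfl⟩ := Path.Homotopic.Quotient.mk_surjective γ
  obtain ⟨q, rfl⟩ := Path.Homotopic.Quotient.mk_surjective δ
  have h1 : Path.Homotopic.Quotient.mk (p.map f.continuous)
      = Path.Homotopic.Quotient.mk (q.map f.continuous) := key
  exact Path.Homotopic.Quotient.eq.2 (pathMap_inj f p q (Path.Homotopic.Quotient.exact h1))

/-- Coordinates. -/
private noncomputable def coordK : (ℝ × ℝ × ℝ) ≃ₜ V where
  toFun p := !₂[p.1, p.2.1, p.2.2]
  invFun p := (p 0, p 1, p 2)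
  left_inv p := by
    ext <;> simp
  right_inv p := by
    ext i
    fin_cases i <;> simp
  continuous_toFun := by fun_prop
  continuous_invFun := by fun_prop

theorem pKNOT (h1 : NCT) (h2 : CRC) (h3 : TRP) (h4 : TRQ) : KNOT := by
  rintro ⟨H, _, hH, _, h01⟩
  obtain ⟨x, α, β, hne⟩ := h1
  apply hne
  let Φ : V ≃ₜ V := IsHomeomorph.homeomorph (H 1) (hH 1 ⟨zero_le_one, le_refl _⟩)
  have hΦ : ∀ v, Φ v = H 1 v := fun v => rfl
  let g : (ℝ × ℝ × ℝ) ≃ₜ (ℝ × ℝ × ℝ) := (coordK.trans Φ).trans coordK.symm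
  have hg : ∀ p : ℝ × ℝ × ℝ, p ∈ TK ↔ g p ∈ RK := by
    intro p
    have e1 : coordK p ∈ trace P0 ↔ p ∈ TK := h3 (coordK p)
    have e2 : coordK p ∈ trace P0 ↔ Φ (coordK p) ∈ trace Q0 := by
      rw [← h01]
      constructor
      · intro h
        exact ⟨_, h, rfl⟩
      · rintro ⟨y, hy, hyx⟩
        have : y = coordK p := Φ.injective hyx
        rw [← this]
        exact hy
    have e3 : Φ (coordK p) ∈ trace Q0 ↔ g p ∈ RK := h4 (Φ (coordK p))
    exact e1.symm.trans (e2.trans e3)
  let f : TC ≃ₜ RC := g.subtype (fun p => not_congr (hg p))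
  exact comm_trans f h2 x α β

end Pool.Agent.H238.HK
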