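import Pool.Agent.H238.HK.OPNb
import Pool.Agent.H238.HK.COV
import Pool.Agent.H238.HK.GUV
import Pool.Agent.H238.HK.BOX
import Pool.Agent.H238.HK.LOC
import Pool.Agent.H238.HK.NCT
import Pool.Agent.H238.HK.GEN
import Pool.Agent.H238.HK.BAS
import Pool.Agent.H238.HK.RASb
import Pool.Agent.H238.HK.RBS
import Pool.Agent.H238.HK.RIOc
import Pool.Agent.H238.HK.ROO
import Pool.Agent.H238.HK.CRC
import Pool.Agent.H238.HK.TRPb
import Pool.Agent.H238.HK.EMBb
import Pool.Agent.H238.HK.TRQc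
import Pool.Agent.H238.HK.KNOT

/-!
# A hexagonal trefoil: assembly
-/

namespace Pool.Agent.H238.HK

theorem emb : EMB := pEMB

theorem knot : KNOT :=
  pKNOT (pNCT pOPN pCOV (pLOC pOPN pGUV pBOX)) (pCRC pGEN pBAS pRAS pRBS pRIO pROO) pTRP pTRQ

end Pool.Agent.H238.HK
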