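import Pool.Agent.H238.HK.Defs

set_option autoImplicit false

open Topology Set Filter

namespace Pool.Agent.H238.HK

open Pool.Agent.Helper22.LC (core isCov lab lab_inj mono_chart Pers pers_ev ite_ev ite_ev')

/-- lift, then contract to `(0,0,1)` -/
private noncomputable def rasH (s : ℝ) (p : ℝ × ℝ × ℝ) : ℝ × ℝ × ℝ :=
  (min 1 (2 - 2 * s) * p.1, min 1 (2 - 2 * s) * p.2.1,
    min 1 (2 - 2 * s) * (p.2.2 + min 1 (2 * s) * (1 + |p.2.2|)) + (1 - min 1 (2 - 2 * s)))

private theorem rasH_cont : Continuous fun q : ℝ × (ℝ × ℝ × ℝ) => rasH q.1 q.2 := by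
  unfold rasH
  fun_prop

private theorem rasH_mem (s : ℝ) (hs0 : 0 ≤ s) (hs1 : s ≤ 1) (p : ℝ × ℝ × ℝ)
    (hp : 0 < p.2.2 ∨ ff p.1 p.2.1 ≠ √3) :
    0 < (rasH s p).2.2 ∨ ff (rasH s p).1 (rasH s p).2.1 ≠ √3 := by
  have hz := neg_abs_le p.2.2
  have hz' := abs_nonneg p.2.2
  rcases le_or_gt s (1 / 2) with h | h
  · have ha : min 1 (2 - 2 * s) = 1 := min_eq_left (by linarith)
    have hb : min 1 (2 * s) = 2 * s := min_eq_right (by linarith)
    have h1 : (rasH s p).1 = p.1 := by simp only [rasH, ha, one_mul]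
    have h2 : (rasH s p).2.1 = p.2.1 := by simp only [rasH, ha, one_mul]
    have h3 : (rasH s p).2.2 = p.2.2 + 2 * s * (1 + |p.2.2|) := by
      simp only [rasH, ha, hb, one_mul, sub_self, add_zero]
    rw [h1, h2, h3]
    rcases hp with hp | hp
    · left
      have : 0 ≤ 2 * s * (1 + |p.2.2|) := by positivity
      linarith
    · exact Or.inr hp
  · left
    have hb : min 1 (2 * s) = 1 := min_eq_left (by linarith)
    have ha : min 1 (2 - 2 * s) = 2 - 2 * s := min_eq_right (by linarith)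
    have h3 : (rasH s p).2.2 = (2 - 2 * s) * (p.2.2 + (1 + |p.2.2|)) + (1 - (2 - 2 * s)) := by
      simp only [rasH, ha, hb, one_mul]
    rw [h3]
    have h4 : 0 ≤ (2 - 2 * s) * (p.2.2 + |p.2.2|) :=
      mul_nonneg (by linarith) (by linarith)
    nlinarith

private theorem ras_notMem (p : ℝ × ℝ × ℝ) (hp : 0 < p.2.2 ∨ ff p.1 p.2.1 ≠ √3) : p ∉ RK := by
  rintro ⟨h1, h2⟩
  rcases hp with hp | hp
  · exact absurd h1 hp.ne'
  · exact hp h2

private theorem ras_mem (p : RA) : 0 < p.1.1.2.2 ∨ ff p.1.1.1 p.1.1.2.1 ≠ √3 := p.2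

private noncomputable def rasHH (q : unitInterval × RA) : RA :=
  ⟨⟨rasH q.1.1 q.2.1.1, ras_notMem _ (rasH_mem q.1.1 q.1.2.1 q.1.2.2 _ (ras_mem q.2))⟩,
    rasH_mem q.1.1 q.1.2.1 q.1.2.2 _ (ras_mem q.2)⟩

private theorem rasHH_cont : Continuous rasHH := by
  unfold rasHH
  refine Continuous.subtype_mk (Continuous.subtype_mk ?_ _) _
  exact rasH_cont.comp ((continuous_subtype_val.comp continuous_fst).prodMk
    (continuous_subtype_val.comp (continuous_subtype_val.comp continuous_snd)))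

private theorem ras_contractible : ContractibleSpace RA := by
  rw [contractible_iff_id_nullhomotopic]
  have h0 : (0 : ℝ) < ((0, 0, 1) : ℝ × ℝ × ℝ).2.2 := one_pos
  refine ⟨⟨⟨(0, 0, 1), ras_notMem _ (Or.inl h0)⟩, Or.inl h0⟩, ⟨⟨⟨rasHH, rasHH_cont⟩, ?_, ?_⟩⟩⟩
  · intro x
    apply Subtype.ext
    apply Subtype.ext
    have h1 : min (1 : ℝ) (2 - 2 * 0) = 1 := by norm_num
    have h2 : min (1 : ℝ) (2 * 0) = 0 := by norm_num
    change rasH 0 x.1.1 = x.1.1
    unfold rasH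
    rw [h1, h2]
    simp
  · intro x
    apply Subtype.ext
    apply Subtype.ext
    have h1 : min (1 : ℝ) (2 - 2 * 1) = 0 := by norm_num
    change rasH 1 x.1.1 = (0, 0, 1)
    unfold rasH
    rw [h1]
    simp

theorem pRAS : RAS := by
  unfold RAS
  have := ras_contractible
  infer_instance

end Pool.Agent.H238.HK
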