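import Pool.Agent.H238.HK.Defs

/-!
# The complement of the hexagon with a free downward ray is contractible
-/

set_option autoImplicit false

open Topology Set Filter

open scoped unitInterval

namespace Pool.Agent.H238.HK

open Pool.Agent.Helper22.LC (core isCov lab lab_inj mono_chart Pers pers_ev ite_ev ite_ev')

/-- the homotopy -/
private noncomputable def rbF (s : ℝ) (p : ℝ × ℝ × ℝ) : ℝ × ℝ × ℝ :=
  ((1 - max 0 (2 * s - 1)) * p.1, (1 - max 0 (2 * s - 1)) * p.2.1,
    (1 - max 0 (2 * s - 1)) * (p.2.2 - min 1 (2 * s) * (1 + |p.2.2|)) - max 0 (2 * s - 1))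

private lemma rbF_mem {s : ℝ} (h0 : 0 ≤ s) (h1 : s ≤ 1) (p : ℝ × ℝ × ℝ)
    (h : p.2.2 < 0 ∨ ff p.1 p.2.1 ≠ √3) :
    (rbF s p).2.2 < 0 ∨ ff (rbF s p).1 (rbF s p).2.1 ≠ √3 := by
  have ha := abs_nonneg p.2.2
  have hb := le_abs_self p.2.2
  by_cases hs : 2 * s ≤ 1
  · have e1 : max 0 (2 * s - 1) = 0 := max_eq_left (by linarith)
    have e2 : min 1 (2 * s) = 2 * s := min_eq_right hs
    unfold rbF
    rw [e1, e2]
    simp only [sub_zero, one_mul]
    rcases h with h | h
    · left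
      have : 0 ≤ 2 * s * (1 + |p.2.2|) := by positivity
      linarith
    · right
      exact h
  · left
    push Not at hs
    have e1 : max 0 (2 * s - 1) = 2 * s - 1 := max_eq_right (by linarith)
    have e2 : min 1 (2 * s) = 1 := min_eq_left hs.le
    unfold rbF
    rw [e1, e2]
    simp only [one_mul]
    have h3 : (1 - (2 * s - 1)) * (p.2.2 - (1 + |p.2.2|)) ≤ 0 :=
      mul_nonpos_of_nonneg_of_nonpos (by linarith) (by linarith)
    linarith

private lemma rbF_not {s : ℝ} (h0 : 0 ≤ s) (h1 : s ≤ 1) (p : ℝ × ℝ × ℝ)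
    (h : p.2.2 < 0 ∨ ff p.1 p.2.1 ≠ √3) : rbF s p ∉ RK := by
  rintro ⟨h2, h3⟩
  rcases rbF_mem h0 h1 p h with h4 | h4
  · rw [h2] at h4
    exact lt_irrefl _ h4
  · exact h4 h3

private lemma rbF_cont : Continuous fun q : ℝ × (ℝ × ℝ × ℝ) => rbF q.1 q.2 := by
  unfold rbF
  fun_prop

theorem pRBS : RBS := by
  have hne : ((0 : ℝ), (0 : ℝ), (-1 : ℝ)) ∉ RK := by
    rintro ⟨h, -⟩
    simp at h
  let y₀ : RB := ⟨⟨(0, 0, -1), hne⟩, Or.inl (by norm_num)⟩
  have hc : ContractibleSpace RB := by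
    rw [contractible_iff_id_nullhomotopic]
    refine ⟨y₀, ⟨?_⟩⟩
    refine
      { toFun := fun q => ⟨⟨rbF (q.1 : ℝ) q.2.1.1, rbF_not q.1.2.1 q.1.2.2 _ q.2.2⟩,
          rbF_mem q.1.2.1 q.1.2.2 _ q.2.2⟩
        continuous_toFun := ?_
        map_zero_left := ?_
        map_one_left := ?_ }
    · refine Continuous.subtype_mk (Continuous.subtype_mk ?_ _) _
      have h2 : Continuous fun q : I × RB => ((q.1 : ℝ), (q.2.1.1 : ℝ × ℝ × ℝ)) :=
        (continuous_subtype_val.comp continuous_fst).prodMk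
          (continuous_subtype_val.comp (continuous_subtype_val.comp continuous_snd))
      exact rbF_cont.comp h2
    · intro x
      apply Subtype.ext
      apply Subtype.ext
      show rbF ((0 : I) : ℝ) x.1.1 = x.1.1
      simp [rbF]
    · intro x
      apply Subtype.ext
      apply Subtype.ext
      show rbF ((1 : I) : ℝ) x.1.1 = (0, 0, -1)
      have e0 : ((1 : I) : ℝ) = 1 := rfl
      have e1 : max (0 : ℝ) (2 * 1 - 1) = 1 := by norm_num
      unfold rbF
      rw [e0, e1]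
      simp
  unfold RBS
  infer_instance

end Pool.Agent.H238.HK
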