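import Pool.Agent.H238.HK.Defs

/-!
# The inner part of `A ∩ B` is path connected
-/

set_option autoImplicit false

open Topology Set Filter

namespace Pool.Agent.H238.HK

open Pool.Agent.Helper22.LC (core isCov lab lab_inj mono_chart Pers pers_ev ite_ev ite_ev')

private theorem rio_lt_comb {u v c a b : ℝ} (ha : 0 ≤ a) (hb : 0 ≤ b) (hab : a + b = 1)
    (hu : u < c) (hv : v < c) : a * u + b * v < c := by
  rcases eq_or_lt_of_le ha with h | h
  · have h1 : b = 1 := by linarith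
    rw [← h, h1]
    linarith
  · have h1 : a * u < a * c := mul_lt_mul_of_pos_left hu h
    have h2 : b * v ≤ b * c := mul_le_mul_of_nonneg_left hv.le hb
    have h3 : a * c + b * c = c := by rw [← add_mul, hab, one_mul]
    linarith

private theorem rio_abs_comb {u v c a b : ℝ} (ha : 0 ≤ a) (hb : 0 ≤ b) (hab : a + b = 1)
    (hu : |u| < c) (hv : |v| < c) : |a * u + b * v| < c := by
  have h1 : |a * u + b * v| ≤ |a * u| + |b * v| := abs_add_le _ _
  rw [abs_mul, abs_mul, abs_of_nonneg ha, abs_of_nonneg hb] at h1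
  exact lt_of_le_of_lt h1 (rio_lt_comb ha hb hab hu hv)

private theorem rio_iff (x y : ℝ) : ff x y < √3 ↔
    |√3 * x + y| < √3 ∧ |√3 * x - y| < √3 ∧ |2 * y| < √3 := by
  unfold ff
  rw [max_lt_iff, max_lt_iff, abs_mul, abs_of_pos (by norm_num : (0 : ℝ) < 2), and_assoc]

private theorem rio_convex : Convex ℝ {p : ℝ × ℝ × ℝ | ff p.1 p.2.1 < √3} := by
  intro p hp q hq a b ha hb hab
  rw [Set.mem_ofPred_eq, rio_iff] at hp hq ⊢
  obtain ⟨p1, p2, p3⟩ := hp
  obtain ⟨q1, q2, q3⟩ := hq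
  have e1 : (a • p + b • q).1 = a * p.1 + b * q.1 := rfl
  have e2 : (a • p + b • q).2.1 = a * p.2.1 + b * q.2.1 := rfl
  rw [e1, e2]
  refine ⟨?_, ?_, ?_⟩
  · have h := rio_abs_comb ha hb hab p1 q1
    have e : √3 * (a * p.1 + b * q.1) + (a * p.2.1 + b * q.2.1) =
        a * (√3 * p.1 + p.2.1) + b * (√3 * q.1 + q.2.1) := by ring
    rw [e]
    exact h
  · have h := rio_abs_comb ha hb hab p2 q2
    have e : √3 * (a * p.1 + b * q.1) - (a * p.2.1 + b * q.2.1) =
        a * (√3 * p.1 - p.2.1) + b * (√3 * q.1 - q.2.1) := by ring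
    rw [e]
    exact h
  · have h := rio_abs_comb ha hb hab p3 q3
    have e : 2 * (a * p.2.1 + b * q.2.1) = a * (2 * p.2.1) + b * (2 * q.2.1) := by ring
    rw [e]
    exact h

private theorem rio_zero : ff 0 0 < √3 := by
  rw [rio_iff]
  have h : (0 : ℝ) < √3 := Real.sqrt_pos.2 (by norm_num)
  simp [h]

private theorem rio_notMem {p : ℝ × ℝ × ℝ} (h : ff p.1 p.2.1 < √3) : p ∉ RK :=
  fun hp => absurd hp.2 h.ne

theorem pRIO : RIO := by
  have hp : IsPathConnected {p : ℝ × ℝ × ℝ | ff p.1 p.2.1 < √3} :=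
    rio_convex.isPathConnected ⟨(0, 0, 0), rio_zero⟩
  have : PathConnectedSpace {p : ℝ × ℝ × ℝ | ff p.1 p.2.1 < √3} :=
    isPathConnected_iff_pathConnectedSpace.1 hp
  let f : {p : ℝ × ℝ × ℝ | ff p.1 p.2.1 < √3} → RC := fun p => ⟨p.1, rio_notMem p.2⟩
  have hf : Continuous f := continuous_subtype_val.subtype_mk _
  have h : RI = range f := by
    ext q
    constructor
    · intro hq
      exact ⟨⟨q.1, hq⟩, rfl⟩
    · rintro ⟨p, rfl⟩
      exact p.2
  show IsPathConnected RI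
  rw [h]
  exact isPathConnected_range hf

end Pool.Agent.H238.HK
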