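import Pool.Agent.H238.HK.Defs

set_option autoImplicit false

open Topology Set Filter

namespace Pool.Agent.H238.HK

private theorem ff_add (a b c d : ℝ) : ff (a + c) (b + d) ≤ ff a b + ff c d := by
  unfold ff
  have h1 := abs_add_le (√3 * a + b) (√3 * c + d)
  have h2 := abs_add_le (√3 * a - b) (√3 * c - d)
  have h3 := abs_add_le b d
  have e1 : √3 * (a + c) + (b + d) = √3 * a + b + (√3 * c + d) := by ring
  have e2 : √3 * (a + c) - (b + d) = √3 * a - b + (√3 * c - d) := by ring
  rw [e1, e2]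
  refine max_le (max_le ?_ ?_) ?_
  · exact h1.trans (add_le_add ((le_max_left _ _).trans (le_max_left _ _))
      ((le_max_left _ _).trans (le_max_left _ _)))
  · exact h2.trans (add_le_add ((le_max_right _ _).trans (le_max_left _ _))
      ((le_max_right _ _).trans (le_max_left _ _)))
  · calc 2 * |b + d| ≤ 2 * |b| + 2 * |d| := by linarith
      _ ≤ _ := add_le_add (le_max_right _ _) (le_max_right _ _)

private theorem ff_smul (t a b : ℝ) (ht : 0 ≤ t) : ff (t * a) (t * b) = t * ff a b := by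
  unfold ff
  have e1 : √3 * (t * a) + t * b = t * (√3 * a + b) := by ring
  have e2 : √3 * (t * a) - t * b = t * (√3 * a - b) := by ring
  rw [e1, e2, abs_mul, abs_mul, abs_mul, abs_of_nonneg ht, mul_max_of_nonneg _ _ ht,
    mul_max_of_nonneg _ _ ht]
  congr 1
  ring

private theorem conv : Convex ℝ {p : ℝ × ℝ × ℝ | ff p.1 p.2.1 < √3} := by
  intro p hp q hq s t hs ht hst
  simp only [mem_ofPred_eq] at hp hq ⊢
  show ff (s * p.1 + t * q.1) (s * p.2.1 + t * q.2.1) < √3
  have h := ff_add (s * p.1) (s * p.2.1) (t * q.1) (t * q.2.1)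
  rw [ff_smul s _ _ hs, ff_smul t _ _ ht] at h
  refine lt_of_le_of_lt h ?_
  rcases hs.eq_or_lt with h0 | h0
  · subst h0
    have : t = 1 := by linarith
    subst this
    linarith
  · have a1 := mul_lt_mul_of_pos_left hp h0
    have a2 := mul_le_mul_of_nonneg_left hq.le ht
    have a3 : s * √3 + t * √3 = √3 := by rw [← add_mul, hst, one_mul]
    linarith

theorem pRIO : RIO := by
  have hne : ({p : ℝ × ℝ × ℝ | ff p.1 p.2.1 < √3}).Nonempty := by
    refine ⟨(0, 0, 0), ?_⟩
    simp [ff]
  have hpc := conv.isPathConnected hne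
  have himg : (Subtype.val '' RI : Set (ℝ × ℝ × ℝ)) = {p : ℝ × ℝ × ℝ | ff p.1 p.2.1 < √3} := by
    ext p
    constructor
    · rintro ⟨q, hq, rfl⟩
      exact hq
    · intro hp
      exact ⟨⟨p, fun h => absurd h.2 (ne_of_lt hp)⟩, hp, rfl⟩
  show IsPathConnected RI
  have hi : Topology.IsInducing (Subtype.val : RC → ℝ × ℝ × ℝ) := ⟨rfl⟩
  rw [hi.isPathConnected_iff, himg]
  exact hpc

end Pool.Agent.H238.HK
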