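import Pool.Agent.H238.HK.Defs

/-! ROO (helper628 for helper238): the outer part is path connected. -/

set_option autoImplicit false

open Topology Set Filter

namespace Pool.Agent.H238.HK

private theorem roob_smul {t : ℝ} (ht : 0 ≤ t) (x y : ℝ) : ff (t * x) (t * y) = t * ff x y := by
  unfold ff
  have h1 : √3 * (t * x) + t * y = t * (√3 * x + y) := by ring
  have h2 : √3 * (t * x) - t * y = t * (√3 * x - y) := by ring
  have h3 : 2 * |t * y| = t * (2 * |y|) := by
    rw [abs_mul, abs_of_nonneg ht]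
    ring
  rw [h1, h2, h3, abs_mul t, abs_mul t, abs_of_nonneg ht, mul_max_of_nonneg _ _ ht,
    mul_max_of_nonneg _ _ ht]

private theorem roob_pos {v : ℝ × ℝ} (hv : v ≠ 0) : 0 < ff v.1 v.2 := by
  unfold ff
  by_cases hy : v.2 = 0
  · have hx : v.1 ≠ 0 := fun h => hv (Prod.ext h hy)
    have h3 : (√3 : ℝ) ≠ 0 := by positivity
    have h4 : 0 < |√3 * v.1 + v.2| := by
      rw [hy, add_zero]
      exact abs_pos.2 (mul_ne_zero h3 hx)
    exact lt_of_lt_of_le h4 ((le_max_left _ _).trans (le_max_left _ _))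
  · have h4 : 0 < 2 * |v.2| := by
      have := abs_pos.2 hy
      linarith
    exact lt_of_lt_of_le h4 (le_max_right _ _)

private theorem roob_cont : Continuous (fun v : ℝ × ℝ => ff v.1 v.2) := by
  unfold ff
  exact (((continuous_const.mul continuous_fst).add continuous_snd).abs.max
    ((continuous_const.mul continuous_fst).sub continuous_snd).abs).max
    (continuous_const.mul continuous_snd.abs)

/-- the map onto the outer part -/
private noncomputable def roobG (p : (ℝ × ℝ) × ℝ) : ℝ × ℝ × ℝ :=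
  ((1 + √3 / ff p.1.1 p.1.2) * p.1.1, (1 + √3 / ff p.1.1 p.1.2) * p.1.2, p.2)

private theorem roob_img : (Subtype.val '' RO : Set (ℝ × ℝ × ℝ)) =
    roobG '' (({0}ᶜ : Set (ℝ × ℝ)) ×ˢ (univ : Set ℝ)) := by
  have h3 : (0 : ℝ) < √3 := by positivity
  ext p
  constructor
  · rintro ⟨q, hq, rfl⟩
    have hF : √3 < ff q.1.1 q.1.2.1 := hq
    obtain ⟨F, hFe⟩ : ∃ F : ℝ, F = ff q.1.1 q.1.2.1 := ⟨_, rfl⟩
    rw [← hFe] at hF
    have hF0 : 0 < F := h3.trans hF
    have hs : 0 < (F - √3) / F := div_pos (by linarith) hF0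
    have hv : ff ((F - √3) / F * q.1.1) ((F - √3) / F * q.1.2.1) = F - √3 := by
      rw [roob_smul hs.le, ← hFe]
      field_simp
    have hne : ((F - √3) / F * q.1.1, (F - √3) / F * q.1.2.1) ≠ (0 : ℝ × ℝ) := by
      intro h
      have a : (F - √3) / F * q.1.1 = 0 := congrArg Prod.fst h
      have b : (F - √3) / F * q.1.2.1 = 0 := congrArg Prod.snd h
      rw [a, b] at hv
      have : ff 0 0 = 0 := by simp [ff]
      rw [this] at hv
      linarith
    refine ⟨(((F - √3) / F * q.1.1, (F - √3) / F * q.1.2.1), q.1.2.2), ⟨hne, mem_univ _⟩, ?_⟩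
    have hd : F - √3 ≠ 0 := by
      have : 0 < F - √3 := by linarith
      exact this.ne'
    have hc : (1 + √3 / (F - √3)) * ((F - √3) / F) = 1 := by
      field_simp
      ring
    unfold roobG
    simp only
    rw [hv, ← mul_assoc, ← mul_assoc, hc, one_mul, one_mul]
  · rintro ⟨⟨v, z⟩, ⟨hv, -⟩, rfl⟩
    have hv0 : 0 < ff v.1 v.2 := roob_pos hv
    have hs : 0 ≤ 1 + √3 / ff v.1 v.2 := by positivity
    have hval : √3 < ff ((1 + √3 / ff v.1 v.2) * v.1) ((1 + √3 / ff v.1 v.2) * v.2) := by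
      rw [roob_smul hs, add_mul, one_mul, div_mul_cancel₀ _ hv0.ne']
      linarith
    have hnot : roobG (v, z) ∉ RK := by
      rintro ⟨-, h⟩
      have h' : ff ((1 + √3 / ff v.1 v.2) * v.1) ((1 + √3 / ff v.1 v.2) * v.2) = √3 := h
      linarith
    exact ⟨⟨roobG (v, z), hnot⟩, hval, rfl⟩

private theorem roob_contOn : ContinuousOn roobG (({0}ᶜ : Set (ℝ × ℝ)) ×ˢ (univ : Set ℝ)) := by
  have h1 : ContinuousOn (fun p : (ℝ × ℝ) × ℝ => 1 + √3 / ff p.1.1 p.1.2)
      (({0}ᶜ : Set (ℝ × ℝ)) ×ˢ (univ : Set ℝ)) := by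
    refine continuousOn_const.add (continuousOn_const.div ?_ ?_)
    · exact (roob_cont.comp continuous_fst).continuousOn
    · rintro ⟨v, z⟩ ⟨hv, -⟩
      exact (roob_pos hv).ne'
  have h2 : ContinuousOn (fun p : (ℝ × ℝ) × ℝ => p.1.1) (({0}ᶜ : Set (ℝ × ℝ)) ×ˢ (univ : Set ℝ)) :=
    (continuous_fst.comp continuous_fst).continuousOn
  have h3 : ContinuousOn (fun p : (ℝ × ℝ) × ℝ => p.1.2) (({0}ᶜ : Set (ℝ × ℝ)) ×ˢ (univ : Set ℝ)) :=
    (continuous_snd.comp continuous_fst).continuousOn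
  exact (h1.mul h2).prodMk ((h1.mul h3).prodMk continuous_snd.continuousOn)

theorem pROO : ROO := by
  have hr : 1 < Module.rank ℝ (ℝ × ℝ) := by
    have h : 1 < Module.finrank ℝ (ℝ × ℝ) := by
      rw [Module.finrank_prod, Module.finrank_self]
      norm_num
    have h2 := Module.lt_rank_of_lt_finrank h
    simpa using h2
  have h0 : IsPathConnected ({0}ᶜ : Set (ℝ × ℝ)) := isPathConnected_compl_singleton_of_one_lt_rank hr 0
  have h1 : IsPathConnected (({0}ᶜ : Set (ℝ × ℝ)) ×ˢ (univ : Set ℝ)) :=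
    h0.prod (pathConnectedSpace_iff_univ.1 inferInstance)
  have h2 := h1.image' roob_contOn
  rw [← roob_img] at h2
  exact (IsInducing.subtypeVal.isPathConnected_iff).2 h2

end Pool.Agent.H238.HK
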