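import Pool.Agent.H238.HK.Defs

/-!
ROO: the outer part is path connected (helper779 for helper238).
-/

set_option autoImplicit false

open Topology Set Filter

namespace Pool.Agent.H238.HK

open Pool.Agent.Helper22.LC (core isCov lab lab_inj mono_chart Pers pers_ev ite_ev ite_ev')

private theorem roo_hom (t x y : ℝ) (ht : 0 ≤ t) : ff (t * x) (t * y) = t * ff x y := by
  unfold ff
  rw [mul_max_of_nonneg _ _ ht, mul_max_of_nonneg _ _ ht]
  have h1 : |√3 * (t * x) + t * y| = t * |√3 * x + y| := by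
    rw [show √3 * (t * x) + t * y = t * (√3 * x + y) by ring, abs_mul, abs_of_nonneg ht]
  have h2 : |√3 * (t * x) - t * y| = t * |√3 * x - y| := by
    rw [show √3 * (t * x) - t * y = t * (√3 * x - y) by ring, abs_mul, abs_of_nonneg ht]
  have h3 : 2 * |t * y| = t * (2 * |y|) := by
    rw [abs_mul, abs_of_nonneg ht]
    ring
  rw [h1, h2, h3]

private theorem roo_nonneg (x y : ℝ) : 0 ≤ ff x y := by
  unfold ff
  exact (by positivity : (0 : ℝ) ≤ 2 * |y|).trans (le_max_right _ _)

private theorem roo_pos (v : ℝ × ℝ) (hv : v ≠ 0) : 0 < ff v.1 v.2 := by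
  refine lt_of_le_of_ne (roo_nonneg _ _) fun h => hv ?_
  have h3 : (0 : ℝ) < √3 := Real.sqrt_pos.2 (by norm_num)
  unfold ff at h
  have h1 : 2 * |v.2| ≤ 0 := by
    rw [h]
    exact le_max_right _ _
  have h2 : |√3 * v.1 + v.2| ≤ 0 := by
    rw [h]
    exact (le_max_left _ _).trans (le_max_left _ _)
  have h4 : v.2 = 0 := by
    have : |v.2| = 0 := le_antisymm (by linarith) (abs_nonneg _)
    exact abs_eq_zero.1 this
  have h5 : √3 * v.1 + v.2 = 0 := abs_eq_zero.1 (le_antisymm h2 (abs_nonneg _))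
  have h6 : v.1 = 0 := by
    rw [h4, add_zero] at h5
    exact (mul_eq_zero.1 h5).resolve_left h3.ne'
  exact Prod.ext h6 h4

private theorem roo_cont : Continuous fun v : ℝ × ℝ => ff v.1 v.2 := by
  unfold ff
  fun_prop

private theorem roo_base : IsPathConnected (({0}ᶜ : Set (ℝ × ℝ)) ×ˢ (univ : Set ℝ)) := by
  have h0 : IsPathConnected ({0}ᶜ : Set (ℝ × ℝ)) := by
    refine isPathConnected_compl_singleton_of_one_lt_rank ?_ 0
    rw [← Module.finrank_eq_rank, Module.finrank_prod, Module.finrank_self]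
    norm_num
  rw [isPathConnected_iff] at h0 ⊢
  refine ⟨h0.1.prod univ_nonempty, ?_⟩
  rintro ⟨v, z⟩ hv ⟨w, z'⟩ hw
  obtain ⟨γ, hγ⟩ := h0.2 v hv.1 w hw.1
  refine ⟨γ.prod (PathConnectedSpace.somePath z z'), fun t => ⟨hγ t, mem_univ _⟩⟩

theorem pROO : ROO := by
  unfold ROO
  have h3 : (0 : ℝ) < √3 := Real.sqrt_pos.2 (by norm_num)
  have hind : IsInducing (Subtype.val : RC → ℝ × ℝ × ℝ) := IsInducing.subtypeVal
  rw [hind.isPathConnected_iff]
  have key : (Subtype.val '' RO : Set (ℝ × ℝ × ℝ)) =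
      (fun q : (ℝ × ℝ) × ℝ => (((1 + √3 / ff q.1.1 q.1.2) * q.1.1,
        (1 + √3 / ff q.1.1 q.1.2) * q.1.2, q.2) : ℝ × ℝ × ℝ)) ''
        (({0}ᶜ : Set (ℝ × ℝ)) ×ˢ (univ : Set ℝ)) := by
    ext p
    constructor
    · rintro ⟨⟨⟨x, y, z⟩, hp⟩, hpO, rfl⟩
      have hf : √3 < ff x y := hpO
      have hf0 : 0 < ff x y := h3.trans hf
      set t : ℝ := 1 - √3 / ff x y with ht
      have ht0 : 0 < t := by
        rw [ht, sub_pos, div_lt_one hf0]
        exact hf
      have hft : ff (t * x) (t * y) = ff x y - √3 := by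
        rw [roo_hom t x y ht0.le, ht]
        field_simp
      have hd : 0 < ff x y - √3 := by linarith
      refine ⟨((t * x, t * y), z), ⟨?_, mem_univ _⟩, ?_⟩
      · intro h
        have h0 : ((t * x, t * y) : ℝ × ℝ) = 0 := h
        have h1 : t * x = 0 := congrArg Prod.fst h0
        have h2 : t * y = 0 := congrArg Prod.snd h0
        rw [h1, h2] at hft
        have h4 : ff 0 0 = 0 := by
          have := roo_hom 0 0 0 le_rfl
          simpa using this
        rw [h4] at hft
        linarith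
      · simp only [hft]
        have h5 : (1 + √3 / (ff x y - √3)) * t = 1 := by
          rw [ht]
          field_simp
          ring
        rw [← mul_assoc, ← mul_assoc, h5, one_mul, one_mul]
    · rintro ⟨⟨v, z⟩, ⟨hv, -⟩, rfl⟩
      have hv0 : v ≠ 0 := hv
      have hp := roo_pos v hv0
      have hs : 0 ≤ 1 + √3 / ff v.1 v.2 := by positivity
      have hgt : √3 < ff ((1 + √3 / ff v.1 v.2) * v.1) ((1 + √3 / ff v.1 v.2) * v.2) := by
        rw [roo_hom _ _ _ hs, add_mul, one_mul, div_mul_cancel₀ _ hp.ne']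
        linarith
      have hnot : (((1 + √3 / ff v.1 v.2) * v.1, (1 + √3 / ff v.1 v.2) * v.2, z) : ℝ × ℝ × ℝ) ∉
          RK := by
        rintro ⟨-, h⟩
        exact absurd h hgt.ne'
      exact ⟨⟨_, hnot⟩, hgt, rfl⟩
  rw [key]
  refine roo_base.image' ?_
  have hc1 : ContinuousOn (fun q : (ℝ × ℝ) × ℝ => 1 + √3 / ff q.1.1 q.1.2)
      (({0}ᶜ : Set (ℝ × ℝ)) ×ˢ (univ : Set ℝ)) := by
    refine continuousOn_const.add (continuousOn_const.div
      (roo_cont.comp continuous_fst).continuousOn ?_)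
    rintro ⟨v, z⟩ ⟨hv, -⟩
    exact (roo_pos v hv).ne'
  exact (hc1.mul (continuous_fst.comp continuous_fst).continuousOn).prodMk
    ((hc1.mul (continuous_snd.comp continuous_fst).continuousOn).prodMk
      continuous_snd.continuousOn)

end Pool.Agent.H238.HK
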