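import Pool.Agent.H238.HK.Defs

set_option autoImplicit false

open Topology Set Filter

namespace Pool.Agent.H238.HK

open Pool.Agent.Helper22.LC (core isCov lab lab_inj mono_chart Pers pers_ev ite_ev ite_ev')

private theorem ff_cont_roo : Continuous (fun p : ℝ × ℝ => ff p.1 p.2) := by
  unfold ff
  fun_prop

private theorem ff_pos_roo (x y : ℝ) (h : (x, y) ≠ ((0, 0) : ℝ × ℝ)) : 0 < ff x y := by
  unfold ff
  by_cases hy : y = 0
  · have hx : x ≠ 0 := by
      rintro rfl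
      exact h (by rw [hy])
    apply lt_max_of_lt_left
    apply lt_max_of_lt_left
    rw [hy, add_zero, abs_pos]
    have : (0:ℝ) < √3 := Real.sqrt_pos.2 (by norm_num)
    exact mul_ne_zero this.ne' hx
  · apply lt_max_of_lt_right
    have := abs_pos.2 hy
    linarith

private theorem ff_smul_roo (t x y : ℝ) (ht : 0 ≤ t) : ff (t * x) (t * y) = t * ff x y := by
  unfold ff
  have e1 : √3 * (t * x) + t * y = t * (√3 * x + y) := by ring
  have e2 : √3 * (t * x) - t * y = t * (√3 * x - y) := by ring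
  rw [e1, e2, abs_mul, abs_mul, abs_mul, abs_of_nonneg ht, mul_max_of_nonneg _ _ ht,
    mul_max_of_nonneg _ _ ht]
  congr 1
  ring

private abbrev Pt : Type := {v : ℝ × ℝ // v ∈ ({((0:ℝ), (0:ℝ))} : Set (ℝ × ℝ))ᶜ}

private theorem pt_pos (v : Pt) : 0 < ff v.1.1 v.1.2 := ff_pos_roo v.1.1 v.1.2 v.2

private theorem ff_phi (v : Pt) :
    ff ((1 + √3 / ff v.1.1 v.1.2) * v.1.1) ((1 + √3 / ff v.1.1 v.1.2) * v.1.2) = ff v.1.1 v.1.2 + √3 := by
  have h := pt_pos v
  have h3 : (0:ℝ) < √3 := Real.sqrt_pos.2 (by norm_num)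
  rw [ff_smul_roo _ _ _ (by positivity)]
  field_simp

private noncomputable def phi (q : Pt × ℝ) : RC :=
  ⟨((1 + √3 / ff q.1.1.1 q.1.1.2) * q.1.1.1, (1 + √3 / ff q.1.1.1 q.1.1.2) * q.1.1.2, q.2), by
    intro h
    have h1 := h.2
    simp only at h1
    rw [ff_phi q.1] at h1
    have := pt_pos q.1
    linarith⟩

private theorem phi_cont : Continuous phi := by
  have hf : Continuous (fun q : Pt × ℝ => ff q.1.1.1 q.1.1.2) :=
    ff_cont_roo.comp (continuous_subtype_val.comp continuous_fst)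
  have hd : Continuous (fun q : Pt × ℝ => 1 + √3 / ff q.1.1.1 q.1.1.2) :=
    continuous_const.add (continuous_const.div hf (fun q => (pt_pos q.1).ne'))
  have hx : Continuous (fun q : Pt × ℝ => q.1.1.1) :=
    continuous_fst.comp (continuous_subtype_val.comp continuous_fst)
  have hy : Continuous (fun q : Pt × ℝ => q.1.1.2) :=
    continuous_snd.comp (continuous_subtype_val.comp continuous_fst)
  exact Continuous.subtype_mk ((hd.mul hx).prodMk ((hd.mul hy).prodMk continuous_snd)) _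

private theorem pt_conn : PathConnectedSpace Pt := by
  have h : IsPathConnected ({((0:ℝ), (0:ℝ))} : Set (ℝ × ℝ))ᶜ := by
    apply isPathConnected_compl_singleton_of_one_lt_rank
    rw [rank_prod']
    simp
    norm_num
  exact isPathConnected_iff_pathConnectedSpace.1 h

private theorem range_phi : range phi = RO := by
  have h3 : (0:ℝ) < √3 := Real.sqrt_pos.2 (by norm_num)
  ext p
  constructor
  · rintro ⟨q, rfl⟩
    show √3 < ff ((1 + √3 / ff q.1.1.1 q.1.1.2) * q.1.1.1) ((1 + √3 / ff q.1.1.1 q.1.1.2) * q.1.1.2)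
    rw [ff_phi q.1]
    have := pt_pos q.1
    linarith
  · intro hp
    have hp' : √3 < ff p.1.1 p.1.2.1 := hp
    have hF : 0 < ff p.1.1 p.1.2.1 := by linarith
    have hs : 0 < 1 - √3 / ff p.1.1 p.1.2.1 := by
      rw [sub_pos, div_lt_one hF]
      exact hp'
    have hff : ff ((1 - √3 / ff p.1.1 p.1.2.1) * p.1.1) ((1 - √3 / ff p.1.1 p.1.2.1) * p.1.2.1) =
        ff p.1.1 p.1.2.1 - √3 := by
      rw [ff_smul_roo _ _ _ hs.le]
      field_simp
    have hne : ((1 - √3 / ff p.1.1 p.1.2.1) * p.1.1, (1 - √3 / ff p.1.1 p.1.2.1) * p.1.2.1) ∈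
        ({((0:ℝ), (0:ℝ))} : Set (ℝ × ℝ))ᶜ := by
      intro h0
      rw [mem_singleton_iff, Prod.mk.injEq] at h0
      rw [h0.1, h0.2] at hff
      have : ff 0 0 = 0 := by unfold ff; simp
      linarith
    refine ⟨(⟨_, hne⟩, p.1.2.2), ?_⟩
    apply Subtype.ext
    have hG : 0 < ff p.1.1 p.1.2.1 - √3 := by linarith
    have hk : (1 + √3 / (ff p.1.1 p.1.2.1 - √3)) * (1 - √3 / ff p.1.1 p.1.2.1) = 1 := by
      field_simp
      ring
    show ((1 + √3 / ff ((1 - √3 / ff p.1.1 p.1.2.1) * p.1.1) ((1 - √3 / ff p.1.1 p.1.2.1) * p.1.2.1)) *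
        ((1 - √3 / ff p.1.1 p.1.2.1) * p.1.1),
      (1 + √3 / ff ((1 - √3 / ff p.1.1 p.1.2.1) * p.1.1) ((1 - √3 / ff p.1.1 p.1.2.1) * p.1.2.1)) *
        ((1 - √3 / ff p.1.1 p.1.2.1) * p.1.2.1), p.1.2.2) = p.1
    rw [hff, ← mul_assoc, ← mul_assoc, hk, one_mul, one_mul]

theorem pROO : ROO := by
  show IsPathConnected RO
  haveI := pt_conn
  rw [← range_phi]
  exact isPathConnected_range phi_cont

end Pool.Agent.H238.HK
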