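import Pool.Agent.H998.HK.Spec3

/-!
Hohenberg-Kohn project (helper998), task VAR2: a common ground state. helper238.
-/

set_option autoImplicit false

noncomputable section

namespace Pool.Agent.H238.HK

open MeasureTheory Filter Topology Set
open scoped ENNReal NNReal
open Pool.Agent.H998.HK

abbrev Gr (n : ℕ) : Type := Spin (n + 1) → Fin (n + 1) → Fin 3 → (Fin (n + 1) → E3) → ℂ

/-- the energy of the external potential -/
def Pv (n : ℕ) (v : E3 → ℝ) (Ψ : Wave (n + 1)) : ℝ :=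
  ∑ s, ∑ j, ∫ x : Fin (n + 1) → E3, v (x j) * ‖Ψ s x‖ ^ 2

/-- twice the kinetic energy -/
def Kin (n : ℕ) (G : Gr n) : ℝ := ∑ s, ∑ j, ∑ i, ∫ x, ‖G s j i x‖ ^ 2

/-- the Coulomb energy -/
def Cou (n : ℕ) (Ψ : Wave (n + 1)) : ℝ :=
  ∑ s, ∑ j, ∑ k, ∫ x : Fin (n + 1) → E3, (if j < k then 1 / ‖x j - x k‖ else 0) * ‖Ψ s x‖ ^ 2

theorem Cou_nonneg (n : ℕ) (Ψ : Wave (n + 1)) : 0 ≤ Cou n Ψ := by
  refine Finset.sum_nonneg fun s _ => Finset.sum_nonneg fun j _ => Finset.sum_nonneg fun k _ => ?_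
  refine integral_nonneg fun x => mul_nonneg ?_ (sq_nonneg _)
  split_ifs <;> positivity

theorem Kin_nonneg (n : ℕ) (G : Gr n) : 0 ≤ Kin n G :=
  Finset.sum_nonneg fun _ _ => Finset.sum_nonneg fun _ _ => Finset.sum_nonneg fun _ _ =>
    integral_nonneg fun _ => sq_nonneg _

/-- integrability of all the terms -/
def Intg (n : ℕ) (v : E3 → ℝ) (Ψ : Wave (n + 1)) : Prop :=
  (∀ s j, Integrable fun x : Fin (n + 1) → E3 => v (x j) * ‖Ψ s x‖ ^ 2) ∧
  (∀ s (j k : Fin (n + 1)), j < k →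
    Integrable fun x : Fin (n + 1) → E3 => 1 / ‖x j - x k‖ * ‖Ψ s x‖ ^ 2)

theorem energy_eq (n : ℕ) (v : E3 → ℝ) (Ψ : Wave (n + 1)) (G : Gr n) (h : Intg n v Ψ) :
    energy (n + 1) v Ψ G = 1 / 2 * Kin n G + (Pv n v Ψ + Cou n Ψ) := by
  have hc : ∀ s (j k : Fin (n + 1)), Integrable fun x : Fin (n + 1) → E3 =>
      (if j < k then 1 / ‖x j - x k‖ else 0) * ‖Ψ s x‖ ^ 2 := by
    intro s j k
    by_cases hjk : j < k
    · simpa only [hjk, if_true] using h.2 s j k hjk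
    · simp only [hjk, if_false, zero_mul]
      exact integrable_zero _ _ _
  have key : ∀ s, ∫ x : Fin (n + 1) → E3, (∑ j, v (x j) + ∑ j, ∑ k,
      if j < k then 1 / ‖x j - x k‖ else 0) * ‖Ψ s x‖ ^ 2 =
      (∑ j, ∫ x : Fin (n + 1) → E3, v (x j) * ‖Ψ s x‖ ^ 2) +
      ∑ j, ∑ k, ∫ x : Fin (n + 1) → E3,
        (if j < k then 1 / ‖x j - x k‖ else 0) * ‖Ψ s x‖ ^ 2 := by
    intro s
    have e : (fun x : Fin (n + 1) → E3 => (∑ j, v (x j) + ∑ j, ∑ k,
        if j < k then 1 / ‖x j - x k‖ else 0) * ‖Ψ s x‖ ^ 2) =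
        fun x => (∑ j, v (x j) * ‖Ψ s x‖ ^ 2) + ∑ j, ∑ k,
          (if j < k then 1 / ‖x j - x k‖ else 0) * ‖Ψ s x‖ ^ 2 := by
      funext x
      rw [add_mul, Finset.sum_mul, Finset.sum_mul]
      congr 1
      exact Finset.sum_congr rfl fun j _ => by rw [Finset.sum_mul]
    rw [e, integral_add (integrable_finsetSum _ fun j _ => h.1 s j)
      (integrable_finsetSum _ fun j _ => integrable_finsetSum _ fun k _ => hc s j k),
      integral_finsetSum _ fun j _ => h.1 s j,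
      integral_finsetSum _ fun j _ => integrable_finsetSum _ fun k _ => hc s j k]
    congr 1
    exact Finset.sum_congr rfl fun j _ => integral_finsetSum _ fun k _ => hc s j k
  unfold energy Kin Pv Cou
  simp only [key]
  rw [Finset.sum_add_distrib, Finset.sum_add_distrib, Finset.mul_sum]

theorem Pv_sub (n : ℕ) (v₁ v₂ : E3 → ℝ) (Ψ : Wave (n + 1)) (h1 : Intg n v₁ Ψ)
    (h2 : Intg n v₂ Ψ) : Pv n (fun x => v₁ x - v₂ x) Ψ = Pv n v₁ Ψ - Pv n v₂ Ψ := by
  unfold Pv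
  rw [← Finset.sum_sub_distrib]
  refine Finset.sum_congr rfl fun s _ => ?_
  rw [← Finset.sum_sub_distrib]
  refine Finset.sum_congr rfl fun j _ => ?_
  rw [← integral_sub (h1.1 s j) (h2.1 s j)]
  refine integral_congr_ae (Eventually.of_forall fun x => ?_)
  simp only
  ring

theorem XStar.sub {v₁ v₂ : E3 → ℝ} (h1 : XStar v₁) (h2 : XStar v₂) :
    XStar (fun x => v₁ x - v₂ x) := by
  obtain ⟨a, b, ha, hb, hab⟩ := h1
  obtain ⟨c, d, hc, hd, hcd⟩ := h2
  refine ⟨a - c, b - d, ha.sub hc, hb.sub hd, fun x => ?_⟩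
  show v₁ x - v₂ x = (a x - c x) + (b x - d x)
  rw [hab, hcd]; ring

/-! ### the density -/

/-- all particles contribute the same -/
theorem perm_int (n : ℕ) (w : E3 → ℝ) (Ψ : Wave (n + 1)) (G : Gr n) (h : IsWave (n + 1) Ψ G)
    (j : Fin (n + 1)) : ∑ s, ∫ x : Fin (n + 1) → E3, w (x j) * ‖Ψ s x‖ ^ 2 =
      ∑ s, ∫ x : Fin (n + 1) → E3, w (x 0) * ‖Ψ s x‖ ^ 2 := by
  set π : Equiv.Perm (Fin (n + 1)) := Equiv.swap 0 j with hπ
  have h0 : π 0 = j := Equiv.swap_apply_left _ _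
  have hmp : MeasurePreserving (fun x : Fin (n + 1) → E3 => x ∘ π) volume volume := by
    have := volume_measurePreserving_piCongrLeft (fun _ : Fin (n + 1) => E3) π.symm
    have e : (MeasurableEquiv.piCongrLeft (fun _ : Fin (n + 1) => E3) π.symm :
        (Fin (n + 1) → E3) → (Fin (n + 1) → E3)) = fun x => x ∘ π := by
      funext x k
      have := Equiv.piCongrLeft_apply (P := fun _ : Fin (n + 1) => E3) (e := π.symm) x k
      rw [MeasurableEquiv.coe_piCongrLeft]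
      simpa using this
    rwa [e] at this
  have hemb : MeasurableEmbedding (fun x : Fin (n + 1) → E3 => x ∘ π) := by
    have e : (MeasurableEquiv.piCongrLeft (fun _ : Fin (n + 1) => E3) π.symm :
        (Fin (n + 1) → E3) → (Fin (n + 1) → E3)) = fun x => x ∘ π := by
      funext x k
      have := Equiv.piCongrLeft_apply (P := fun _ : Fin (n + 1) => E3) (e := π.symm) x k
      rw [MeasurableEquiv.coe_piCongrLeft]
      simpa using this
    rw [← e]
    exact MeasurableEquiv.measurableEmbedding _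
  have step : ∀ s : Spin (n + 1), ∫ x : Fin (n + 1) → E3, w (x j) * ‖Ψ s x‖ ^ 2 =
      ∫ x : Fin (n + 1) → E3, w (x 0) * ‖Ψ (s ∘ π) x‖ ^ 2 := by
    intro s
    have h1 : ∫ x : Fin (n + 1) → E3, w (x j) * ‖Ψ s x‖ ^ 2 =
        ∫ x : Fin (n + 1) → E3, (fun y : Fin (n + 1) → E3 => w (y 0) * ‖Ψ (s ∘ π) y‖ ^ 2)
          (x ∘ π) := by
      refine integral_congr_ae ?_
      filter_upwards [h.antisymm π s] with x hx
      simp only [Function.comp_apply, h0]
      rw [hx, norm_mul]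
      have : ‖((Equiv.Perm.sign π : ℤ) : ℂ)‖ = 1 := by
        rcases Int.units_eq_one_or (Equiv.Perm.sign π) with h' | h' <;> simp [h']
      rw [this, one_mul]
    rw [h1]
    exact hmp.integral_comp hemb (fun y : Fin (n + 1) → E3 => w (y 0) * ‖Ψ (s ∘ π) y‖ ^ 2)
  simp only [step]
  exact Equiv.sum_comp (Equiv.arrowCongr π.symm (Equiv.refl (Fin 2)))
    (fun s : Spin (n + 1) => ∫ x : Fin (n + 1) → E3, w (x 0) * ‖Ψ s x‖ ^ 2)

/-- Fubini -/
theorem cons_int (n : ℕ) (f : (Fin (n + 1) → E3) → ℝ) (hf : Integrable f) :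
    Integrable (fun z : E3 × (Fin n → E3) => f (Fin.cons z.1 z.2)) ∧
    ∫ x, f x = ∫ x : E3, ∫ y : Fin n → E3, f (Fin.cons x y) := by
  have hmp := (volume_preserving_piFinSuccAbove (fun _ : Fin (n + 1) => E3) 0).symm
  have e : ∀ z : E3 × (Fin n → E3), (MeasurableEquiv.piFinSuccAbove
      (fun _ : Fin (n + 1) => E3) 0).symm z = Fin.cons z.1 z.2 := by
    intro z
    have : (MeasurableEquiv.piFinSuccAbove (fun _ : Fin (n + 1) => E3) 0).symm z =
        Fin.insertNth (α := fun _ : Fin (n + 1) => E3) 0 z.1 z.2 := rfl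
    rw [this, Fin.insertNth_zero']
  have hi : Integrable (fun z : E3 × (Fin n → E3) => f (Fin.cons z.1 z.2)) := by
    have h1 := hmp.integrable_comp_of_integrable hf
    refine h1.congr (Eventually.of_forall fun z => ?_)
    simp only [Function.comp_apply]
    rw [e]
  refine ⟨hi, ?_⟩
  rw [← integral_prod (fun z : E3 × (Fin n → E3) => f (Fin.cons z.1 z.2)) hi]
  have h2 := (hmp.integral_comp (MeasurableEquiv.measurableEmbedding _) f).symm
  simp only [e] at h2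
  exact h2

/-- the external energy in terms of the density -/
theorem Pv_dens (n : ℕ) (w : E3 → ℝ) (Ψ : Wave (n + 1)) (G : Gr n) (h : IsWave (n + 1) Ψ G)
    (hi : ∀ s j, Integrable fun x : Fin (n + 1) → E3 => w (x j) * ‖Ψ s x‖ ^ 2) :
    Integrable (fun x => w x * dens n Ψ x) ∧ Pv n w Ψ = ∫ x, w x * dens n Ψ x := by
  have h1 : ∀ s, Integrable (fun x : E3 => w x * ∫ y : Fin n → E3, ‖Ψ s (Fin.cons x y)‖ ^ 2) ∧
      ∫ x : Fin (n + 1) → E3, w (x 0) * ‖Ψ s x‖ ^ 2 =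
        ∫ x : E3, w x * ∫ y : Fin n → E3, ‖Ψ s (Fin.cons x y)‖ ^ 2 := by
    intro s
    obtain ⟨a, b⟩ := cons_int n _ (hi s 0)
    have e : (fun x : E3 => ∫ y : Fin n → E3, w ((Fin.cons x y : Fin (n + 1) → E3) 0) *
        ‖Ψ s (Fin.cons x y)‖ ^ 2) =
        fun x : E3 => w x * ∫ y : Fin n → E3, ‖Ψ s (Fin.cons x y)‖ ^ 2 := by
      funext x
      simp only [Fin.cons_zero]
      rw [integral_const_mul]
    refine ⟨?_, ?_⟩
    · rw [← e]
      exact a.integral_prod_left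
    · rw [b, e]
  have e2 : (fun x => w x * dens n Ψ x) =
      fun x => ((n : ℝ) + 1) * ∑ s, w x * ∫ y : Fin n → E3, ‖Ψ s (Fin.cons x y)‖ ^ 2 := by
    funext x
    unfold dens
    rw [← Finset.mul_sum]
    ring
  refine ⟨?_, ?_⟩
  · rw [e2]
    exact (integrable_finsetSum _ fun s _ => (h1 s).1).const_mul _
  · rw [e2, integral_const_mul, integral_finsetSum _ fun s _ => (h1 s).1]
    unfold Pv
    rw [Finset.sum_comm]
    simp only [perm_int n w Ψ G h]
    rw [Finset.sum_const, Finset.card_univ, Fintype.card_fin, nsmul_eq_mul]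
    push_cast
    congr 1
    exact Finset.sum_congr rfl fun s _ => (h1 s).2

theorem dens_nonneg (n : ℕ) (Ψ : Wave (n + 1)) (x : E3) : 0 ≤ dens n Ψ x :=
  mul_nonneg (by positivity) (Finset.sum_nonneg fun _ _ => integral_nonneg fun _ => sq_nonneg _)

/-! ### consequences of the form bounds -/

/-- the form bound for `v` with constant `C` -/
def FB (n : ℕ) (v : E3 → ℝ) (C : ℝ) : Prop :=
  ∀ (Ψ : Wave (n + 1)) (G : Gr n), IsWave (n + 1) Ψ G → Intg n v Ψ ∧
    Pv n (fun x => |v x|) Ψ ≤ 1 / 4 * Kin n G + C * normSq (n + 1) Ψ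

theorem fb_of (hW : S_WFB) (n : ℕ) (v : E3 → ℝ) (hv : XStar v) : ∃ C, 0 < C ∧ FB n v C := by
  obtain ⟨C, hC, h⟩ := hW n v hv
  refine ⟨C, hC, fun Ψ G hΨ => ?_⟩
  obtain ⟨a, b, c⟩ := h Ψ G hΨ
  exact ⟨⟨a, b⟩, c⟩

theorem Pv_abs_ge (n : ℕ) (v : E3 → ℝ) (Ψ : Wave (n + 1)) :
    |Pv n v Ψ| ≤ Pv n (fun x => |v x|) Ψ := by
  unfold Pv
  refine (Finset.abs_sum_le_sum_abs _ _).trans (Finset.sum_le_sum fun s _ => ?_)
  refine (Finset.abs_sum_le_sum_abs _ _).trans (Finset.sum_le_sum fun j _ => ?_)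
  refine (abs_integral_le_integral_abs).trans (le_of_eq ?_)
  refine integral_congr_ae (Eventually.of_forall fun x => ?_)
  simp only
  rw [abs_mul, abs_of_nonneg (sq_nonneg ‖Ψ s x‖)]

theorem kin_le {n : ℕ} {v : E3 → ℝ} {C : ℝ} (hfb : FB n v C) (Ψ : Wave (n + 1)) (G : Gr n)
    (h : IsWave (n + 1) Ψ G) (h1 : normSq (n + 1) Ψ = 1) :
    1 / 4 * Kin n G ≤ energy (n + 1) v Ψ G + C := by
  obtain ⟨hi, hb⟩ := hfb Ψ G h
  rw [energy_eq n v Ψ G hi]
  rw [h1] at hb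
  have h2 := neg_le_of_abs_le (Pv_abs_ge n v Ψ)
  have h3 := Cou_nonneg n Ψ
  linarith

theorem E0_le {n : ℕ} {v : E3 → ℝ} {C : ℝ} (hfb : FB n v C) (Ψ : Wave (n + 1)) (G : Gr n)
    (h : IsWave (n + 1) Ψ G) (h1 : normSq (n + 1) Ψ = 1) : E0 n v ≤ energy (n + 1) v Ψ G := by
  refine csInf_le ⟨-C, ?_⟩ ⟨Ψ, G, h, h1, rfl⟩
  rintro e ⟨Φ, F, hΦ, hn, rfl⟩
  have := kin_le hfb Φ F hΦ hn
  have := Kin_nonneg n F
  linarith

/-- the key computation: `∑ p_k P_w(Ψ_k) = ∫ w ρ` -/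
theorem sum_Pw {n : ℕ} {v w : E3 → ℝ} {C C' : ℝ} (hfb : FB n v C) (hfb' : FB n w C')
    (ρ : E3 → ℝ) (p : ℕ → ℝ) (Ψ : ℕ → Wave (n + 1)) (G : ℕ → Gr n) (hp : ∀ k, 0 ≤ p k)
    (hp1 : HasSum p 1) (hΨ : ∀ k, IsWave (n + 1) (Ψ k) (G k) ∧ normSq (n + 1) (Ψ k) = 1)
    (he : Summable (fun k => p k * energy (n + 1) v (Ψ k) (G k)))
    (hρ : ∀ᵐ x, HasSum (fun k => p k * dens n (Ψ k) x) (ρ x)) :
    HasSum (fun k => p k * Pv n w (Ψ k)) (∫ x, w x * ρ x) := by
  -- summability of the kinetic energies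
  have hK : Summable (fun k => p k * Kin n (G k)) := by
    refine Summable.of_nonneg_of_le (fun k => mul_nonneg (hp k) (Kin_nonneg n _)) (fun k => ?_)
      ((he.add (hp1.summable.mul_right C)).mul_left 4)
    have := kin_le hfb (Ψ k) (G k) (hΨ k).1 (hΨ k).2
    have h2 := mul_le_mul_of_nonneg_left this (hp k)
    linarith
  have habs : Summable (fun k => p k * Pv n (fun x => |w x|) (Ψ k)) := by
    refine Summable.of_nonneg_of_le (fun k => mul_nonneg (hp k) ?_) (fun k => ?_)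
      ((hK.mul_left (1/4)).add (hp1.summable.mul_right C'))
    · exact Finset.sum_nonneg fun _ _ => Finset.sum_nonneg fun _ _ =>
        integral_nonneg fun _ => mul_nonneg (abs_nonneg _) (sq_nonneg _)
    · have := (hfb' (Ψ k) (G k) (hΨ k).1).2
      rw [(hΨ k).2] at this
      have h2 := mul_le_mul_of_nonneg_left this (hp k)
      linarith
  have hD : ∀ k, Integrable (fun x => w x * dens n (Ψ k) x) ∧
      Pv n w (Ψ k) = ∫ x, w x * dens n (Ψ k) x := fun k =>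
    Pv_dens n w (Ψ k) (G k) (hΨ k).1 (hfb' (Ψ k) (G k) (hΨ k).1).1.1
  have hA : ∀ k, Pv n (fun x => |w x|) (Ψ k) = ∫ x, |w x| * dens n (Ψ k) x := fun k => by
    refine (Pv_dens n (fun x => |w x|) (Ψ k) (G k) (hΨ k).1 fun s j => ?_).2
    have := ((hfb' (Ψ k) (G k) (hΨ k).1).1.1 s j).abs
    refine this.congr (Eventually.of_forall fun x => ?_)
    simp only
    rw [abs_mul, abs_of_nonneg (sq_nonneg ‖Ψ k s x‖)]
  set F : ℕ → E3 → ℝ := fun k x => p k * (w x * dens n (Ψ k) x) with hF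
  have hs := hasSum_integral_of_summable_integral_norm (μ := (volume : Measure E3)) (F := F)
    (fun k => (hD k).1.const_mul _) (by
      refine habs.congr fun k => ?_
      rw [hA k, ← integral_const_mul]
      refine integral_congr_ae (Eventually.of_forall fun x => ?_)
      simp only [hF, Real.norm_eq_abs]
      rw [abs_mul, abs_mul, abs_of_nonneg (hp k), abs_of_nonneg (dens_nonneg n (Ψ k) x)])
  have e1 : (fun k => ∫ x, F k x) = fun k => p k * Pv n w (Ψ k) := by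
    funext k
    rw [hF]
    simp only
    rw [integral_const_mul, ← (hD k).2]
  have e2 : ∫ x, ∑' k, F k x = ∫ x, w x * ρ x := by
    refine integral_congr_ae ?_
    filter_upwards [hρ] with x hx
    have h3 : HasSum (fun k => F k x) (w x * ρ x) := by
      have h4 := hx.mul_left (w x)
      have e3 : (fun k => F k x) = fun k => w x * (p k * dens n (Ψ k) x) := by
        funext k
        simp only [hF]
        ring
      rwa [e3]
    exact h3.tsum_eq
  rwa [e1, e2] at hs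

theorem t_VAR2 : S_VAR2 := by
  intro hW n v₁ v₂ h1 h2 ρ ⟨p, Ψ, G, hp, hp1, hΨ, he, hρ⟩ ⟨q, Φ, F, hq, hq1, hΦ, he', hρ'⟩
  obtain ⟨C₁, _, hf1⟩ := fb_of hW n v₁ h1
  obtain ⟨C₂, _, hf2⟩ := fb_of hW n v₂ h2
  obtain ⟨C₃, _, hf3⟩ := fb_of hW n _ (XStar.sub h1 h2)
  set w : E3 → ℝ := fun x => v₁ x - v₂ x with hw
  have hdiff : ∀ (Θ : Wave (n + 1)) (K : Gr n), IsWave (n + 1) Θ K →
      energy (n + 1) v₁ Θ K = energy (n + 1) v₂ Θ K + Pv n w Θ := by
    intro Θ K hΘ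
    rw [energy_eq n v₁ Θ K (hf1 Θ K hΘ).1, energy_eq n v₂ Θ K (hf2 Θ K hΘ).1,
      Pv_sub n v₁ v₂ Θ (hf1 Θ K hΘ).1 (hf2 Θ K hΘ).1]
    ring
  have s1 := sum_Pw hf1 hf3 ρ p Ψ G hp hp1 hΨ he.summable hρ
  have s2 := sum_Pw hf2 hf3 ρ q Φ F hq hq1 hΦ he'.summable hρ'
  set I := ∫ x, w x * ρ x with hI
  have a1 : HasSum (fun k => p k * (energy (n + 1) v₂ (Ψ k) (G k) - E0 n v₂))
      (E0 n v₁ - I - E0 n v₂) := by
    have h3 := (he.sub s1).sub (hp1.mul_right (E0 n v₂))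
    rw [one_mul] at h3
    have e : (fun k => p k * (energy (n + 1) v₂ (Ψ k) (G k) - E0 n v₂)) = fun k =>
        p k * energy (n + 1) v₁ (Ψ k) (G k) - p k * Pv n w (Ψ k) - p k * E0 n v₂ := by
      funext k
      rw [hdiff (Ψ k) (G k) (hΨ k).1]
      ring
    rwa [e]
  have a2 : HasSum (fun k => q k * (energy (n + 1) v₁ (Φ k) (F k) - E0 n v₁))
      (E0 n v₂ + I - E0 n v₁) := by
    have h3 := (he'.add s2).sub (hq1.mul_right (E0 n v₁))
    rw [one_mul] at h3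
    have e : (fun k => q k * (energy (n + 1) v₁ (Φ k) (F k) - E0 n v₁)) = fun k =>
        q k * energy (n + 1) v₂ (Φ k) (F k) + q k * Pv n w (Φ k) - q k * E0 n v₁ := by
      funext k
      rw [hdiff (Φ k) (F k) (hΦ k).1]
      ring
    rwa [e]
  have a3 : HasSum (fun k => q k * (energy (n + 1) v₂ (Φ k) (F k) - E0 n v₂)) 0 := by
    have h3 := he'.sub (hq1.mul_right (E0 n v₂))
    rw [one_mul, sub_self] at h3
    have e : (fun k => q k * (energy (n + 1) v₂ (Φ k) (F k) - E0 n v₂)) = fun k =>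
        q k * energy (n + 1) v₂ (Φ k) (F k) - q k * E0 n v₂ := by
      funext k
      ring
    rwa [e]
  have n1 : ∀ k, 0 ≤ p k * (energy (n + 1) v₂ (Ψ k) (G k) - E0 n v₂) := fun k =>
    mul_nonneg (hp k) (sub_nonneg.2 (E0_le hf2 _ _ (hΨ k).1 (hΨ k).2))
  have n2 : ∀ k, 0 ≤ q k * (energy (n + 1) v₁ (Φ k) (F k) - E0 n v₁) := fun k =>
    mul_nonneg (hq k) (sub_nonneg.2 (E0_le hf1 _ _ (hΦ k).1 (hΦ k).2))
  have n3 : ∀ k, 0 ≤ q k * (energy (n + 1) v₂ (Φ k) (F k) - E0 n v₂) := fun k =>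
    mul_nonneg (hq k) (sub_nonneg.2 (E0_le hf2 _ _ (hΦ k).1 (hΦ k).2))
  have b1 : 0 ≤ E0 n v₁ - I - E0 n v₂ := a1.nonneg n1
  have b2 : 0 ≤ E0 n v₂ + I - E0 n v₁ := a2.nonneg n2
  have b3 : E0 n v₂ + I - E0 n v₁ = 0 := by linarith
  rw [b3] at a2
  have c2 := (hasSum_zero_iff_of_nonneg n2).1 a2
  have c3 := (hasSum_zero_iff_of_nonneg n3).1 a3
  -- some weight is positive
  obtain ⟨k, hk⟩ : ∃ k, q k ≠ 0 := by
    by_contra hcon
    push Not at hcon
    have : q = 0 := funext hcon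
    rw [this] at hq1
    exact one_ne_zero (hq1.unique hasSum_zero)
  refine ⟨Φ k, F k, (hΦ k).1, (hΦ k).2, ?_, ?_⟩
  · have := congrFun c2 k
    rcases mul_eq_zero.1 this with h' | h'
    · exact absurd h' hk
    · exact sub_eq_zero.1 h'
  · have := congrFun c3 k
    rcases mul_eq_zero.1 this with h' | h'
    · exact absurd h' hk
    · exact sub_eq_zero.1 h'

end Pool.Agent.H238.HK
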